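import Pool.Agent.Q259.AS.Fn
import Pool.Agent.Q259.AS.Sel7

set_option autoImplicit false

/-! Correlations of multiplicative functions with typical shifts: almost sure statements. -/

namespace Pool.Agent.Q259.AS

open Finset MeasureTheory Filter
open Pool.Agent.Y885 (Fine)
open Pool.Agent.H373R2.T7 (exI)

lemma dat_exists (s κ : ℕ) (θ : ℕ → ℝ) (H : ℕ) (I : Type) [Fintype I] (i : I → Fin s) (α : I → ℕ)
    (g : I → ℕ → (Fin s → ℤ) → ℂ) : ∃ q : Dat s κ, (Fintype.card I : ℝ) ≤ Real.log H ^ κ → (∀ j, 1 ≤ α j) →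
      (∀ j n h, 1 ≤ n → α j * n ≤ H → ‖g j n h‖ ≤ Real.log H ^ κ) → q.H = H ∧
      ∀ (U : ℕ) (h : Fin s → ℤ), h ∉ {h | ∃ l, ∃ N : ℕ, q.α l * N ≤ q.H ∧ (q.H : ℝ) / Real.log q.H ^ U <
      ‖∑ n ∈ Icc 1 N, q.g l n (Function.update h (q.i l) 0) *
        exI (fun n => ((θ n : ℝ) : ℂ)) (((q.α l * n : ℕ) : ℤ) + h (q.i l))‖} →
      ∀ j : I, ∀ N : ℕ, α j * N ≤ H → ‖∑ n ∈ Icc 1 N, g j n (Function.update h (i j) 0) *
        exI (fun n => ((θ n : ℝ) : ℂ)) (((α j * n : ℕ) : ℤ) + h (i j))‖ ≤ (H : ℝ) / Real.log H ^ U := by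
  classical
  by_cases h1 : (Fintype.card I : ℝ) ≤ Real.log H ^ κ ∧ (∀ j, 1 ≤ α j) ∧
      (∀ j n h, 1 ≤ n → α j * n ≤ H → ‖g j n h‖ ≤ Real.log H ^ κ)
  · obtain ⟨h2, h3, h4⟩ := h1
    refine ⟨⟨H, Fintype.card I, fun l => i ((Fintype.equivFin I).symm l), fun l => α ((Fintype.equivFin I).symm l),
      fun l => g ((Fintype.equivFin I).symm l), h2, fun l => h3 _, fun l n h => h4 _ n h⟩, fun _ _ _ => ⟨rfl, ?_⟩⟩
    intro U h hh j N hN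
    by_contra hcon
    push Not at hcon
    apply hh
    refine ⟨Fintype.equivFin I j, N, ?_, ?_⟩
    · simp only [Equiv.symm_apply_apply]
      exact hN
    · simp only [Equiv.symm_apply_apply]
      exact hcon
  · refine ⟨⟨0, 0, fun l => l.elim0, fun l => l.elim0, fun l => l.elim0, ?_, fun l => l.elim0, fun l => l.elim0⟩, ?_⟩
    · simp only [Nat.cast_zero, Real.log_zero]
      positivity
    · intro h2 h3 h4
      exact absurd ⟨h2, h3, h4⟩ h1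

/-- **Correlations with typical shifts.** -/
theorem as_fine (θ : ℕ → ℝ) (hθ : Fine θ) (s κ : ℕ) (μ : Fin s → Measure ℝ) [∀ i, IsProbabilityMeasure (μ i)]
    (hμ : ∀ i, SelfSim (μ i) ∨ FourLp (μ i)) (a : ℕ → ℝ) (ρ : ℝ) (hρ : 0 < ρ)
    (ha : ∀ᶠ k : ℕ in atTop, 0 < a k ∧ (k : ℝ) ^ ρ ≤ Real.log (a k)) (B T : ℕ) (Y : ℕ → Finset (Fin s → ℝ))
    (hY : ∀ᶠ k : ℕ in atTop, (Y k).card ≤ k ^ T ∧ ∀ y ∈ Y k, ∀ i, |y i| ≤ B * a k)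
    (H : ℕ → ℕ) (hH : ∀ᶠ k : ℕ in atTop, a k ≤ B * H k ∧ (H k : ℝ) ≤ B * a k)
    (I : ℕ → Type) [∀ k, Fintype (I k)] (i : ∀ k, I k → Fin s) (α : ∀ k, I k → ℕ)
    (g : ∀ k, I k → ℕ → (Fin s → ℤ) → ℂ) (hcard : ∀ᶠ k : ℕ in atTop, (Fintype.card (I k) : ℝ) ≤ Real.log (H k) ^ κ)
    (hα : ∀ᶠ k : ℕ in atTop, ∀ j, 1 ≤ α k j)
    (hg : ∀ᶠ k : ℕ in atTop, ∀ j n h, 1 ≤ n → α k j * n ≤ H k → ‖g k j n h‖ ≤ Real.log (H k) ^ κ) :
    ∀ᵐ x ∂(Measure.pi μ), ∀ A U : ℕ, ∀ᶠ k : ℕ in atTop, ∀ y ∈ Y k, ∀ h : Fin s → ℤ,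
      (∀ i, |(h i : ℝ) - (a k * x i + y i)| ≤ Real.log (a k) ^ A) → ∀ j : I k, ∀ N : ℕ, α k j * N ≤ H k →
      ‖∑ n ∈ Icc 1 N, g k j n (Function.update h (i k j) 0) *
        exI (fun n => ((θ n : ℝ) : ℂ)) (((α k j * n : ℕ) : ℤ) + h (i k j))‖ ≤ (H k : ℝ) / Real.log (H k) ^ U := by
  have hdat := fun k => dat_exists s κ θ (H k) (I k) (i k) (α k) (g k)
  choose q hq using hdat
  have h1 : ∀ A U : ℕ, ∀ᵐ x ∂(Measure.pi μ), ∀ᶠ k : ℕ in atTop, ∀ y ∈ Y k, ∀ h : Fin s → ℤ,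
      (∀ i, |(h i : ℝ) - (a k * x i + y i)| ≤ Real.log (a k) ^ A) → ∀ j : I k, ∀ N : ℕ, α k j * N ≤ H k →
      ‖∑ n ∈ Icc 1 N, g k j n (Function.update h (i k j) 0) *
        exI (fun n => ((θ n : ℝ) : ℂ)) (((α k j * n : ℕ) : ℤ) + h (i k j))‖ ≤ (H k : ℝ) / Real.log (H k) ^ U := by
    intro A U
    have h2 := as_of μ (rare_of (eng_fine s κ U θ hθ) μ (fun i => niceM_of (μ i) (hμ i))) a ρ hρ
      (ha.mono fun k h => h.2) (ha.mono fun k h => h.1) T A B Y (hY.mono fun k h => h.1) (fun _ y => y)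
      (hY.mono fun k h => h.2) (fun k _ => q k)
      (by
        filter_upwards [hH, hcard, hα, hg] with k h1 h2 h3 h4 y _
        rw [(hq k h2 h3 h4).1]
        exact h1)
    filter_upwards [h2] with x hx
    filter_upwards [hx, hcard, hα, hg] with k h1 h2 h3 h4 y hy h hnear j N hN
    apply (hq k h2 h3 h4).2 U h _ j N hN
    intro hbad
    obtain ⟨i', hi'⟩ := h1 y hy h hbad
    have := hnear i'
    linarith
  have h2 := ae_all_iff.2 (fun A => ae_all_iff.2 (h1 A))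
  filter_upwards [h2] with x hx A U using hx A U

/-- sizes -/
lemma sizes_ev (a : ℕ → ℝ) (ρ : ℝ) (hρ : 0 < ρ) (ha : ∀ᶠ k : ℕ in atTop, 0 < a k ∧ (k : ℝ) ^ ρ ≤ Real.log (a k))
    (M : ℝ) : ∀ᶠ k : ℕ in atTop, M ≤ Real.log (a k) ∧ 1 ≤ Real.log (a k) ∧ 1 < a k := by
  have h1 : Tendsto (fun k : ℕ => (k : ℝ) ^ ρ) atTop atTop := (tendsto_rpow_atTop hρ).comp tendsto_natCast_atTop_atTop
  filter_upwards [ha, h1.eventually_ge_atTop (max M 1)] with k h2 h3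
  have h4 : max M 1 ≤ Real.log (a k) := h3.trans h2.2
  have h5 : 1 ≤ Real.log (a k) := (le_max_right _ _).trans h4
  exact ⟨(le_max_left _ _).trans h4, h5, (Real.log_pos_iff h2.1.le).1 (by linarith)⟩

/-- comparison of the sizes `a` and `⌈B a⌉₊` -/
lemma size_cmp (B : ℕ) (a : ℝ) (ha : 1 < a) (hl : 1 ≤ Real.log a) (hB : (B : ℝ) + 2 ≤ Real.log a) :
    a ≤ ⌈((B : ℝ) + 1) * a⌉₊ ∧ (⌈((B : ℝ) + 1) * a⌉₊ : ℝ) ≤ (B + 2) * a ∧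
    Real.log a ≤ Real.log (⌈((B : ℝ) + 1) * a⌉₊ : ℝ) ∧
    ∀ U : ℕ, (⌈((B : ℝ) + 1) * a⌉₊ : ℝ) / Real.log (⌈((B : ℝ) + 1) * a⌉₊ : ℝ) ^ (U + 1) ≤ a / Real.log a ^ U := by
  have ha0 : 0 < a := by linarith
  have hB0 : (0 : ℝ) ≤ B := Nat.cast_nonneg _
  have h1 : ((B : ℝ) + 1) * a ≤ ⌈((B : ℝ) + 1) * a⌉₊ := Nat.le_ceil _
  have h2 : (⌈((B : ℝ) + 1) * a⌉₊ : ℝ) ≤ (B + 2) * a := by
    have := Nat.ceil_lt_add_one (a := ((B : ℝ) + 1) * a) (by positivity)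
    nlinarith
  have h3 : a ≤ ⌈((B : ℝ) + 1) * a⌉₊ := by nlinarith
  have h4 : Real.log a ≤ Real.log (⌈((B : ℝ) + 1) * a⌉₊ : ℝ) := Real.log_le_log ha0 h3
  refine ⟨h3, h2, h4, fun U => ?_⟩
  have hl0 : 0 < Real.log a := by linarith
  calc (⌈((B : ℝ) + 1) * a⌉₊ : ℝ) / Real.log (⌈((B : ℝ) + 1) * a⌉₊ : ℝ) ^ (U + 1) ≤ ((B + 2) * a) / Real.log a ^ (U + 1) := by
        apply div_le_div₀ (by positivity) h2 (by positivity)
        exact pow_le_pow_left₀ hl0.le h4 _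
    _ = (a / Real.log a ^ U) * ((B + 2) / Real.log a) := by rw [pow_succ]; field_simp
    _ ≤ (a / Real.log a ^ U) * 1 := by
        apply mul_le_mul_of_nonneg_left _ (by positivity)
        rw [div_le_one hl0]
        exact hB
    _ = _ := mul_one _

end Pool.Agent.Q259.AS
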