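import Pool.Agent.Q259.AS.Frm6
import Pool.Agent.Q259.AS.FnA

set_option autoImplicit false

/-! Prime values of linear forms with typical constants: the almost sure statement. -/

namespace Pool.Agent.Q259.AS

open Finset MeasureTheory Filter
open Pool.Agent.Y820.LF (nuF singF AdmF cntF PosF)

theorem as_forms (s B T : ℕ) (hs : 1 ≤ s) (μ : Fin s → Measure ℝ) [∀ i, IsProbabilityMeasure (μ i)]
    (hμ : ∀ i, SelfSim (μ i) ∨ FourLp (μ i)) (a : ℕ → ℝ) (ρ : ℝ) (hρ : 0 < ρ)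
    (ha : ∀ᶠ k : ℕ in atTop, 0 < a k ∧ (k : ℝ) ^ ρ ≤ Real.log (a k))
    (Y : ℕ → Finset (Fin s → ℝ)) (hY : ∀ᶠ k : ℕ in atTop, (Y k).card ≤ k ^ T ∧ ∀ y ∈ Y k, ∀ i, |y i| ≤ B * a k) :
    ∀ᵐ x ∂(Measure.pi μ), ∀ m A Q : ℕ, ∀ᶠ k : ℕ in atTop, ∀ y ∈ Y k, ∀ H : Fin s → ℤ,
      (∀ i, |(H i : ℝ) - (a k * x i + y i)| ≤ Real.log (a k) ^ A) → ∀ C : Fin s → ℤ, (∀ i, C i ≠ 0 ∧ |C i| ≤ Q) →
      AdmF C H → ∀ (M : ℤ) (N : ℕ), |(M : ℝ)| ≤ Q * a k → (N : ℝ) ≤ Q * a k → a k ≤ Q * N → PosF C (shC C H M) N →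
      HLW (1 / ((m : ℝ) + 1)) M N C H := by
  classical
  have h1 : ∀ m A Q : ℕ, ∀ᵐ x ∂(Measure.pi μ), ∀ᶠ k : ℕ in atTop, ∀ y ∈ Y k,
      ∀ n ∈ BadF s Q (2 * Q + 2) (1 / ((m : ℝ) + 1)) ⌈a k⌉₊,
      ∃ i, Real.log (a k) ^ A < |(n i : ℝ) - (a k * x i + y i)| := by
    intro m A Q
    refine as_of μ (rare_of (eng_forms s Q (2 * Q + 2) hs (by omega) (1 / ((m : ℝ) + 1)) (by positivity)) μ
      (fun i => niceM_of (μ i) (hμ i))) a ρ hρ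
      (ha.mono fun k h => h.2) (ha.mono fun k h => h.1) T A (B + 16 * (Q + 1) * (2 * Q + 3)) Y (hY.mono fun k h => h.1)
      (fun _ y => y) ?_ (fun k _ => ⌈a k⌉₊) ?_
    · filter_upwards [hY, ha] with k h h2 y hy i
      refine (h.2 y hy i).trans (mul_le_mul_of_nonneg_right ?_ h2.1.le)
      push_cast
      have : (0 : ℝ) ≤ 16 * ((Q : ℝ) + 1) * (2 * Q + 3) := by positivity
      linarith
    · filter_upwards [sizes_ev a ρ hρ ha 1] with k h y _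
      have h3 := Nat.le_ceil (a k)
      have ha0 : 0 < a k := by linarith [h.2.2]
      have h4 := Nat.ceil_lt_add_one ha0.le
      have h5 : (0 : ℝ) ≤ B := Nat.cast_nonneg B
      have h6 : (0 : ℝ) ≤ Q := Nat.cast_nonneg Q
      push_cast
      constructor
      · have e1 : (⌈a k⌉₊ : ℝ) ≤ (B + 16 * (Q + 1) * (2 * Q + 3)) * (8 * (Q + 1) * (2 * Q + 2 + 1) * ⌈a k⌉₊) := by
          have g1 : (1 : ℝ) ≤ B + 16 * (Q + 1) * (2 * Q + 3) := by nlinarith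
          have g2 : (1 : ℝ) ≤ 8 * (Q + 1) * (2 * Q + 2 + 1) := by nlinarith
          have f2 : (0 : ℝ) ≤ ⌈a k⌉₊ := Nat.cast_nonneg _
          have g3 : (⌈a k⌉₊ : ℝ) ≤ 8 * (Q + 1) * (2 * Q + 2 + 1) * ⌈a k⌉₊ := le_mul_of_one_le_left f2 g2
          exact g3.trans (le_mul_of_one_le_left (by positivity) g1)
        linarith
      · have e1 : (⌈a k⌉₊ : ℝ) ≤ 2 * a k := by linarith [h.2.2]
        calc 8 * ((Q : ℝ) + 1) * (2 * Q + 2 + 1) * ⌈a k⌉₊ ≤ 8 * (Q + 1) * (2 * Q + 2 + 1) * (2 * a k) :=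
              mul_le_mul_of_nonneg_left e1 (by positivity)
          _ = (16 * (Q + 1) * (2 * Q + 3)) * a k := by ring
          _ ≤ (B + 16 * (Q + 1) * (2 * Q + 3)) * a k := mul_le_mul_of_nonneg_right (by linarith) ha0.le
  have h2 := ae_all_iff.2 (fun m => ae_all_iff.2 (fun A => ae_all_iff.2 (h1 m A)))
  filter_upwards [h2] with x hx m A Q
  filter_upwards [hx m A Q, sizes_ev a ρ hρ ha 1] with k hk hsz y hy H hnear C hC hadm M N hM hN1 hN2 hpos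
  have ha0 : 0 < a k := by linarith [hsz.2.2]
  have h3 := Nat.le_ceil (a k)
  have h4 := Nat.ceil_lt_add_one ha0.le
  have hQ0 : (0 : ℝ) ≤ Q := Nat.cast_nonneg Q
  have hX : Q * a k ≤ ((2 * Q + 2 : ℕ) : ℝ) * ⌈a k⌉₊ := by
    push_cast
    nlinarith
  by_contra hcon
  obtain ⟨i, hi⟩ := hk y hy H (by
    refine ⟨C, hC, hadm, M, N, ?_, ?_, ?_, hpos, hcon⟩
    · have e1 : ((|M| : ℤ) : ℝ) ≤ (((2 * Q + 2 : ℕ) * (⌈a k⌉₊ : ℤ) : ℤ) : ℝ) := by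
        push_cast at hX ⊢
        exact hM.trans hX
      exact_mod_cast e1
    · have e1 : ((N : ℕ) : ℝ) ≤ (((2 * Q + 2) * ⌈a k⌉₊ : ℕ) : ℝ) := by
        push_cast at hX ⊢
        exact hN1.trans hX
      exact_mod_cast e1
    · have e1 : ((⌈a k⌉₊ : ℕ) : ℝ) ≤ (((2 * Q + 2) * N : ℕ) : ℝ) := by
        push_cast
        have : (0 : ℝ) ≤ N := Nat.cast_nonneg _
        have : (1 : ℝ) < a k := hsz.2.2
        nlinarith
      exact_mod_cast e1)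
  exact absurd (hnear i) (not_le.2 hi)

end Pool.Agent.Q259.AS
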