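import Pool.Agent.Q259.AS.TupA
import Pool.Agent.W93.GB1

set_option autoImplicit false

/-! Pairs of primes with a typical difference, in windows. -/

namespace Pool.Agent.Q259.AS

open Finset MeasureTheory Filter
open Pool.Agent.W93.TD (HLs)
open Pool.Agent.H373R2.T7 (tupleCount singZ Admissible nuP)
open Pool.Agent.H560R3.GB (sing primeTuples tupleCount_nat)
open Pool.Agent.W93.GB (sh nuP_sh sing_ge sing_le one_le_sing)

lemma nuP_neg (n p : ℕ) (hp : p.Prime) : nuP (fun _ : Fin 1 => (n : ℤ)) p = nuP (sh n) p := by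
  unfold nuP sh
  have hpos := hp.pos
  apply card_bij' (fun r _ => (p - r) % p) (fun r _ => (p - r) % p)
  · intro r hr
    rw [mem_filter, mem_range] at hr ⊢
    obtain ⟨h1, h2⟩ := hr
    have h3 : (((p - r) % p : ℕ) : ℤ) ≡ -(r : ℤ) [ZMOD p] := by
      have e1 : (((p - r) % p : ℕ) : ℤ) ≡ ((p - r : ℕ) : ℤ) [ZMOD p] := by
        exact_mod_cast (Int.natCast_modEq_iff).2 (Nat.mod_modEq (p - r) p)
      refine e1.trans ?_
      rw [Nat.cast_sub h1.le]
      rw [Int.modEq_iff_dvd]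
      exact ⟨-1, by ring⟩
    refine ⟨Nat.mod_lt _ hpos, ?_⟩
    rcases h2 with h2 | ⟨i, h2⟩
    · left
      have e2 : (p : ℤ) ∣ (((p - r) % p : ℕ) : ℤ) := by
        rw [Int.modEq_iff_dvd] at h3
        have h4 : (p : ℤ) ∣ (r : ℤ) := by exact_mod_cast h2
        have h5 := dvd_sub (dvd_neg.2 h4) h3
        have e3 : -(r : ℤ) - (-(r : ℤ) - (((p - r) % p : ℕ) : ℤ)) = (((p - r) % p : ℕ) : ℤ) := by ring
        rwa [e3] at h5
      exact_mod_cast e2
    · right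
      refine ⟨i, ?_⟩
      rw [Int.modEq_iff_dvd] at h3
      have h5 := dvd_neg.2 (dvd_add h2 h3)
      have e3 : -(((r : ℤ) + (n : ℤ)) + (-(r : ℤ) - (((p - r) % p : ℕ) : ℤ))) = (((p - r) % p : ℕ) : ℤ) + -(n : ℤ) := by ring
      rwa [e3] at h5
  · intro r hr
    rw [mem_filter, mem_range] at hr ⊢
    obtain ⟨h1, h2⟩ := hr
    have h3 : (((p - r) % p : ℕ) : ℤ) ≡ -(r : ℤ) [ZMOD p] := by
      have e1 : (((p - r) % p : ℕ) : ℤ) ≡ ((p - r : ℕ) : ℤ) [ZMOD p] := by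
        exact_mod_cast (Int.natCast_modEq_iff).2 (Nat.mod_modEq (p - r) p)
      refine e1.trans ?_
      rw [Nat.cast_sub h1.le]
      rw [Int.modEq_iff_dvd]
      exact ⟨-1, by ring⟩
    refine ⟨Nat.mod_lt _ hpos, ?_⟩
    rcases h2 with h2 | ⟨i, h2⟩
    · left
      have e2 : (p : ℤ) ∣ (((p - r) % p : ℕ) : ℤ) := by
        rw [Int.modEq_iff_dvd] at h3
        have h4 : (p : ℤ) ∣ (r : ℤ) := by exact_mod_cast h2
        have h5 := dvd_sub (dvd_neg.2 h4) h3
        have e3 : -(r : ℤ) - (-(r : ℤ) - (((p - r) % p : ℕ) : ℤ)) = (((p - r) % p : ℕ) : ℤ) := by ring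
        rwa [e3] at h5
      exact_mod_cast e2
    · right
      refine ⟨i, ?_⟩
      rw [Int.modEq_iff_dvd] at h3
      have h5 := dvd_neg.2 (dvd_add h2 h3)
      have e3 : -(((r : ℤ) + -(n : ℤ)) + (-(r : ℤ) - (((p - r) % p : ℕ) : ℤ))) = (((p - r) % p : ℕ) : ℤ) + (n : ℤ) := by ring
      rwa [e3] at h5
  · intro r hr
    rw [mem_filter, mem_range] at hr
    rcases Nat.eq_zero_or_pos r with h | h
    · subst h
      simp
    · have e1 : (p - r) % p = p - r := Nat.mod_eq_of_lt (by omega)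
      rw [e1, Nat.sub_sub_self hr.1.le, Nat.mod_eq_of_lt hr.1]
  · intro r hr
    rw [mem_filter, mem_range] at hr
    rcases Nat.eq_zero_or_pos r with h | h
    · subst h
      simp
    · have e1 : (p - r) % p = p - r := Nat.mod_eq_of_lt (by omega)
      rw [e1, Nat.sub_sub_self hr.1.le, Nat.mod_eq_of_lt hr.1]

lemma singZ_neg (n z : ℕ) : singZ (fun _ : Fin 1 => (n : ℤ)) z = singZ (sh n) z := by
  unfold singZ
  apply prod_congr rfl
  intro p hp
  rw [nuP_neg n p (mem_filter.1 hp).2]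

lemma tendsto_sing (n : ℕ) (hn : 2 ∣ n) (hn0 : n ≠ 0) :
    Tendsto (fun z => singZ (fun _ : Fin 1 => (n : ℤ)) z) atTop (nhds (sing n)) := by
  have hs : 0 < sing n := by linarith [one_le_sing n]
  have l1 : Tendsto (fun z : ℕ => Real.exp (-((Nat.log 2 n : ℝ) / ((z : ℝ) - 1))) * sing n) atTop (nhds (sing n)) := by
    have e1 : Tendsto (fun z : ℕ => (Nat.log 2 n : ℝ) / ((z : ℝ) - 1)) atTop (nhds 0) := by
      apply Tendsto.div_atTop tendsto_const_nhds
      exact tendsto_atTop_add_const_right _ _ tendsto_natCast_atTop_atTop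
    have e2 : Tendsto (fun z : ℕ => Real.exp (-((Nat.log 2 n : ℝ) / ((z : ℝ) - 1)))) atTop (nhds 1) := by
      have := (Real.continuous_exp.tendsto _).comp e1.neg
      simpa [Function.comp_def] using this
    simpa using e2.mul_const (sing n)
  have l2 : Tendsto (fun z : ℕ => sing n / (1 - 1 / (z : ℝ))) atTop (nhds (sing n)) := by
    have e1 : Tendsto (fun z : ℕ => 1 - 1 / (z : ℝ)) atTop (nhds (1 - 0)) :=
      tendsto_const_nhds.sub tendsto_one_div_atTop_nhds_zero_nat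
    have e2 : Tendsto (fun z : ℕ => sing n / (1 - 1 / (z : ℝ))) atTop (nhds (sing n / (1 - 0))) :=
      Tendsto.div (tendsto_const_nhds (x := sing n)) e1 (by norm_num)
    simpa using e2
  refine tendsto_of_tendsto_of_tendsto_of_le_of_le' l1 l2 ?_ ?_
  · filter_upwards [eventually_ge_atTop 2] with z hz
    rw [singZ_neg]
    have h1 := sing_le n z hn hn0 hz
    rw [Real.exp_neg, inv_mul_le_iff₀ (Real.exp_pos _)]
    exact h1
  · filter_upwards [eventually_ge_atTop 2] with z hz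
    rw [singZ_neg]
    have h1 := sing_ge n z hn hn0 hz
    have hz' : (2 : ℝ) ≤ z := by exact_mod_cast hz
    have h2 : 0 < 1 - 1 / (z : ℝ) := by
      have : 1 / (z : ℝ) ≤ 1 / 2 := one_div_le_one_div_of_le (by norm_num) hz'
      linarith
    rw [le_div_iff₀ h2, mul_comm]
    exact h1

/-- the number of primes `q` with `u < q ≤ v` such that `q + h` is a prime -/
def dif (h u v : ℕ) : ℕ := ((Ioc u v).filter (fun q => q.Prime ∧ (q + h).Prime)).card

lemma tc_one (h N : ℕ) : tupleCount (fun _ : Fin 1 => (h : ℤ)) N =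
    ∑ p ∈ (Icc 1 N).filter (fun p : ℕ => p.Prime ∧ (p + h).Prime), Real.log p * Real.log ((p : ℝ) + h) := by
  have h1 := tupleCount_nat (fun _ : Fin 1 => h) N
  simp only [Fin.prod_univ_one, forall_const] at h1
  exact h1

lemma tc_win (h u v : ℕ) (huv : u ≤ v) : tupleCount (fun _ : Fin 1 => (h : ℤ)) v - tupleCount (fun _ : Fin 1 => (h : ℤ)) u =
    ∑ p ∈ (Ioc u v).filter (fun p : ℕ => p.Prime ∧ (p + h).Prime), Real.log p * Real.log ((p : ℝ) + h) := by
  rw [tc_one, tc_one]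
  have e1 : (Icc 1 v).filter (fun p : ℕ => p.Prime ∧ (p + h).Prime) =
      (Icc 1 u).filter (fun p : ℕ => p.Prime ∧ (p + h).Prime) ∪ (Ioc u v).filter (fun p : ℕ => p.Prime ∧ (p + h).Prime) := by
    ext p
    simp only [mem_union, mem_filter, mem_Icc, mem_Ioc]
    constructor
    · rintro ⟨⟨h1, h2⟩, h3⟩
      rcases le_or_gt p u with h4 | h4
      · exact Or.inl ⟨⟨h1, h4⟩, h3⟩
      · exact Or.inr ⟨⟨h4, h2⟩, h3⟩
    · rintro (⟨⟨h1, h2⟩, h3⟩ | ⟨⟨h1, h2⟩, h3⟩)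
      · exact ⟨⟨h1, h2.trans huv⟩, h3⟩
      · exact ⟨⟨by omega, h2⟩, h3⟩
  rw [e1, sum_union, add_sub_cancel_left]
  rw [disjoint_left]
  intro p h1 h2
  rw [mem_filter, mem_Icc] at h1
  rw [mem_filter, mem_Ioc] at h2
  omega

/-- the deterministic step -/
lemma dif_of (ε δ L lo hi S : ℝ) (hε : ε ≤ 1) (hδ : 8 * δ = ε) (hδ0 : 0 < δ) (hL : 0 < L) (h u v : ℕ) (huv : u < v)
    (hu : 1 ≤ u) (hlo : lo ≤ Real.log u) (hhi : Real.log ((v : ℝ) + h) ≤ hi) (hlo1 : (1 - δ) * L ≤ lo)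
    (hhi1 : hi ≤ (1 + δ) * L) (hS : 0 < S)
    (hT : |(tupleCount (fun _ : Fin 1 => (h : ℤ)) v - tupleCount (fun _ : Fin 1 => (h : ℤ)) u) - S * ((v : ℝ) - u)| ≤
      δ * (S * ((v : ℝ) - u))) :
    |(dif h u v : ℝ) - S * ((v : ℝ) - u) / L ^ 2| ≤ ε * (S * ((v : ℝ) - u) / L ^ 2) := by
  have huv' : (0 : ℝ) < (v : ℝ) - u := by
    have : (u : ℝ) < v := by exact_mod_cast huv
    linarith
  have hu0 : (0 : ℝ) < u := by exact_mod_cast hu
  have hh0 : (0 : ℝ) ≤ h := Nat.cast_nonneg _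
  rw [tc_win h u v huv.le] at hT
  obtain ⟨W, hW⟩ : ∃ W, W = ∑ p ∈ (Ioc u v).filter (fun p : ℕ => p.Prime ∧ (p + h).Prime),
    Real.log p * Real.log ((p : ℝ) + h) := ⟨_, rfl⟩
  rw [← hW] at hT
  have hlo0 : 0 < lo := by
    have : 0 < (1 - δ) * L := by
      apply mul_pos _ hL
      linarith
    linarith
  have hW1 : (dif h u v : ℝ) * lo ^ 2 ≤ W := by
    rw [hW]
    unfold dif
    rw [← nsmul_eq_mul]
    apply card_nsmul_le_sum
    intro p hp
    rw [mem_filter, mem_Ioc] at hp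
    have hpu : (u : ℝ) ≤ p := by exact_mod_cast hp.1.1.le
    have e1 : lo ≤ Real.log p := hlo.trans (Real.log_le_log hu0 hpu)
    have e2 : lo ≤ Real.log ((p : ℝ) + h) := e1.trans (Real.log_le_log (by linarith) (by linarith))
    rw [pow_two]
    exact mul_le_mul e1 e2 hlo0.le (by linarith)
  have hW2 : W ≤ (dif h u v : ℝ) * hi ^ 2 := by
    rw [hW]
    unfold dif
    rw [← nsmul_eq_mul]
    apply sum_le_card_nsmul
    intro p hp
    rw [mem_filter, mem_Ioc] at hp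
    have hpu : (u : ℝ) ≤ p := by exact_mod_cast hp.1.1.le
    have hpv : (p : ℝ) ≤ v := by exact_mod_cast hp.1.2
    have e1 : Real.log ((p : ℝ) + h) ≤ hi := (Real.log_le_log (by linarith) (by linarith)).trans hhi
    have e2 : Real.log (p : ℝ) ≤ hi := (Real.log_le_log (by linarith) (by linarith)).trans e1
    have e3 : lo ≤ Real.log p := hlo.trans (Real.log_le_log hu0 hpu)
    have e4 : lo ≤ Real.log ((p : ℝ) + h) := e3.trans (Real.log_le_log (by linarith) (by linarith))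
    rw [pow_two]
    exact mul_le_mul e2 e1 (by linarith) (by linarith)
  obtain ⟨D, hD⟩ : ∃ D : ℝ, D = (dif h u v : ℝ) := ⟨_, rfl⟩
  obtain ⟨M, hM⟩ : ∃ M : ℝ, M = S * ((v : ℝ) - u) := ⟨_, rfl⟩
  rw [← hD] at hW1 hW2 ⊢
  rw [← hM] at hT ⊢
  have hM0 : 0 < M := by rw [hM]; positivity
  have hD0 : 0 ≤ D := by rw [hD]; positivity
  have hhi0 : 0 ≤ hi := by
    have e1 : Real.log (u : ℝ) ≤ Real.log ((v : ℝ) + h) := Real.log_le_log hu0 (by linarith)
    linarith
  have g1 : D * ((1 - δ) * L) ^ 2 ≤ (1 + δ) * M := by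
    have e1 : D * ((1 - δ) * L) ^ 2 ≤ D * lo ^ 2 := by
      apply mul_le_mul_of_nonneg_left _ hD0
      apply pow_le_pow_left₀ _ hlo1
      apply mul_nonneg _ hL.le
      linarith
    have e2 := (abs_le.1 hT).2
    linarith
  have g2 : (1 - δ) * M ≤ D * ((1 + δ) * L) ^ 2 := by
    have e1 : D * hi ^ 2 ≤ D * ((1 + δ) * L) ^ 2 := by
      apply mul_le_mul_of_nonneg_left _ hD0
      exact pow_le_pow_left₀ hhi0 hhi1 2
    have e2 := (abs_le.1 hT).1
    linarith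
  have hL2 : 0 < L ^ 2 := by positivity
  have hδ8 : δ ≤ 1 / 8 := by linarith
  rw [abs_le]
  have k1 : D * L ^ 2 ≤ (1 + ε) * M := by
    have e1 : D * L ^ 2 * (1 - δ) ^ 2 ≤ (1 + δ) * M := by
      calc D * L ^ 2 * (1 - δ) ^ 2 = D * ((1 - δ) * L) ^ 2 := by ring
        _ ≤ _ := g1
    have e2 : (1 + δ) * M ≤ (1 + ε) * M * (1 - δ) ^ 2 := by
      have f1 : 1 + δ ≤ (1 + ε) * (1 - δ) ^ 2 := by
        rw [← hδ]
        nlinarith [mul_nonneg hδ0.le (sub_nonneg.2 hδ8), mul_nonneg (mul_nonneg hδ0.le hδ0.le) hδ0.le]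
      nlinarith
    have e3 : 0 < (1 - δ) ^ 2 := by
      apply pow_pos
      linarith
    exact le_of_mul_le_mul_right (e1.trans e2) e3
  have k2 : (1 - ε) * M ≤ D * L ^ 2 := by
    have e1 : (1 - δ) * M ≤ D * L ^ 2 * (1 + δ) ^ 2 := by
      calc (1 - δ) * M ≤ D * ((1 + δ) * L) ^ 2 := g2
        _ = _ := by ring
    have e2 : (1 - ε) * M * (1 + δ) ^ 2 ≤ (1 - δ) * M := by
      have f1 : (1 - ε) * (1 + δ) ^ 2 ≤ 1 - δ := by
        rw [← hδ]
        nlinarith [mul_nonneg hδ0.le hδ0.le, mul_nonneg (mul_nonneg hδ0.le hδ0.le) hδ0.le]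
      nlinarith
    have e3 : 0 < (1 + δ) ^ 2 := by positivity
    exact le_of_mul_le_mul_right (e2.trans e1) e3
  constructor
  · rw [neg_le_sub_iff_le_add, ← sub_le_iff_le_add]
    have : M / L ^ 2 - ε * (M / L ^ 2) = (1 - ε) * M / L ^ 2 := by ring
    rw [this, div_le_iff₀ hL2]
    exact k2
  · rw [sub_le_iff_le_add]
    have : ε * (M / L ^ 2) + M / L ^ 2 = (1 + ε) * M / L ^ 2 := by ring
    rw [this, le_div_iff₀ hL2]
    exact k1

/-- **Pairs of primes with a typical difference, in windows.** -/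
theorem as_dif (μ : Measure ℝ) [IsProbabilityMeasure μ] (hμ : SelfSim μ ∨ FourLp μ) (a : ℕ → ℝ) (ρ : ℝ) (hρ : 0 < ρ)
    (ha : ∀ᶠ k : ℕ in atTop, 0 < a k ∧ (k : ℝ) ^ ρ ≤ Real.log (a k)) (B T : ℕ) (Y : ℕ → Finset ℝ)
    (hY : ∀ᶠ k : ℕ in atTop, (Y k).card ≤ k ^ T ∧ ∀ y ∈ Y k, |y| ≤ B * a k) :
    ∀ᵐ x ∂μ, ∀ ε : ℝ, 0 < ε → ∀ A A' B₁ : ℕ, ∀ᶠ k : ℕ in atTop, ∀ y ∈ Y k, ∀ h : ℕ, 0 < h → Even h →
      |(h : ℝ) - (a k * x + y)| ≤ Real.log (a k) ^ A' → ∀ u v : ℕ, a k ≤ B₁ * u → (v : ℝ) ≤ B₁ * a k →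
      a k / Real.log (a k) ^ A ≤ (v : ℝ) - u →
      |(dif h u v : ℝ) - sing h * ((v : ℝ) - u) / Real.log (a k) ^ 2| ≤
        ε * (sing h * ((v : ℝ) - u) / Real.log (a k) ^ 2) := by
  classical
  have h1 := as_tuples 1 B T le_rfl (fun _ => μ) (fun _ => hμ) a ρ hρ ha (fun k => (Y k).image (fun y => (fun _ => y : Fin 1 → ℝ)))
    (by
      filter_upwards [hY] with k h
      refine ⟨card_image_le.trans h.1, fun y hy i => ?_⟩
      obtain ⟨y', hy', rfl⟩ := mem_image.1 hy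
      exact h.2 y' hy')
  have h2 := (measurePreserving_funUnique μ (Fin 1)).symm
  have h3 := h2.quasiMeasurePreserving.ae h1
  filter_upwards [h3] with x hx ε hε A A' B₁
  obtain ⟨δ, hδ⟩ : ∃ δ, δ = min ε 1 / 8 := ⟨_, rfl⟩
  have hδ0 : 0 < δ := by rw [hδ]; positivity
  have hmin : 8 * δ = min ε 1 := by rw [hδ]; ring
  obtain ⟨n0, hn0⟩ := exists_nat_ge |x|
  have hB₁0 : (0 : ℝ) ≤ B₁ := Nat.cast_nonneg _
  have hB0 : (0 : ℝ) ≤ B := Nat.cast_nonneg _
  have hn00 : (0 : ℝ) ≤ n0 := Nat.cast_nonneg _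
  obtain ⟨C, hC⟩ : ∃ C : ℝ, C = (B₁ : ℝ) + n0 + B + 2 := ⟨_, rfl⟩
  have hC2 : 2 ≤ C := by rw [hC]; linarith
  have hlC : 0 < Real.log C := Real.log_pos (by linarith)
  have hinf : Tendsto a atTop atTop := by
    have e1 : Tendsto (fun k : ℕ => (k : ℝ) ^ ρ) atTop atTop := (tendsto_rpow_atTop hρ).comp tendsto_natCast_atTop_atTop
    refine tendsto_atTop_mono' _ ?_ e1
    filter_upwards [ha] with k hk
    exact hk.2.trans ((Real.log_le_sub_one_of_pos hk.1).trans (by linarith))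
  have hpow : ∀ᶠ t : ℝ in atTop, Real.log t ^ A' ≤ t := by
    have e1 := (Real.isLittleO_pow_log_id_atTop (n := A')).bound (show (0 : ℝ) < 1 by norm_num)
    filter_upwards [e1, eventually_ge_atTop 1] with t h4 h5
    rw [one_mul, id, Real.norm_eq_abs, Real.norm_eq_abs, abs_of_nonneg (by positivity : (0:ℝ) ≤ t)] at h4
    exact (le_abs_self _).trans h4
  filter_upwards [hx 0 A' (A + 1) B₁, ha, sizes_ev a ρ hρ ha (2 * Real.log C / δ + (2 * B₁ * 2 ^ (A + 1)) / δ +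
    2 * Real.log C), hinf.eventually hpow, hY] with k h4 h5 h6 h7 h8 y hy h hh he hnear u v hu hv huv
  have hnear0 := hnear
  obtain ⟨L, hL⟩ : ∃ L, L = Real.log (a k) := ⟨_, rfl⟩
  rw [← hL] at h6 h7 huv hnear ⊢
  have ha0 := h5.1
  have hL1 : 1 ≤ L := h6.2.1
  have hL0 : 0 < L := by linarith
  have c1 : Real.log C ≤ δ * L := by
    have e1 : 2 * Real.log C / δ ≤ L := by
      have f1 : 0 ≤ (2 * (B₁ : ℝ) * 2 ^ (A + 1)) / δ := by positivity
      linarith [h6.1]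
    rw [div_le_iff₀ hδ0] at e1
    linarith
  have c2 : 2 * (B₁ : ℝ) * 2 ^ (A + 1) ≤ δ * L := by
    have e1 : (2 * (B₁ : ℝ) * 2 ^ (A + 1)) / δ ≤ L := by
      have f1 : 0 ≤ 2 * Real.log C / δ := by positivity
      linarith [h6.1]
    rw [div_le_iff₀ hδ0] at e1
    linarith
  have c3 : 2 * Real.log C ≤ L := by
    have f1 : 0 ≤ 2 * Real.log C / δ := by positivity
    have f2 : 0 ≤ (2 * (B₁ : ℝ) * 2 ^ (A + 1)) / δ := by positivity
    linarith [h6.1]
  have huv1 : (u : ℝ) < v := by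
    have : 0 < a k / L ^ A := by positivity
    linarith
  have huvn : u < v := by exact_mod_cast huv1
  have hB₁1 : (1 : ℝ) ≤ B₁ := by
    have e1 : B₁ ≠ 0 := by
      rintro rfl
      rw [Nat.cast_zero, zero_mul] at hu
      linarith
    exact_mod_cast Nat.one_le_iff_ne_zero.2 e1
  have hu1 : 1 ≤ u := by
    by_contra hcon
    have e1 : u = 0 := by omega
    rw [e1, Nat.cast_zero, mul_zero] at hu
    linarith
  have hu0 : (0 : ℝ) < u := by exact_mod_cast hu1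
  have hau : a k ≤ C * u := by
    refine hu.trans (mul_le_mul_of_nonneg_right ?_ hu0.le)
    rw [hC]
    linarith
  have hlu : L - Real.log C ≤ Real.log u := by
    have e1 := Real.log_le_log ha0 hau
    rw [Real.log_mul (by linarith) hu0.ne', ← hL] at e1
    linarith
  have hvh : (v : ℝ) + h ≤ C * a k := by
    have e1 : (h : ℝ) ≤ (n0 + B + 1) * a k := by
      have e2 := (abs_le.1 hnear).2
      have e3 : a k * x ≤ n0 * a k := by
        rw [mul_comm]
        exact mul_le_mul_of_nonneg_right ((le_abs_self x).trans hn0) ha0.le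
      have e4 : y ≤ B * a k := (le_abs_self y).trans (h8.2 y hy)
      nlinarith
    rw [hC]
    nlinarith
  have hh0 : (0 : ℝ) ≤ h := Nat.cast_nonneg _
  have hlv : Real.log ((v : ℝ) + h) ≤ L + Real.log C := by
    have e1 := Real.log_le_log (by linarith) hvh
    rw [Real.log_mul (by linarith) ha0.ne', ← hL] at e1
    linarith
  have hHv := h4 (fun _ => y) (mem_image_of_mem _ hy) (fun _ => h) (fun _ => hnear0) v
    (hu.trans (mul_le_mul_of_nonneg_left huv1.le hB₁0)) hv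
  have hHu := h4 (fun _ => y) (mem_image_of_mem _ hy) (fun _ => h) (fun _ => hnear0) u hu (huv1.le.trans hv)
  obtain ⟨S, q1, q2, -⟩ := hHv
  obtain ⟨S', r1, r2, -⟩ := hHu
  have hS : S = sing h := tendsto_nhds_unique q1 (tendsto_sing h he.two_dvd hh.ne')
  have hS' : S' = sing h := tendsto_nhds_unique r1 (tendsto_sing h he.two_dvd hh.ne')
  subst hS hS'
  have hs1 := one_le_sing h
  have herr : ∀ w : ℕ, (u : ℝ) ≤ w → (w : ℝ) ≤ B₁ * a k → (w : ℝ) / Real.log w ^ (A + 1) ≤ B₁ * 2 ^ (A + 1) * (a k / L ^ (A + 1)) := by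
    intro w hw1 hw2
    have e1 : L / 2 ≤ Real.log w := by
      have := Real.log_le_log hu0 hw1
      linarith
    calc (w : ℝ) / Real.log w ^ (A + 1) ≤ (B₁ * a k) / (L / 2) ^ (A + 1) :=
          div_le_div₀ (by positivity) hw2 (by positivity) (pow_le_pow_left₀ (by positivity) e1 _)
      _ = _ := by rw [div_pow]; field_simp
  have hT : |(tupleCount (fun _ : Fin 1 => (h : ℤ)) v - tupleCount (fun _ : Fin 1 => (h : ℤ)) u) - sing h * ((v : ℝ) - u)| ≤
      δ * (sing h * ((v : ℝ) - u)) := by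
    have e1 := herr v huv1.le hv
    have e2 := herr u le_rfl (huv1.le.trans hv)
    have e3 : |(tupleCount (fun _ : Fin 1 => (h : ℤ)) v - tupleCount (fun _ : Fin 1 => (h : ℤ)) u) - sing h * ((v : ℝ) - u)| ≤
        2 * (B₁ * 2 ^ (A + 1) * (a k / L ^ (A + 1))) := by
      have f1 := q2.trans e1
      have f2 := r2.trans e2
      rw [abs_le] at f1 f2 ⊢
      constructor <;> linarith [f1.1, f1.2, f2.1, f2.2]
    refine e3.trans ?_
    have e4 : 2 * (B₁ * 2 ^ (A + 1) * (a k / L ^ (A + 1))) ≤ δ * (a k / L ^ A) := by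
      have f1 : 2 * (B₁ * 2 ^ (A + 1) * (a k / L ^ (A + 1))) = (2 * B₁ * 2 ^ (A + 1)) * ((a k / L ^ A) / L) := by
        rw [pow_succ L A]; field_simp
      rw [f1]
      calc (2 * (B₁ : ℝ) * 2 ^ (A + 1)) * ((a k / L ^ A) / L) ≤ (δ * L) * ((a k / L ^ A) / L) :=
            mul_le_mul_of_nonneg_right c2 (by positivity)
        _ = _ := by field_simp
    refine e4.trans (mul_le_mul_of_nonneg_left ?_ hδ0.le)
    nlinarith
  have hfin := dif_of (min ε 1) δ L (L - Real.log C) (L + Real.log C) (sing h) (min_le_right _ _) hmin hδ0 hL0 h u v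
    huvn hu1 hlu hlv (by linarith) (by linarith) (by linarith) hT
  refine hfin.trans (mul_le_mul_of_nonneg_right (min_le_left _ _) ?_)
  have : 0 ≤ (v : ℝ) - u := by linarith
  positivity

end Pool.Agent.Q259.AS
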