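import Pool.Agent.Q259.AS.Net
import Pool.Agent.Q259.AS.One

set_option autoImplicit false

/-! Primes `q` with `a + q d` prime, `a` typical. -/

namespace Pool.Agent.Q259.AS

open Finset
open Pool.Agent.H373R2.T7
open Pool.Agent.Y885 (TLaw tl_point)
open Pool.Agent.W93.TD (sizes)
open Pool.Agent.Y820.LF (nuF singF AdmF cntF PosF)

/-- the slopes of the forms `n` and `d n + a` -/
def dC (d : ℤ) : Fin 2 → ℤ := Fin.cons 1 (fun _ => d)

/-- the constants of the forms `n` and `d n + a` -/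
def dH (a : ℤ) : Fin 2 → ℤ := Fin.cons 0 (fun _ => a)

/-- the deterministic part -/
lemma detD (Q0 : ℕ) : ∃ c : ℝ, 0 < c ∧ ∀ B E1 : ℕ, 5 ≤ E1 → ∀ ε : ℝ, 0 < ε → ∃ c0 : ℝ, 0 < c0 ∧
    ∃ n0 : ℕ, ∀ N : ℕ, n0 ≤ N → ∀ z : ℕ,
    Real.log N ^ E1 ≤ z → (z : ℝ) ≤ Real.log N ^ (E1 + 1) → ∀ d a : ℤ, d ≠ 0 → |d| ≤ Q0 → a ≠ 0 →
    |a| ≤ (B : ℤ) * N → PosF (dC d) (dH a) N → AdmF (dC d) (dH a) →
    |∑ n ∈ Icc 1 N, ArithmeticFunction.vonMangoldt n * (lamI (d * (n : ℤ) + a) - lamzI z (d * (n : ℤ) + a))| ≤ c0 * N →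
    HLC c ε N (dC d) (dH a) := by
  obtain ⟨c, hc, h1⟩ := Pool.Agent.Y820.LF.t_lim 2 (Q0 + 1) (by norm_num)
  refine ⟨c, hc, fun B E1 hE1 ε hε => ?_⟩
  obtain ⟨d0, hd0, n1, h2⟩ := Pool.Agent.Y820.LF.t_tr 2 (Q0 + 1) B (by norm_num) c ε hc hε
  obtain ⟨δ, hδ⟩ : ∃ δ, δ = d0 / 3 := ⟨_, rfl⟩
  have hδ0 : 0 < δ := by rw [hδ]; positivity
  obtain ⟨n2, h3⟩ := h1 B δ hδ0
  obtain ⟨n3, h4⟩ := Pool.Agent.Y820.LF.t_main1 1 (E1 + 1) 1 le_rfl
  obtain ⟨n4, h5⟩ := exists_nat_ge (Real.exp (1 + 1 / (δ * c)))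
  refine ⟨δ * c, by positivity, n1 + n2 + n3 + n4 + 2, fun N hN z hz1 hz2 d a hd hdQ ha haB hP hA hdiff => ?_⟩
  have hN0 : (0 : ℝ) < N := by exact_mod_cast (by omega : 0 < N)
  have hn4 : (n4 : ℝ) ≤ N := by exact_mod_cast (by omega : n4 ≤ N)
  have hL : 1 + 1 / (δ * c) ≤ Real.log N := by
    rw [Real.le_log_iff_exp_le hN0]
    exact h5.trans hn4
  have hdc : 0 < δ * c := by positivity
  have h1dc : 0 < 1 / (δ * c) := by positivity
  have hL1 : 1 ≤ Real.log N := by linarith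
  have hL0 : 0 < Real.log N := by linarith
  have hz0 : 1 ≤ z := by
    have : (1 : ℝ) ≤ z := (one_le_pow₀ hL1).trans hz1
    exact_mod_cast this
  have hC : ∀ i, dC d i ≠ 0 ∧ |dC d i| ≤ ((Q0 + 1 : ℕ) : ℤ) := by
    intro i
    fin_cases i
    · show (1 : ℤ) ≠ 0 ∧ |(1 : ℤ)| ≤ _
      refine ⟨by norm_num, ?_⟩
      rw [abs_one]
      push_cast
      linarith [Int.natCast_nonneg Q0]
    · show d ≠ 0 ∧ |d| ≤ _
      exact ⟨hd, by push_cast; linarith⟩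
  have hH : ∀ i, |dH a i| ≤ (B : ℤ) * N := by
    intro i
    fin_cases i
    · show |(0 : ℤ)| ≤ _
      rw [abs_zero]
      positivity
    · exact haB
  have hnd : ∀ i j, i ≠ j → dC d i * dH a j ≠ dC d j * dH a i := by
    intro i j hij
    fin_cases i <;> fin_cases j
    · exact absurd rfl hij
    · show (1 : ℤ) * a ≠ d * 0
      rw [one_mul, mul_zero]
      exact ha
    · show d * (0 : ℤ) ≠ 1 * a
      rw [one_mul, mul_zero]
      exact ha.symm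
    · exact absurd rfl hij
  obtain ⟨S, hS1, hS2, hS3⟩ := h3 N (by omega) (dC d) (dH a) hC hH hnd hA
  have hz3 : Real.log N ^ 2 ≤ z := (pow_le_pow_right₀ hL1 (by omega)).trans hz1
  have e1 := hS3 z hz3
  have hP1 : PosF (fun _ : Fin 1 => d) (fun _ : Fin 1 => a) N := fun _ => hP 1
  have e2 := h4 N (by omega) z hz0 hz2 (fun _ : Fin 1 => d) (fun _ : Fin 1 => a) hP1 hA
  rw [pow_one] at e2
  simp only [Fin.prod_univ_one] at e2
  have hS0 : 0 < S := by linarith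
  refine ⟨S, hS1, hS2, h2 N (by omega) (dC d) (dH a) hC hH hP S hS1 ?_⟩
  have hprod : ∑ n ∈ Icc 1 N, ∏ i, lamI (dC d i * (n : ℤ) + dH a i) =
      ∑ n ∈ Icc 1 N, ArithmeticFunction.vonMangoldt n * lamI (d * (n : ℤ) + a) := by
    apply sum_congr rfl
    intro n hn
    rw [mem_Icc] at hn
    rw [Fin.prod_univ_two]
    have f1 : dC d 0 * (n : ℤ) + dH a 0 = (n : ℤ) := by
      show 1 * (n : ℤ) + 0 = n
      ring
    have f2 : dC d 1 * (n : ℤ) + dH a 1 = d * (n : ℤ) + a := rfl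
    rw [f1, f2]
    unfold lamI
    rw [if_pos (by exact_mod_cast hn.1), Int.toNat_natCast]
  rw [hprod]
  have hsplit : ∑ n ∈ Icc 1 N, ArithmeticFunction.vonMangoldt n * (lamI (d * (n : ℤ) + a) - lamzI z (d * (n : ℤ) + a)) =
      ∑ n ∈ Icc 1 N, ArithmeticFunction.vonMangoldt n * lamI (d * (n : ℤ) + a) -
      ∑ n ∈ Icc 1 N, ArithmeticFunction.vonMangoldt n * lamzI z (d * (n : ℤ) + a) := by
    rw [← sum_sub_distrib]
    apply sum_congr rfl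
    intro n _
    ring
  rw [hsplit] at hdiff
  have hsing : singF (Fin.cons 1 (fun _ : Fin 1 => d) : Fin 2 → ℤ) (Fin.cons 0 (fun _ : Fin 1 => a) : Fin 2 → ℤ) z =
      singF (dC d) (dH a) z := rfl
  rw [hsing] at e2
  have e3 : (N : ℝ) / Real.log N ≤ δ * c * N := by
    rw [div_le_iff₀ hL0]
    have f1 : 1 ≤ δ * c * Real.log N := by
      have := mul_le_mul_of_nonneg_left hL hdc.le
      rw [mul_add, mul_one_div_cancel hdc.ne'] at this
      linarith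
    nlinarith
  have e4 : δ * c * N ≤ δ * (S * N) := by
    rw [mul_assoc]
    apply mul_le_mul_of_nonneg_left _ hδ0.le
    exact mul_le_mul_of_nonneg_right hS1 hN0.le
  have e5 : |singF (dC d) (dH a) z * N - S * N| ≤ δ * (S * N) := by
    rw [← sub_mul, abs_mul, abs_of_pos hN0, ← mul_assoc]
    exact mul_le_mul_of_nonneg_right e1 hN0.le
  have e6 : 3 * (δ * (S * N)) = d0 * (S * N) := by rw [hδ]; ring
  rw [abs_le] at hdiff e2 e5 ⊢
  constructor <;> linarith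

/-- the formula fails with a small probability -/
theorem tl_dil (Q0 : ℕ) : ∃ c₁ : ℝ, 0 < c₁ ∧ ∀ b E c B U : ℕ, 2 ≤ b → 1 ≤ E → ∀ ε : ℝ, 0 < ε →
    ∃ K₀ : ℕ, ∀ K : ℕ, K₀ ≤ K →
    ∀ (α : Type) (_ : DecidableEq α) (Ω : Finset α) (p : α → ℝ) (Y : α → ℤ),
    TLaw b E c (2 * (U + 3) + 6) K Ω p Y →
    ∀ (d : ℤ) (N : ℕ), b ^ K ≤ B * N → N ≤ b ^ K → d ≠ 0 → |d| ≤ Q0 →
    (∀ v ∈ Ω, |Y v| + |d| * (N + 1) < (b : ℤ) ^ K) → |d| * (N + 1) < (b : ℤ) ^ K →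
    ∀ Ev : α → Prop, ∀ _hdec : DecidablePred Ev,
    (∀ ω ∈ Ω, Ev ω → PosF (dC d) (dH (Y ω)) N ∧ AdmF (dC d) (dH (Y ω)) ∧ ¬ HLC c₁ ε N (dC d) (dH (Y ω))) →
    ∑ ω ∈ Ω, (if Ev ω then p ω else 0) ≤ 1 / (K : ℝ) ^ U := by
  classical
  obtain ⟨c₁, hc₁, hdet⟩ := detD Q0
  refine ⟨c₁, hc₁, fun b E c B U hb hE ε hε => ?_⟩
  have hbr : (2 : ℝ) ≤ b := by exact_mod_cast hb
  obtain ⟨B1, hB1⟩ := tl_difC b E c hb hE (U + 3)
  obtain ⟨E1, hE1⟩ : ∃ E1, E1 = B1 + 6 := ⟨_, rfl⟩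
  obtain ⟨k1, h1⟩ := hB1 (E1 + 1)
  obtain ⟨c0, hc0, n2, h2⟩ := hdet B E1 (by omega) ε hε
  obtain ⟨k3, h3⟩ := sizes b B 0 hb ((2 : ℝ) ^ B1 + 2)
  obtain ⟨k4, hk4⟩ := exists_nat_ge (1 + (B * Real.log b) / c0)
  obtain ⟨k5, h5⟩ := tl_point b hb E c (U + 1) hE
  refine ⟨k1 + k3 + k4 + k5 + B * n2 + 1, fun K hK α hα Ω p Y hlaw d N hN1 hN2 hd hdQ hY hdN Ev _ hEv => ?_⟩
  have hbn : 0 < b := by omega
  obtain ⟨hN0, a1, a2, a3, a4, a5⟩ := h3 K (by omega) N hN1 (by rw [add_zero]; exact hN2)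
  rw [add_zero] at a2 a3
  obtain ⟨L, hL⟩ : ∃ L, L = Real.log (N : ℝ) := ⟨_, rfl⟩
  obtain ⟨LX, hLX⟩ : ∃ LX, LX = Real.log ((b ^ K : ℕ) : ℝ) := ⟨_, rfl⟩
  rw [← hL] at a1 a2 a3 a5
  rw [← hLX] at a2 a3
  have hp2 : (0 : ℝ) < 2 ^ B1 := by positivity
  have hL1 : 1 ≤ L := by linarith
  have hL0 : 0 < L := by linarith
  have hNr : (0 : ℝ) < N := by exact_mod_cast hN0
  have hkb : K < b ^ K := Nat.lt_pow_self (by omega)
  have hNn2 : n2 ≤ N := by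
    by_contra hcon
    push Not at hcon
    have : B * N ≤ B * n2 := Nat.mul_le_mul_left _ hcon.le
    omega
  -- the level
  obtain ⟨z, hz⟩ : ∃ z, z = ⌈L ^ E1⌉₊ := ⟨_, rfl⟩
  have hz1 : L ^ E1 ≤ z := by rw [hz]; exact Nat.le_ceil _
  have hz2 : (z : ℝ) ≤ L ^ (E1 + 1) := by
    have q1 : (z : ℝ) < L ^ E1 + 1 := by rw [hz]; exact Nat.ceil_lt_add_one (by positivity)
    have q2 : 1 ≤ L ^ E1 := one_le_pow₀ hL1
    have q3 : 2 ≤ L := by linarith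
    rw [pow_succ]
    nlinarith
  have hzX1 : LX ^ B1 ≤ z := by
    refine le_trans ?_ hz1
    calc LX ^ B1 ≤ (2 * L) ^ B1 := pow_le_pow_left₀ (by linarith) a2 _
      _ = 2 ^ B1 * L ^ B1 := mul_pow _ _ _
      _ ≤ L * L ^ B1 := mul_le_mul_of_nonneg_right (by linarith) (by positivity)
      _ = L ^ (B1 + 1) := by ring
      _ ≤ L ^ E1 := pow_le_pow_right₀ hL1 (by omega)
  have hzX2 : (z : ℝ) ≤ LX ^ (E1 + 1) := hz2.trans (pow_le_pow_left₀ hL0.le a3 _)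
  have hLX0 : 0 < LX := by linarith
  have hD := h1 K (by omega) z (by rw [← hLX]; exact hzX1) (by rw [← hLX]; exact hzX2) α Ω p Y
    hlaw d N hd hY hdN LX hLX0 (fun n => ArithmeticFunction.vonMangoldt n) (by
      intro n hn
      rw [mem_Icc] at hn
      rw [abs_of_nonneg ArithmeticFunction.vonMangoldt_nonneg]
      have q1 : Real.log (n : ℝ) ≤ L := by
        rw [hL]
        apply Real.log_le_log (by exact_mod_cast hn.1)
        exact_mod_cast hn.2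
      exact ArithmeticFunction.vonMangoldt_le_log.trans (q1.trans a3))
  have hKr1 : (1 : ℝ) ≤ K := by exact_mod_cast (by omega : 1 ≤ K)
  have hKr0 : (0 : ℝ) < K := by linarith
  obtain ⟨DD, hDD⟩ : ∃ DD : α → ℝ, DD = fun ω => |∑ n ∈ Icc 1 N, ArithmeticFunction.vonMangoldt n *
        (lamI (d * (n : ℤ) + Y ω) - lamzI z (d * (n : ℤ) + Y ω))| := ⟨_, rfl⟩
  have hDDr : ∀ ω, |∑ n ∈ Icc 1 N, ArithmeticFunction.vonMangoldt n *
        (lamI (d * (n : ℤ) + Y ω) - lamzI z (d * (n : ℤ) + Y ω))| = DD ω :=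
    fun ω => by rw [hDD]
  simp only [hDDr] at hD
  have hlaw0 := h5 K (by omega) α Ω p Y (hlaw.mono (by omega) (by omega)) 0
  obtain ⟨C', hC'⟩ : ∃ C' : ℝ, C' = 1 / (c0 * N) := ⟨_, rfl⟩
  have hC0 : 0 ≤ C' := by rw [hC']; positivity
  have hpt : ∀ ω ∈ Ω, (if Ev ω then p ω else 0) ≤ p ω * (if Y ω = 0 then (1 : ℝ) else 0) + C' * (p ω * DD ω) := by
    intro ω hω
    have hP0' := hlaw.nonneg ω hω
    have hDD0 : 0 ≤ DD ω := by rw [← hDDr]; exact abs_nonneg _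
    have t3 : 0 ≤ C' * (p ω * DD ω) := by positivity
    have t2 : 0 ≤ p ω * (if Y ω = 0 then (1 : ℝ) else 0) := mul_nonneg hP0' (by split_ifs <;> norm_num)
    by_cases hEω : Ev ω
    swap
    · rw [if_neg hEω]
      linarith
    rw [if_pos hEω]
    obtain ⟨hpos, hadm, hnot⟩ := hEv ω hω hEω
    by_cases q3 : Y ω = 0
    · rw [if_pos q3, mul_one]
      linarith
    have hbe : ((b ^ K : ℕ) : ℤ) = (b : ℤ) ^ K := by push_cast; ring
    have q5 : c0 * N < DD ω := by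
      by_contra hcon
      push Not at hcon
      apply hnot
      apply h2 N hNn2 z (by rw [← hL]; exact hz1) (by rw [← hL]; exact hz2) d (Y ω) hd hdQ q3 ?_ hpos hadm ?_
      · have r1 := hY ω hω
        have r2 : (0 : ℤ) ≤ |d| * (N + 1) := by positivity
        have r3 : (b : ℤ) ^ K ≤ (B : ℤ) * N := by rw [← hbe]; exact_mod_cast hN1
        linarith
      · rw [hDDr]
        exact hcon
    have q6 : 1 ≤ C' * DD ω := by
      rw [hC', one_div, ← div_eq_inv_mul, le_div_iff₀ (by positivity), one_mul]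
      exact q5.le
    have q7 : p ω ≤ C' * (p ω * DD ω) := by
      calc p ω = p ω * 1 := (mul_one _).symm
        _ ≤ p ω * (C' * DD ω) := mul_le_mul_of_nonneg_left q6 hP0'
        _ = _ := by ring
    linarith
  refine (sum_le_sum hpt).trans ?_
  rw [sum_add_distrib, ← mul_sum]
  have hbKr : ((b ^ K : ℕ) : ℝ) ≤ B * N := by exact_mod_cast hN1
  have hLXK : LX = K * Real.log b := by rw [hLX]; push_cast; rw [Real.log_pow]
  have hlb : 0 < Real.log (b : ℝ) := Real.log_pos (by linarith)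
  have g5 : C' * ∑ ω ∈ Ω, p ω * DD ω ≤ (B * Real.log b) / c0 * (1 / (K : ℝ) ^ (U + 2)) := by
    calc C' * ∑ ω ∈ Ω, p ω * DD ω ≤ C' * (LX * (((b ^ K : ℕ) : ℝ) / (K : ℝ) ^ (U + 3))) := mul_le_mul_of_nonneg_left hD hC0
      _ ≤ C' * (LX * ((B * N) / (K : ℝ) ^ (U + 3))) := by
          apply mul_le_mul_of_nonneg_left _ hC0
          apply mul_le_mul_of_nonneg_left _ hLX0.le
          exact div_le_div_of_nonneg_right hbKr (by positivity)
      _ = _ := by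
          rw [hC', hLXK, show U + 3 = (U + 2) + 1 by ring, pow_succ]
          field_simp
  have g6 : (1 + (B * Real.log b) / c0) * (1 / (K : ℝ) ^ (U + 1)) ≤ 1 / (K : ℝ) ^ U := by
    calc _ ≤ (K : ℝ) * (1 / (K : ℝ) ^ (U + 1)) := mul_le_mul_of_nonneg_right
          (hk4.trans (by exact_mod_cast (by omega : k4 ≤ K))) (by positivity)
      _ = _ := by rw [pow_succ]; field_simp
  have g7 : (B * Real.log b) / c0 * (1 / (K : ℝ) ^ (U + 2)) ≤ (B * Real.log b) / c0 * (1 / (K : ℝ) ^ (U + 1)) := by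
    apply mul_le_mul_of_nonneg_left _ (by positivity)
    exact one_div_le_one_div_of_le (by positivity) (pow_le_pow_right₀ hKr1 (by omega))
  rw [add_mul, one_mul] at g6
  linarith

end Pool.Agent.Q259.AS
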