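import Pool.Agent.Q259.AS.Dil

set_option autoImplicit false

/-! Primes `q` with `a + q d` prime, `a` typical: the exceptional sets are rarely met. -/

namespace Pool.Agent.Q259.AS

open Finset MeasureTheory Filter
open Pool.Agent.Y885 (TLaw)
open Pool.Agent.Y820.LF (nuF singF AdmF cntF PosF)

/-- the exceptional constants -/
def BadD (Q0 B₁ : ℕ) (ε : ℝ) (X : ℕ) : Set ℤ :=
  {a | ∃ d : ℤ, d ≠ 0 ∧ |d| ≤ Q0 ∧ AdmF (dC d) (dH a) ∧ ∃ N : ℕ, N ≤ B₁ * X ∧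
    X ≤ B₁ * N ∧ PosF (dC d) (dH a) N ∧ ¬ HLW ε 0 N (dC d) (dH a)}

lemma shC_zero {s : ℕ} (C H : Fin s → ℤ) : shC C H 0 = H := by
  funext i
  unfold shC
  rw [mul_zero, add_zero]

theorem eng_dil (Q0 B₁ : ℕ) (hB₁ : 1 ≤ B₁) (ε : ℝ) (hε : 0 < ε) :
    Eng1 ℕ (fun X => 8 * (Q0 + 1) * (B₁ + 1) * X) (BadD Q0 B₁ ε) := by
  classical
  intro b E hb hE c k₀ B U₁
  obtain ⟨δ, hδ⟩ : ∃ δ, δ = min (ε / 4) 1 := ⟨_, rfl⟩
  have hδ0 : 0 < δ := by rw [hδ]; positivity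
  have hδ1 : δ ≤ 1 := by rw [hδ]; exact min_le_right _ _
  have hδε : 4 * δ ≤ ε := by
    have := min_le_left (ε / 4) 1
    rw [← hδ] at this
    linarith
  obtain ⟨V, hV⟩ : ∃ V, V = 3 := ⟨_, rfl⟩
  obtain ⟨Up, hUp⟩ : ∃ Up, Up = U₁ + V + 1 := ⟨_, rfl⟩
  obtain ⟨κ, hκ⟩ : ∃ κ, κ = 8 * (Q0 + 1) * (B₁ + 1) := ⟨_, rfl⟩
  have hκ1 : 1 ≤ κ := by rw [hκ]; exact Nat.mul_pos (Nat.mul_pos (by norm_num) (Nat.succ_pos _)) (Nat.succ_pos _)
  obtain ⟨c₁, hc₁, hforms⟩ := tl_dil Q0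
  obtain ⟨K₀, h0⟩ := hforms b E (c (2 * (Up + 3) + 6)) (B * κ * (2 * B₁)) Up hb hE δ hδ0
  obtain ⟨K₂, h2⟩ := netG 2 B₁ V b hB₁ (by omega) hb c₁ ε δ hc₁ hδ0 hδ1 hδε
  obtain ⟨K₃, h3⟩ := pow_ev (V + 1) b hb
  obtain ⟨Z, hZ⟩ : ∃ Z, Z = (2 * Q0 + 1) * (2 * B₁) := ⟨_, rfl⟩
  refine ⟨K₀ + K₂ + K₃ + k₀ (2 * (Up + 3) + 6) + B * κ * (2 * B₁) * (K₂ + 4) + B * κ + 4 * B₁ + Z + 4,
    fun K hK S w hw hS X hX1 hX2 => ?_⟩
  simp only [← hκ] at hX1 hX2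
  have hKb : K < b ^ K := Nat.lt_pow_self (by omega)
  have hb3 : 8 ≤ b ^ 3 := by
    have : 2 ^ 3 ≤ b ^ 3 := Nat.pow_le_pow_left hb 3
    omega
  have hb8 : (8 : ℤ) ≤ (b : ℤ) ^ 3 := by exact_mod_cast hb3
  have hK1 : (1 : ℝ) ≤ K := by exact_mod_cast (by omega : 1 ≤ K)
  have hK0 : (0 : ℝ) < K := by linarith
  have hKV0 : 0 < K ^ V := Nat.pow_pos (by omega)
  -- large
  have hXlarge : K ^ V * 4 ≤ X := by
    have e1 := h3 K (by omega)
    have e2 : 4 * b ^ 3 * K ^ (V + 1) ≤ B * κ * X := by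
      calc 4 * b ^ 3 * K ^ (V + 1) ≤ b ^ K := e1
        _ ≤ B * (κ * X) := hX1
        _ = _ := by ring
    have e3 : B * κ ≤ K := by omega
    have e4 : 4 * b ^ 3 * K ^ (V + 1) ≤ K * X := e2.trans (Nat.mul_le_mul_right _ e3)
    have e5 : K * (K ^ V * 4) ≤ K * X := by
      calc K * (K ^ V * 4) = 4 * 1 * K ^ (V + 1) := by rw [pow_succ]; ring
        _ ≤ 4 * b ^ 3 * K ^ (V + 1) := Nat.mul_le_mul_right _ (Nat.mul_le_mul_left _ (by omega))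
        _ ≤ K * X := e4
    exact Nat.le_of_mul_le_mul_left e5 (by omega)
  have hX0 : 1 ≤ X := by omega
  have hNlarge : ∀ N : ℕ, X ≤ 2 * B₁ * N → K₂ ≤ N := by
    intro N hN
    by_contra hcon
    push Not at hcon
    have e1 : B * (κ * X) ≤ B * (κ * (2 * B₁ * K₂)) :=
      Nat.mul_le_mul_left _ (Nat.mul_le_mul_left _ (hN.trans (Nat.mul_le_mul_left _ hcon.le)))
    have e2 : B * (κ * (2 * B₁ * K₂)) ≤ B * κ * (2 * B₁) * (K₂ + 4) := by
      calc B * (κ * (2 * B₁ * K₂)) = B * κ * (2 * B₁) * K₂ := by ring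
        _ ≤ _ := Nat.mul_le_mul_left _ (by omega)
    omega
  obtain ⟨P, hP⟩ : ∃ P : ℕ, P = (Q0 + 1) * (B₁ + 1) * X := ⟨_, rfl⟩
  have hκP : κ * X = 8 * P := by rw [hκ, hP]; ring
  have h64 : 64 * P ≤ b ^ K := by
    calc 64 * P = 8 * (κ * X) := by rw [hκP]; ring
      _ ≤ b ^ 3 * (κ * X) := Nat.mul_le_mul_right _ hb3
      _ ≤ b ^ K := hX2
  have h2BX : 2 * B₁ * X ≤ b ^ K := by
    have : 2 * B₁ * X ≤ 64 * P := by
      rw [hP]
      calc 2 * B₁ * X ≤ 64 * (1 * (B₁ + 1) * X) := by nlinarith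
        _ ≤ 64 * ((Q0 + 1) * (B₁ + 1) * X) := by gcongr; omega
    omega
  obtain ⟨D, hD⟩ : ∃ D, D = X / K ^ V + 1 := ⟨_, rfl⟩
  have hnet := h2 K X (by omega) hXlarge h2BX hNlarge
  rw [← hD] at hnet
  -- the events
  obtain ⟨Ev, hEvdef⟩ : ∃ Ev : ℤ → ℕ → ℤ → Prop, Ev = fun d l a =>
      d ≠ 0 ∧ |d| ≤ (Q0 : ℤ) ∧ X ≤ 2 * B₁ * (l * D) ∧ l * D ≤ B₁ * X ∧
        AdmF (dC d) (dH a) ∧ PosF (dC d) (dH a) (l * D) ∧ ¬ HLC c₁ δ (l * D) (dC d) (dH a) := ⟨_, rfl⟩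
  have hEv : ∀ (d : ℤ) (l : ℕ) (a : ℤ), Ev d l a ↔ d ≠ 0 ∧ |d| ≤ (Q0 : ℤ) ∧ X ≤ 2 * B₁ * (l * D) ∧ l * D ≤ B₁ * X ∧
        AdmF (dC d) (dH a) ∧ PosF (dC d) (dH a) (l * D) ∧ ¬ HLC c₁ δ (l * D) (dC d) (dH a) := by
    intro d l a
    rw [hEvdef]
  have hone : ∀ (d : ℤ) (l : ℕ), ∑ a ∈ S, (if Ev d l a then w a else 0) ≤ 1 / (K : ℝ) ^ Up := by
    intro d l
    by_cases hj : d ≠ 0 ∧ |d| ≤ (Q0 : ℤ) ∧ X ≤ 2 * B₁ * (l * D) ∧ l * D ≤ B₁ * X
    · obtain ⟨hd, hdQ, hj1, hj2⟩ := hj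
      have hPz : (64 : ℤ) * P ≤ (b : ℤ) ^ K := by exact_mod_cast h64
      have hP0 : (1 : ℤ) ≤ P := by
        rw [hP]
        have : 1 ≤ (Q0 + 1) * (B₁ + 1) * X := Nat.mul_pos (by positivity) hX0
        exact_mod_cast this
      have hCN : |d| * (((l * D : ℕ) : ℤ) + 1) ≤ P := by
        have e1 : ((l * D : ℕ) : ℤ) + 1 ≤ (B₁ + 1) * X := by
          have : l * D + 1 ≤ (B₁ + 1) * X := by rw [add_mul, one_mul]; omega
          exact_mod_cast this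
        have e2 : |d| ≤ (Q0 + 1 : ℤ) := hdQ.trans (by linarith)
        calc |d| * (((l * D : ℕ) : ℤ) + 1) ≤ (Q0 + 1) * ((B₁ + 1) * X) :=
              mul_le_mul e2 e1 (by positivity) (by positivity)
          _ = P := by rw [hP]; push_cast; ring
      refine le_trans (le_of_eq (sum_congr rfl fun h _ => ite_inst _ _ _ _)) (h0 K (by omega) ℤ inferInstance S w
        (fun n => n) (hw.law _ (by omega)) d (l * D) ?_ ?_ hd hdQ ?_ ?_ (Ev d l) (fun _ => Classical.propDecidable _)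
        (fun h _ hh => ?_))
      · calc b ^ K ≤ B * (κ * X) := hX1
          _ ≤ B * (κ * (2 * B₁ * (l * D))) := Nat.mul_le_mul_left _ (Nat.mul_le_mul_left _ hj1)
          _ = _ := by ring
      · calc l * D ≤ B₁ * X := hj2
          _ ≤ 2 * B₁ * X := Nat.mul_le_mul_right _ (by omega)
          _ ≤ b ^ K := h2BX
      · intro v hv
        have e1 := hS v hv
        have e2 : 8 * |v| ≤ (b : ℤ) ^ K := (mul_le_mul_of_nonneg_right hb8 (abs_nonneg _)).trans e1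
        linarith
      · linarith
      · rw [hEv] at hh
        obtain ⟨_, _, _, _, q1, q2, q3⟩ := hh
        exact ⟨q2, q1, q3⟩
    · refine le_trans (le_of_eq (sum_eq_zero fun h _ => ?_)) (by positivity)
      rw [if_neg]
      rw [hEv]
      rintro ⟨q1, q2, q3, q4, _⟩
      exact hj ⟨q1, q2, q3, q4⟩
  obtain ⟨I, hI⟩ : ∃ I : Finset (ℤ × ℕ), I = (Icc (-(Q0 : ℤ)) Q0) ×ˢ range (B₁ * K ^ V + 1) := ⟨_, rfl⟩
  have hpt : ∀ a ∈ S, ∀ d : Decidable (a ∈ BadD Q0 B₁ ε X), @ite ℝ _ d (w a) 0 ≤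
      ∑ q ∈ I, (if Ev q.1 q.2 a then w a else 0) := by
    intro a ha d
    have hnn : ∀ q ∈ I, 0 ≤ (if Ev q.1 q.2 a then w a else 0) := by
      intro q _
      split_ifs
      · exact hw.nonneg a ha
      · exact le_rfl
    split_ifs with hbad
    · obtain ⟨d', hd, hdQ, hadm, N, hN1, hN2, hpos, hfail⟩ := hbad
      by_contra hcon
      push Not at hcon
      apply hfail
      have hres := hnet (fun M N => (cntW (dC d') (dH a) M N : ℝ)) (fun M N => PosF (dC d') (shC (dC d') (dH a) M) N)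
        (fun G => Filter.Tendsto (singF (dC d') (dH a)) Filter.atTop (nhds G))
        (fun M M₀ N N₀ q1 q2 => cntW_cmp _ _ M M₀ N N₀ q1 q2)
        (fun M M₀ N N₀ q1 q2 q3 q4 => pos_sub _ _ M M₀ N N₀ q1 q2 q3 q4) 0 N (by rw [abs_zero]; positivity) hN1 hN2
        (by rw [shC_zero]; exact hpos) (by
          intro j l hj hl hj0 q1 q2 q3 q4
          have hj0 := hj0 rfl
          subst hj0
          rw [zero_mul] at q4 ⊢
          rw [shC_zero] at q4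
          by_contra hHL
          have hmem : (d', l) ∈ I := by
            rw [hI, mem_product, mem_range]
            exact ⟨mem_Icc.2 (abs_le.1 hdQ), Nat.lt_succ_of_le hl⟩
          have h5 := single_le_sum hnn hmem
          rw [if_pos ((hEv d' l a).2 ⟨hd, hdQ, q1, q2, hadm, q4, ?_⟩)] at h5
          · linarith
          · rintro ⟨G, g1, g2, g3⟩
            apply hHL
            refine ⟨G, g1, g2, ?_⟩
            have e := cntF_sh (dC d') (dH a) 0 (l * D)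
            rw [shC_zero] at e
            rw [← e]
            exact g3)
      exact hres
    · exact sum_nonneg hnn
  refine (sum_le_sum fun h hh => hpt h hh _).trans ?_
  rw [sum_comm]
  refine (sum_le_sum fun q _ => hone q.1 q.2).trans ?_
  rw [sum_const, nsmul_eq_mul]
  have hcard : (I.card : ℝ) ≤ (K : ℝ) ^ (V + 1) := by
    have e1 : I.card = (2 * Q0 + 1) * (B₁ * K ^ V + 1) := by
      rw [hI, card_product, card_range, Int.card_Icc]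
      have f1 : ((Q0 : ℤ) + 1 - -(Q0 : ℤ)).toNat = 2 * Q0 + 1 := by omega
      rw [f1]
    have e2 : I.card ≤ K ^ (V + 1) := by
      rw [e1]
      have g1 : 1 ≤ B₁ * K ^ V := Nat.mul_pos hB₁ hKV0
      calc (2 * Q0 + 1) * (B₁ * K ^ V + 1) ≤ (2 * Q0 + 1) * (2 * (B₁ * K ^ V)) := by
            apply Nat.mul_le_mul_left
            omega
        _ = ((2 * Q0 + 1) * (2 * B₁)) * K ^ V := by ring
        _ ≤ K * K ^ V := Nat.mul_le_mul_right _ (by rw [← hZ]; omega)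
        _ = _ := by rw [pow_succ]; ring
    exact_mod_cast e2
  calc (I.card : ℝ) * (1 / (K : ℝ) ^ Up) ≤ (K : ℝ) ^ (V + 1) * (1 / (K : ℝ) ^ Up) :=
        mul_le_mul_of_nonneg_right hcard (by positivity)
    _ = (K : ℝ) ^ (V + 1) / (K : ℝ) ^ Up := by ring
    _ ≤ 1 / (K : ℝ) ^ U₁ := by
        rw [div_le_div_iff₀ (by positivity) (by positivity), one_mul, ← pow_add]
        exact pow_le_pow_right₀ hK1 (by omega)

end Pool.Agent.Q259.AS
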