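import Pool.Agent.Q259.AS.Rare2
import Pool.Agent.Q259.AS.One
import Pool.Agent.Y885.MU5

set_option autoImplicit false

/-! Correlations of multiplicative functions with typical shifts. -/

namespace Pool.Agent.Q259.AS

open Finset MeasureTheory Filter
open Pool.Agent.Y885 (TLaw Fine tl_probZ)
open Pool.Agent.H373R2.T7 (exI)

/-- choosing one coordinate once more -/
lemma resample {s : ℕ} (S : Fin s → Finset ℤ) (w : Fin s → ℤ → ℝ) (i : Fin s) (hw : ∑ x ∈ S i, w i x = 1)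
    (F : (Fin s → ℤ) → ℝ) :
    ∑ h ∈ Fintype.piFinset S, (∏ j, w j (h j)) * F h =
      ∑ h ∈ Fintype.piFinset S, (∏ j, w j (h j)) * ∑ x ∈ S i, w i x * F (Function.update h i x) := by
  classical
  have hprod : ∀ (h : Fin s → ℤ) (x : ℤ), (∏ j, w j (Function.update h i x j)) * w i (h i) = (∏ j, w j (h j)) * w i x := by
    intro h x
    rw [← mul_prod_erase univ (fun j => w j (Function.update h i x j)) (mem_univ i),
      ← mul_prod_erase univ (fun j => w j (h j)) (mem_univ i)]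
    have h1 : ∏ j ∈ univ.erase i, w j (Function.update h i x j) = ∏ j ∈ univ.erase i, w j (h j) := by
      apply prod_congr rfl
      intro j hj
      rw [Function.update_of_ne (ne_of_mem_erase hj)]
    rw [h1, Function.update_self]
    ring
  have h1 : ∑ h ∈ Fintype.piFinset S, (∏ j, w j (h j)) * F h =
      ∑ q ∈ Fintype.piFinset S ×ˢ S i, ((∏ j, w j (q.1 j)) * w i q.2) * F q.1 := by
    rw [sum_product]
    apply sum_congr rfl
    intro h _
    simp only
    rw [← sum_mul, ← mul_sum, hw, mul_one]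
  have h2 : ∑ h ∈ Fintype.piFinset S, (∏ j, w j (h j)) * ∑ x ∈ S i, w i x * F (Function.update h i x) =
      ∑ q ∈ Fintype.piFinset S ×ˢ S i, ((∏ j, w j (q.1 j)) * w i q.2) * F (Function.update q.1 i q.2) := by
    rw [sum_product]
    apply sum_congr rfl
    intro h _
    rw [mul_sum]
    apply sum_congr rfl
    intro x _
    ring
  rw [h1, h2]
  symm
  refine sum_bij' (fun q _ => (Function.update q.1 i q.2, q.1 i)) (fun q _ => (Function.update q.1 i q.2, q.1 i))
    ?_ ?_ ?_ ?_ ?_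
  · intro q hq
    rw [mem_product, Fintype.mem_piFinset] at hq
    rw [mem_product, Fintype.mem_piFinset]
    refine ⟨fun j => ?_, hq.1 i⟩
    by_cases hj : j = i
    · subst hj
      simp only [Function.update_self]
      exact hq.2
    · simp only
      rw [Function.update_of_ne hj]
      exact hq.1 j
  · intro q hq
    rw [mem_product, Fintype.mem_piFinset] at hq
    rw [mem_product, Fintype.mem_piFinset]
    refine ⟨fun j => ?_, hq.1 i⟩
    by_cases hj : j = i
    · subst hj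
      simp only [Function.update_self]
      exact hq.2
    · simp only
      rw [Function.update_of_ne hj]
      exact hq.1 j
  · intro q _
    simp
  · intro q _
    simp
  · intro q _
    simp only
    rw [← hprod]

/-- the data: the weights may depend on all the shifts but one -/
structure Dat (s κ : ℕ) where
  H : ℕ
  L : ℕ
  i : Fin L → Fin s
  α : Fin L → ℕ
  g : Fin L → ℕ → (Fin s → ℤ) → ℂ
  hL : (L : ℝ) ≤ Real.log H ^ κ
  hα : ∀ l, 1 ≤ α l
  hg : ∀ l n h, 1 ≤ n → α l * n ≤ H → ‖g l n h‖ ≤ Real.log H ^ κ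

open Classical in
theorem eng_fine (s κ U : ℕ) (θ : ℕ → ℝ) (hθ : Fine θ) : EngT s (Dat s κ) (fun q => q.H)
    (fun q => {h | ∃ l, ∃ N : ℕ, q.α l * N ≤ q.H ∧ (q.H : ℝ) / Real.log q.H ^ U <
      ‖∑ n ∈ Icc 1 N, q.g l n (Function.update h (q.i l) 0) *
        exI (fun n => ((θ n : ℝ) : ℂ)) (((q.α l * n : ℕ) : ℤ) + h (q.i l))‖}) := by
  intro b E hb hE c k₀ B U₁
  obtain ⟨U₂, hU₂⟩ : ∃ U₂, U₂ = U₁ + κ + U + 2 := ⟨_, rfl⟩
  obtain ⟨K₀, hK₀⟩ := tl_probZ b E (c (4 * U₂ + 4 * (κ + 1) + 7)) hb hE θ hθ (κ + 1) U₂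
  have hb0 : (0 : ℝ) < b := by exact_mod_cast (by omega : 0 < b)
  have hb1 : (1 : ℝ) < b := by exact_mod_cast (by omega : 1 < b)
  have hlb : 0 < Real.log b := Real.log_pos hb1
  obtain ⟨K₁, hK₁⟩ := exists_nat_ge (Real.log b ^ κ + B * Real.log b ^ U + 2)
  refine ⟨K₀ + K₁ + k₀ (4 * U₂ + 4 * (κ + 1) + 7) + B + 2, fun K hK S w hw hS q hq1 hq2 => ?_⟩
  simp only at hq1 hq2
  have hK0 : (0 : ℝ) < K := by exact_mod_cast (by omega : 0 < K)
  have hK1 : (1 : ℝ) ≤ K := by exact_mod_cast (by omega : 1 ≤ K)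
  have hKK₁ : (K₁ : ℝ) ≤ K := by exact_mod_cast (by omega : K₁ ≤ K)
  have hKb : K < b ^ K := Nat.lt_pow_self (by omega)
  have hH1 : 2 ≤ q.H := by
    by_contra hcon
    have h1 : q.H ≤ 1 := by omega
    have h2 : B * q.H ≤ B * 1 := Nat.mul_le_mul_left _ h1
    omega
  have hHb : q.H ≤ b ^ K := by
    have : 1 ≤ b ^ 3 := Nat.one_le_pow _ _ (by omega)
    exact (Nat.le_mul_of_pos_left _ (by omega)).trans hq2
  have hH0 : (0 : ℝ) < q.H := by exact_mod_cast (by omega : 0 < q.H)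
  have hlog0 : 0 < Real.log q.H := Real.log_pos (by exact_mod_cast (by omega : 1 < q.H))
  have hlogH : Real.log q.H ≤ K * Real.log b := by
    rw [← Real.log_pow]
    apply Real.log_le_log hH0
    exact_mod_cast hHb
  have hpow : ∀ V : ℕ, Real.log q.H ^ V ≤ (K : ℝ) ^ V * Real.log b ^ V := by
    intro V
    rw [← mul_pow]
    exact pow_le_pow_left₀ hlog0.le hlogH V
  have hlogκ : Real.log q.H ^ κ ≤ (K : ℝ) ^ (κ + 1) := by
    refine (hpow κ).trans ?_
    rw [pow_succ]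
    apply mul_le_mul_of_nonneg_left _ (by positivity)
    have : 0 ≤ (B : ℝ) * Real.log b ^ U := by positivity
    linarith
  have hthr : ((b ^ K : ℕ) : ℝ) / (K : ℝ) ^ U₂ ≤ (q.H : ℝ) / Real.log q.H ^ U := by
    have h1 : ((b ^ K : ℕ) : ℝ) ≤ B * q.H := by exact_mod_cast hq1
    have h2 : (B : ℝ) * Real.log q.H ^ U ≤ (K : ℝ) ^ U₂ := by
      calc (B : ℝ) * Real.log q.H ^ U ≤ B * ((K : ℝ) ^ U * Real.log b ^ U) := mul_le_mul_of_nonneg_left (hpow U) (Nat.cast_nonneg _)
        _ = (K : ℝ) ^ U * (B * Real.log b ^ U) := by ring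
        _ ≤ (K : ℝ) ^ U * K := by
            apply mul_le_mul_of_nonneg_left _ (by positivity)
            have : 0 ≤ Real.log b ^ κ := by positivity
            linarith
        _ = (K : ℝ) ^ (U + 1) := by rw [pow_succ]
        _ ≤ _ := pow_le_pow_right₀ hK1 (by omega)
    rw [div_le_div_iff₀ (by positivity) (by positivity)]
    calc ((b ^ K : ℕ) : ℝ) * Real.log q.H ^ U ≤ (B * q.H) * Real.log q.H ^ U := mul_le_mul_of_nonneg_right h1 (by positivity)
      _ = q.H * (B * Real.log q.H ^ U) := by ring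
      _ ≤ q.H * (K : ℝ) ^ U₂ := mul_le_mul_of_nonneg_left h2 hH0.le
  have hbz : (1 : ℤ) ≤ (b : ℤ) ^ 3 := by exact_mod_cast Nat.one_le_pow _ _ (by omega)
  have hb8 : (8 : ℤ) ≤ (b : ℤ) ^ 3 := by
    have : 2 ^ 3 ≤ b ^ 3 := Nat.pow_le_pow_left hb 3
    exact_mod_cast this
  have hbK0 : (0 : ℤ) < (b : ℤ) ^ K := by positivity
  -- one function
  have hone : ∀ l : Fin q.L, ∀ h ∈ Fintype.piFinset S, ∑ x ∈ S (q.i l), w (q.i l) x *
      (if ∃ N : ℕ, q.α l * N ≤ q.H ∧ (q.H : ℝ) / Real.log q.H ^ U <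
        ‖∑ n ∈ Icc 1 N, q.g l n (Function.update (Function.update h (q.i l) x) (q.i l) 0) *
          exI (fun n => ((θ n : ℝ) : ℂ)) (((q.α l * n : ℕ) : ℤ) + Function.update h (q.i l) x (q.i l))‖ then 1 else 0) ≤
      1 / (K : ℝ) ^ U₂ := by
    intro l h hh
    have h1 := hK₀ K (by omega) ℤ (S (q.i l)) (w (q.i l)) (fun n => n)
      ((hw (q.i l)).law _ (by omega)) q.H hHb (fun ω hω => by
        have h2 := hS (q.i l) ω hω
        have h3 : 8 * |ω| ≤ (b : ℤ) ^ K := (mul_le_mul_of_nonneg_right hb8 (abs_nonneg _)).trans h2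
        have h4 : 8 * (q.H : ℤ) ≤ (b : ℤ) ^ K := by
          have h5 : ((b ^ 3 * q.H : ℕ) : ℤ) ≤ ((b ^ K : ℕ) : ℤ) := by exact_mod_cast hq2
          push_cast at h5
          exact (mul_le_mul_of_nonneg_right hb8 (Int.natCast_nonneg _)).trans h5
        have h6 := neg_abs_le ω
        have h7 := le_abs_self ω
        constructor <;> linarith)
      1 (by push_cast; exact one_le_pow₀ hK1) (fun _ => q.α l) (fun _ n => q.g l n (Function.update h (q.i l) 0))
      (fun _ => q.hα l) (fun _ n hn1 hn2 => (q.hg l n _ hn1 hn2).trans hlogκ)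
      (fun x => ∃ N : ℕ, q.α l * N ≤ q.H ∧ (q.H : ℝ) / Real.log q.H ^ U <
        ‖∑ n ∈ Icc 1 N, q.g l n (Function.update (Function.update h (q.i l) x) (q.i l) 0) *
          exI (fun n => ((θ n : ℝ) : ℂ)) (((q.α l * n : ℕ) : ℤ) + Function.update h (q.i l) x (q.i l))‖)
      (fun _ => Classical.propDecidable _) (fun ω hω hEv => by
        obtain ⟨N, hN1, hN2⟩ := hEv
        refine ⟨0, N, hN1, lt_of_le_of_lt hthr ?_⟩
        rw [Function.update_idem, Function.update_self] at hN2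
        exact hN2)
    refine le_trans (le_of_eq ?_) h1
    apply sum_congr rfl
    intro x _
    split_ifs <;> simp
  have hwnn : ∀ h ∈ Fintype.piFinset S, 0 ≤ ∏ j, w j (h j) := by
    intro h hh
    exact prod_nonneg fun j _ => (hw j).nonneg _ (Fintype.mem_piFinset.1 hh j)
  -- union over the functions
  have hpt : ∀ h ∈ Fintype.piFinset S, ∀ d : Decidable (∃ l, ∃ N : ℕ, q.α l * N ≤ q.H ∧ (q.H : ℝ) / Real.log q.H ^ U <
      ‖∑ n ∈ Icc 1 N, q.g l n (Function.update h (q.i l) 0) *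
        exI (fun n => ((θ n : ℝ) : ℂ)) (((q.α l * n : ℕ) : ℤ) + h (q.i l))‖), @ite ℝ _ d (∏ i, w i (h i)) 0 ≤
      ∑ l, (∏ i, w i (h i)) * (if ∃ N : ℕ, q.α l * N ≤ q.H ∧ (q.H : ℝ) / Real.log q.H ^ U <
      ‖∑ n ∈ Icc 1 N, q.g l n (Function.update h (q.i l) 0) *
        exI (fun n => ((θ n : ℝ) : ℂ)) (((q.α l * n : ℕ) : ℤ) + h (q.i l))‖ then 1 else 0) := by
    intro h hh d
    split_ifs with h1
    · obtain ⟨l, h2⟩ := h1
      have h3 := single_le_sum (f := fun l => (∏ i, w i (h i)) * (if ∃ N : ℕ, q.α l * N ≤ q.H ∧ (q.H : ℝ) / Real.log q.H ^ U <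
        ‖∑ n ∈ Icc 1 N, q.g l n (Function.update h (q.i l) 0) *
        exI (fun n => ((θ n : ℝ) : ℂ)) (((q.α l * n : ℕ) : ℤ) + h (q.i l))‖ then (1 : ℝ) else 0))
        (fun l _ => mul_nonneg (hwnn h hh) (by split_ifs <;> norm_num)) (mem_univ l)
      refine le_trans (le_of_eq ?_) h3
      rw [if_pos h2, mul_one]
    · exact sum_nonneg fun l _ => mul_nonneg (hwnn h hh) (by split_ifs <;> norm_num)
  refine (sum_le_sum fun h hh => hpt h hh _).trans ?_
  rw [sum_comm]
  have hl : ∀ l ∈ (univ : Finset (Fin q.L)), ∑ h ∈ Fintype.piFinset S, (∏ i, w i (h i)) *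
      (if ∃ N : ℕ, q.α l * N ≤ q.H ∧ (q.H : ℝ) / Real.log q.H ^ U <
      ‖∑ n ∈ Icc 1 N, q.g l n (Function.update h (q.i l) 0) *
        exI (fun n => ((θ n : ℝ) : ℂ)) (((q.α l * n : ℕ) : ℤ) + h (q.i l))‖ then 1 else 0) ≤ 1 / (K : ℝ) ^ U₂ := by
    intro l _
    rw [resample S w (q.i l) (hw (q.i l)).sum]
    calc _ ≤ ∑ h ∈ Fintype.piFinset S, (∏ j, w j (h j)) * (1 / (K : ℝ) ^ U₂) := by
          apply sum_le_sum
          intro h hh
          exact mul_le_mul_of_nonneg_left (hone l h hh) (hwnn h hh)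
      _ = 1 / (K : ℝ) ^ U₂ := by
          rw [← sum_mul, ← prod_univ_sum, prod_congr rfl fun j _ => (hw j).sum, prod_const_one, one_mul]
  refine (sum_le_sum hl).trans ?_
  rw [sum_const, card_univ, Fintype.card_fin, nsmul_eq_mul]
  refine (mul_le_mul_of_nonneg_right (q.hL.trans hlogκ) (by positivity)).trans ?_
  rw [mul_one_div, div_le_div_iff₀ (by positivity) (by positivity), one_mul, ← pow_add]
  exact pow_le_pow_right₀ hK1 (by omega)

end Pool.Agent.Q259.AS
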