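import Pool.Agent.Y885.TU1
import Pool.Agent.Y820.LF.M0
import Pool.Agent.Y820.LF.L
import Pool.Agent.Y820.LF.Tr

set_option autoImplicit false

/-! Linear forms with random constants which have a thin large spectrum. -/

namespace Pool.Agent.Q259.AS

open Finset
open Pool.Agent.H373R2.T7
open Pool.Agent.Y885 (TLaw tl_dif tl_point)

/-- the sum over the multiples of `d` -/
lemma sum_mult (d N : ℕ) (hd : 1 ≤ d) (G : ℕ → ℝ) (F : ℕ → ℝ) :
    ∑ m ∈ Icc 1 (d * N), (if d ∣ m then G (m / d) else 0) * F m = ∑ n ∈ Icc 1 N, G n * F (d * n) := by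
  classical
  have h1 : ∑ m ∈ Icc 1 (d * N), (if d ∣ m then G (m / d) else 0) * F m =
      ∑ m ∈ (Icc 1 (d * N)).filter (fun m => d ∣ m), G (m / d) * F m := by
    rw [sum_filter]
    apply sum_congr rfl
    intro m _
    split_ifs
    · rfl
    · rw [zero_mul]
  rw [h1]
  symm
  apply sum_bij (fun n _ => d * n)
  · intro n hn
    rw [mem_Icc] at hn
    rw [mem_filter, mem_Icc]
    exact ⟨⟨Nat.mul_pos hd hn.1, Nat.mul_le_mul_left _ hn.2⟩, Dvd.intro _ rfl⟩
  · intro n _ n' _ h
    exact Nat.eq_of_mul_eq_mul_left hd h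
  · intro m hm
    rw [mem_filter, mem_Icc] at hm
    obtain ⟨⟨h2, h3⟩, k, rfl⟩ := hm
    refine ⟨k, ?_, rfl⟩
    rw [mem_Icc]
    constructor
    · by_contra hcon
      have : k = 0 := by omega
      subst this
      omega
    · exact Nat.le_of_mul_le_mul_left h3 hd
  · intro n _
    rw [Nat.mul_div_cancel_left n hd]

/-- replacing the von Mangoldt function by the sieve model, for one linear form -/
theorem tl_difC (b E c : ℕ) (hb : 2 ≤ b) (hE : 1 ≤ E) (U : ℕ) : ∃ B : ℕ, ∀ Ez : ℕ, ∃ K₀ : ℕ, ∀ K : ℕ, K₀ ≤ K →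
    ∀ z : ℕ, Real.log ((b ^ K : ℕ) : ℝ) ^ B ≤ z → (z : ℝ) ≤ Real.log ((b ^ K : ℕ) : ℝ) ^ Ez →
    ∀ (ι : Type) (Ω : Finset ι) (p : ι → ℝ) (Y : ι → ℤ), TLaw b E c (2 * U + 6) K Ω p Y →
    ∀ (C : ℤ) (N : ℕ), C ≠ 0 → (∀ ω ∈ Ω, |Y ω| + |C| * (N + 1) < (b : ℤ) ^ K) → |C| * (N + 1) < (b : ℤ) ^ K →
    ∀ Q : ℝ, 0 < Q → ∀ G : ℕ → ℝ, (∀ n ∈ Icc 1 N, |G n| ≤ Q) →
    ∑ ω ∈ Ω, p ω * |∑ n ∈ Icc 1 N, G n * (lamI (C * (n : ℤ) + Y ω) - lamzI z (C * (n : ℤ) + Y ω))| ≤
      Q * (((b ^ K : ℕ) : ℝ) / (K : ℝ) ^ U) := by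
  classical
  obtain ⟨B, hB⟩ := tl_dif b E c hb hE U
  refine ⟨B, fun Ez => ?_⟩
  obtain ⟨K₀, h0⟩ := hB Ez
  refine ⟨K₀, fun K hK z hz1 hz2 ι Ω p Y hlaw C N hC hY hN Q hQ G hG => ?_⟩
  rcases lt_or_gt_of_ne hC with hneg | hpos
  · -- negative slope
    obtain ⟨d, hd⟩ : ∃ d : ℕ, d = C.natAbs := ⟨_, rfl⟩
    have hdC : C = -(d : ℤ) := by omega
    have hd1 : 1 ≤ d := by omega
    have habs : |C| = d := by rw [hdC, abs_neg]; exact abs_of_nonneg (Int.natCast_nonneg _)
    rw [habs] at hY hN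
    have key := h0 K hK z hz1 hz2 ι Ω p (fun ω => Y ω + -((d : ℤ) * (N + 1))) (hlaw.add _) (d * N)
      (by push_cast; nlinarith) (by
        intro ω hω
        have h1 := hY ω hω
        have h2 := neg_abs_le (Y ω)
        have h3 := le_abs_self (Y ω)
        have h4 : (0 : ℤ) ≤ (d : ℤ) * (N + 1) := by positivity
        push_cast
        constructor <;> nlinarith)
      Q hQ (fun m => if d ∣ m then G (N + 1 - m / d) else 0) (by
        intro m hm
        rw [mem_Icc] at hm
        split_ifs with hdm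
        · obtain ⟨k, rfl⟩ := hdm
          rw [Nat.mul_div_cancel_left k hd1]
          have hk1 : 1 ≤ k := by
            by_contra hcon
            have : k = 0 := by omega
            subst this
            omega
          have hk2 : k ≤ N := Nat.le_of_mul_le_mul_left hm.2 hd1
          exact hG _ (mem_Icc.2 ⟨by omega, by omega⟩)
        · rw [abs_zero]; exact hQ.le)
    refine le_trans (le_of_eq ?_) key
    apply sum_congr rfl
    intro ω _
    congr 2
    have e1 := sum_mult d N hd1 (fun k => G (N + 1 - k)) (fun m => lamI ((m : ℤ) + (Y ω + -((d : ℤ) * (N + 1)))) -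
      lamzI z ((m : ℤ) + (Y ω + -((d : ℤ) * (N + 1)))))
    rw [e1]
    symm
    apply sum_bij' (fun n _ => N + 1 - n) (fun n _ => N + 1 - n)
    · intro n hn
      rw [mem_Icc] at hn ⊢
      omega
    · intro n hn
      rw [mem_Icc] at hn ⊢
      omega
    · intro n hn
      rw [mem_Icc] at hn
      omega
    · intro n hn
      rw [mem_Icc] at hn
      omega
    · intro n hn
      rw [mem_Icc] at hn
      have e2 : C * ((N + 1 - n : ℕ) : ℤ) + Y ω = ((d * n : ℕ) : ℤ) + (Y ω + -((d : ℤ) * (N + 1))) := by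
        rw [Nat.cast_sub (by omega), hdC]
        push_cast
        ring
      rw [e2]
  · -- positive slope
    obtain ⟨d, hd⟩ : ∃ d : ℕ, d = C.natAbs := ⟨_, rfl⟩
    have hdC : C = (d : ℤ) := by omega
    have hd1 : 1 ≤ d := by omega
    have habs : |C| = d := by rw [hdC]; exact abs_of_nonneg (Int.natCast_nonneg _)
    rw [habs] at hY hN
    have key := h0 K hK z hz1 hz2 ι Ω p Y hlaw (d * N)
      (by push_cast; nlinarith) (by
        intro ω hω
        have h1 := hY ω hω
        have h2 := neg_abs_le (Y ω)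
        have h3 := le_abs_self (Y ω)
        have h4 : (0 : ℤ) ≤ (d : ℤ) * (N + 1) := by positivity
        push_cast
        constructor <;> nlinarith)
      Q hQ (fun m => if d ∣ m then G (m / d) else 0) (by
        intro m hm
        rw [mem_Icc] at hm
        split_ifs with hdm
        · obtain ⟨k, rfl⟩ := hdm
          rw [Nat.mul_div_cancel_left k hd1]
          have hk1 : 1 ≤ k := by
            by_contra hcon
            have : k = 0 := by omega
            subst this
            omega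
          have hk2 : k ≤ N := Nat.le_of_mul_le_mul_left hm.2 hd1
          exact hG _ (mem_Icc.2 ⟨hk1, hk2⟩)
        · rw [abs_zero]; exact hQ.le)
    refine le_trans (le_of_eq ?_) key
    apply sum_congr rfl
    intro ω _
    congr 2
    have e1 := sum_mult d N hd1 G (fun m => lamI ((m : ℤ) + Y ω) - lamzI z ((m : ℤ) + Y ω))
    rw [e1]
    apply sum_congr rfl
    intro n _
    rw [hdC]
    push_cast
    ring

end Pool.Agent.Q259.AS
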