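import Pool.Agent.Q259.AS.Frm1

set_option autoImplicit false

/-! Several linear forms with random constants which have a thin large spectrum. -/

namespace Pool.Agent.Q259.AS

open Finset
open Pool.Agent.H373R2.T7
open Pool.Agent.Y885 (TLaw tl_dif tl_point)
open Pool.Agent.W93.TD (sizes diff_num tele_w avg_w total_w last_num)
open Pool.Agent.Y820.LF (nuF singF AdmF cntF PosF)

/-- replacing the von Mangoldt function by the sieve model, for several linear forms -/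
theorem tl_diffsC (s b E c B : ℕ) (hb : 2 ≤ b) (hE : 1 ≤ E) (U : ℕ) : ∃ B0 : ℕ, ∀ Ez : ℕ, ∃ K₀ : ℕ, ∀ K : ℕ, K₀ ≤ K →
    ∀ (α : Type) (_ : DecidableEq α) (Ω : Fin s → Finset α) (p : Fin s → α → ℝ) (Y : Fin s → α → ℤ),
    (∀ i, TLaw b E c (2 * (U + s + 2) + 6) K (Ω i) (p i) (Y i)) → (∀ i, ∑ v ∈ Ω i, p i v = 1) →
    ∀ (C : Fin s → ℤ) (N : ℕ), b ^ K ≤ B * N → N ≤ b ^ K → (∀ i, C i ≠ 0) →
    (∀ i, ∀ v ∈ Ω i, |Y i v| + |C i| * (N + 1) < (b : ℤ) ^ K) → (∀ i, |C i| * (N + 1) < (b : ℤ) ^ K) →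
    ∀ z : ℕ, Real.log N ^ B0 ≤ z → (z : ℝ) ≤ Real.log N ^ Ez →
    ∀ g : ℕ → ℝ, (∀ n ∈ Icc 1 N, |g n| ≤ Real.log ((b ^ K : ℕ) : ℝ)) →
    ∑ ω ∈ Fintype.piFinset Ω, (∏ i, p i (ω i)) * |∑ n ∈ Icc 1 N, g n *
        (∏ i, lamI (C i * (n : ℤ) + Y i (ω i)) - ∏ i, lamzI z (C i * (n : ℤ) + Y i (ω i)))| ≤ N / Real.log N ^ U := by
  classical
  obtain ⟨B1, hB1⟩ := tl_difC b E c hb hE (U + s + 2)
  refine ⟨B1 + 1, fun Ez => ?_⟩
  obtain ⟨k1, h1⟩ := hB1 Ez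
  obtain ⟨N2, h2⟩ := Vz_inv_small Ez
  obtain ⟨k3, h3⟩ := sizes b B 0 hb ((2 : ℝ) ^ B1 + 1 + s * 2 ^ (s + 1) * B * ((b : ℝ) * ((0 : ℕ) + 1)) ^ (U + s + 2))
  refine ⟨k1 + k3 + N2 + 1, fun K hK α _ Ω p Y hlaw hsum C N hN1 hN2 hC hY hCN z hz1 hz2 g hg => ?_⟩
  have hbn : 0 < b := by omega
  obtain ⟨hN0, a1, a2, a3, a4, a5⟩ := h3 K (by omega) N hN1 (by rw [add_zero]; exact hN2)
  rw [add_zero] at a2 a3
  obtain ⟨LX, hLX⟩ : ∃ LX, LX = Real.log ((b ^ K : ℕ) : ℝ) := ⟨_, rfl⟩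
  obtain ⟨L, hL⟩ : ∃ L, L = Real.log (N : ℝ) := ⟨_, rfl⟩
  rw [← hL] at a1 a2 a3 a4 a5 hz1 hz2 ⊢
  rw [← hLX] at a2 a3 hg
  have hbr : (2 : ℝ) ≤ b := by exact_mod_cast hb
  have hc0 : 0 ≤ (s : ℝ) * 2 ^ (s + 1) * B * ((b : ℝ) * ((0 : ℕ) + 1)) ^ (U + s + 2) := by positivity
  have hp2 : (0 : ℝ) < 2 ^ B1 := by positivity
  have hL1 : 1 ≤ L := by linarith
  have hL0 : 0 < L := by linarith
  have hLX1 : 1 ≤ LX := by linarith
  have hz : 1 ≤ z := by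
    have : (1 : ℝ) ≤ z := (one_le_pow₀ hL1).trans hz1
    exact_mod_cast this
  have hzX1 : LX ^ B1 ≤ z := by
    refine le_trans ?_ hz1
    calc LX ^ B1 ≤ (2 * L) ^ B1 := pow_le_pow_left₀ (by linarith) a2 _
      _ = 2 ^ B1 * L ^ B1 := mul_pow _ _ _
      _ ≤ L * L ^ B1 := mul_le_mul_of_nonneg_right (by linarith) (by positivity)
      _ = L ^ (B1 + 1) := by ring
  have hzX2 : (z : ℝ) ≤ LX ^ Ez := hz2.trans (pow_le_pow_left₀ hL0.le a3 _)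
  have hkX : K < b ^ K := Nat.lt_pow_self (by omega)
  have hV := h2 (b ^ K) (by omega) z hz (by rw [← hLX]; exact hzX2)
  rw [← hLX] at hV
  have hX0 : (0 : ℝ) < ((b ^ K : ℕ) : ℝ) := by exact_mod_cast (by omega : 0 < b ^ K)
  have hbe : ((b ^ K : ℕ) : ℤ) = (b : ℤ) ^ K := by push_cast; ring
  have hup : ∀ i, ∀ n ∈ Icc 1 N, ∀ v ∈ Ω i, ((C i * (n : ℤ) + Y i v : ℤ) : ℝ) ≤ ((b ^ K : ℕ) : ℝ) := by
    intro i n hn v hv
    rw [mem_Icc] at hn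
    have h5 := hY i v hv
    rw [← hbe] at h5
    have h6 : C i * (n : ℤ) + Y i v ≤ ((b ^ K : ℕ) : ℤ) := by
      have e1 : (n : ℤ) ≤ N := by exact_mod_cast hn.2
      have e2 : C i * (n : ℤ) ≤ |C i| * n := mul_le_mul_of_nonneg_right (le_abs_self _) (Int.natCast_nonneg _)
      have e3 : |C i| * (n : ℤ) ≤ |C i| * (N + 1) := mul_le_mul_of_nonneg_left (by linarith) (abs_nonneg _)
      have e4 := le_abs_self (Y i v)
      linarith
    exact_mod_cast h6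
  have hk0 : (0 : ℝ) < K := by exact_mod_cast (by omega : 0 < K)
  have key := tele_w N Ω p (fun i v hv => (hlaw i).nonneg v hv)
    hsum (fun i n v => lamI (C i * (n : ℤ) + Y i v))
    (fun i n v => lamzI z (C i * (n : ℤ) + Y i v))
    LX (((b ^ K : ℕ) : ℝ) / (K : ℝ) ^ (U + s + 2)) hLX1 (by positivity) (by
      intro i n hn v hv
      rw [abs_of_nonneg (lamI_nonneg _), hLX]
      exact lamI_le _ _ (by exact_mod_cast (by omega : 1 ≤ b ^ K)) (hup i n hn v hv)) (by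
      intro i n hn v hv
      rw [abs_of_nonneg (lamzI_nonneg _ _)]
      exact (lamzI_le z _).trans hV) (by
      intro i Q hQ G hG
      exact h1 K (by omega) z (by rw [← hLX]; exact hzX1) (by rw [← hLX]; exact hzX2) α (Ω i) (p i) (Y i) (hlaw i) (C i) N
        (hC i) (hY i) (hCN i) Q hQ G hG)
    univ LX (by linarith) (fun n _ => g n) (by
      intro n hn m _
      exact hg n hn) (by
      intro n m v i _; rfl)
  rw [card_univ, Fintype.card_fin] at key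
  refine key.trans ?_
  apply diff_num L LX K _ N (b * ((0 : ℕ) + 1)) B s U hL1 (by linarith) a2 hk0 a4 (by positivity) _ hX0.le (Nat.cast_nonneg _)
    (by positivity) (by linarith)
  exact_mod_cast hN1

/-- the formula of Hardy and Littlewood for a system of linear forms on `[1, N]` -/
def HLC {s : ℕ} (c ε : ℝ) (N : ℕ) (C H : Fin s → ℤ) : Prop :=
  ∃ G : ℝ, c ≤ G ∧ Filter.Tendsto (singF C H) Filter.atTop (nhds G) ∧
    |(cntF C H N : ℝ) - G * (N / Real.log N ^ s)| ≤ ε * (G * (N / Real.log N ^ s))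

/-- the deterministic part -/
lemma detC (s Q0 : ℕ) (hs : 1 ≤ s) : ∃ c : ℝ, 0 < c ∧ ∀ B E1 : ℕ, 5 ≤ E1 → ∀ ε : ℝ, 0 < ε → ∃ c0 : ℝ, 0 < c0 ∧
    ∃ n0 : ℕ, ∀ N : ℕ, n0 ≤ N → ∀ z : ℕ,
    Real.log N ^ E1 ≤ z → (z : ℝ) ≤ Real.log N ^ (E1 + 1) → ∀ C H : Fin s → ℤ, (∀ i, C i ≠ 0 ∧ |C i| ≤ Q0) →
    (∀ i, |H i| ≤ (B : ℤ) * N) → PosF C H N → AdmF C H → (∀ i j, i ≠ j → C i * H j ≠ C j * H i) →
    |∑ n ∈ Icc 1 N, (∏ i, lamI (C i * (n : ℤ) + H i) - ∏ i, lamzI z (C i * (n : ℤ) + H i))| ≤ c0 * N →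
    HLC c ε N C H := by
  obtain ⟨c, hc, h1⟩ := Pool.Agent.Y820.LF.t_lim s Q0 hs
  refine ⟨c, hc, fun B E1 hE1 ε hε => ?_⟩
  obtain ⟨d0, hd0, n1, h2⟩ := Pool.Agent.Y820.LF.t_tr s Q0 B hs c ε hc hε
  obtain ⟨δ, hδ⟩ : ∃ δ, δ = d0 / 3 := ⟨_, rfl⟩
  have hδ0 : 0 < δ := by rw [hδ]; positivity
  obtain ⟨n2, h3⟩ := h1 B δ hδ0
  obtain ⟨n3, h4⟩ := Pool.Agent.Y820.LF.t_main0 s (E1 + 1) 1 hs
  obtain ⟨n4, h5⟩ := exists_nat_ge (Real.exp (1 + 1 / (δ * c)))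
  refine ⟨δ * c, by positivity, n1 + n2 + n3 + n4 + 2, fun N hN z hz1 hz2 C H hC hH hP hA hnd hdiff => ?_⟩
  have hN0 : (0 : ℝ) < N := by exact_mod_cast (by omega : 0 < N)
  have hn4 : (n4 : ℝ) ≤ N := by exact_mod_cast (by omega : n4 ≤ N)
  have hL : 1 + 1 / (δ * c) ≤ Real.log N := by
    rw [Real.le_log_iff_exp_le hN0]
    exact h5.trans hn4
  have hdc : 0 < δ * c := by positivity
  have h1dc : 0 < 1 / (δ * c) := by positivity
  have hL1 : 1 ≤ Real.log N := by linarith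
  have hL0 : 0 < Real.log N := by linarith
  have hz0 : 1 ≤ z := by
    have : (1 : ℝ) ≤ z := (one_le_pow₀ hL1).trans hz1
    exact_mod_cast this
  obtain ⟨S, hS1, hS2, hS3⟩ := h3 N (by omega) C H hC hH hnd hA
  have hz3 : Real.log N ^ 2 ≤ z := (pow_le_pow_right₀ hL1 (by omega)).trans hz1
  have e1 := hS3 z hz3
  have e2 := h4 N (by omega) z hz0 hz2 C H hP hA
  rw [pow_one] at e2
  have hS0 : 0 < S := by linarith
  refine ⟨S, hS1, hS2, h2 N (by omega) C H hC hH hP S hS1 ?_⟩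
  rw [sum_sub_distrib] at hdiff
  have e3 : (N : ℝ) / Real.log N ≤ δ * c * N := by
    rw [div_le_iff₀ hL0]
    have f1 : 1 ≤ δ * c * Real.log N := by
      have := mul_le_mul_of_nonneg_left hL hdc.le
      rw [mul_add, mul_one_div_cancel hdc.ne'] at this
      linarith
    nlinarith
  have e4 : δ * c * N ≤ δ * (S * N) := by
    rw [mul_assoc]
    apply mul_le_mul_of_nonneg_left _ hδ0.le
    exact mul_le_mul_of_nonneg_right hS1 hN0.le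
  have e5 : |singF C H z * N - S * N| ≤ δ * (S * N) := by
    rw [← sub_mul, abs_mul, abs_of_pos hN0, ← mul_assoc]
    exact mul_le_mul_of_nonneg_right e1 hN0.le
  have e6 : 3 * (δ * (S * N)) = d0 * (S * N) := by rw [hδ]; ring
  rw [abs_le] at hdiff e2 e5 ⊢
  constructor <;> linarith

end Pool.Agent.Q259.AS
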