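import Pool.Agent.Q259.AS.Frm2

set_option autoImplicit false

/-! Prime values of linear forms with random constants. -/

namespace Pool.Agent.Q259.AS

open Finset
open Pool.Agent.H373R2.T7
open Pool.Agent.Y885 (TLaw tl_point)
open Pool.Agent.W93.TD (sizes avg_w total_w)
open Pool.Agent.Y820.LF (nuF singF AdmF cntF PosF)

/-- the formula of Hardy and Littlewood for a system of linear forms with random constants fails with a small
probability -/
theorem tl_forms (s Q0 : ℕ) (hs : 1 ≤ s) : ∃ c₁ : ℝ, 0 < c₁ ∧ ∀ b E c B U : ℕ, 2 ≤ b → 1 ≤ E → ∀ ε : ℝ, 0 < ε →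
    ∃ K₀ : ℕ, ∀ K : ℕ, K₀ ≤ K →
    ∀ (α : Type) (_ : DecidableEq α) (Ω : Fin s → Finset α) (p : Fin s → α → ℝ) (Y : Fin s → α → ℤ),
    (∀ i, TLaw b E c (2 * (U + 1 + s + 2) + 6) K (Ω i) (p i) (Y i)) → (∀ i, ∑ v ∈ Ω i, p i v = 1) →
    ∀ (C : Fin s → ℤ) (N : ℕ), b ^ K ≤ B * N → N ≤ b ^ K → (∀ i, C i ≠ 0 ∧ |C i| ≤ Q0) →
    (∀ i, ∀ v ∈ Ω i, |Y i v| + |C i| * (N + 1) < (b : ℤ) ^ K) → (∀ i, |C i| * (N + 1) < (b : ℤ) ^ K) →
    ∀ Ev : (Fin s → α) → Prop, ∀ _hdec : DecidablePred Ev,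
    (∀ ω ∈ Fintype.piFinset Ω, Ev ω → PosF C (fun i => Y i (ω i)) N ∧ AdmF C (fun i => Y i (ω i)) ∧
      ¬ HLC c₁ ε N C (fun i => Y i (ω i))) →
    ∑ ω ∈ Fintype.piFinset Ω, (if Ev ω then ∏ i, p i (ω i) else 0) ≤ 1 / (K : ℝ) ^ U := by
  classical
  obtain ⟨c₁, hc₁, hdet⟩ := detC s Q0 hs
  refine ⟨c₁, hc₁, fun b E c B U hb hE ε hε => ?_⟩
  have hbr : (2 : ℝ) ≤ b := by exact_mod_cast hb
  obtain ⟨B0, hB0⟩ := tl_diffsC s b E c B hb hE (U + 1)
  obtain ⟨E1, hE1⟩ : ∃ E1, E1 = B0 + 5 := ⟨_, rfl⟩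
  obtain ⟨k1, h1⟩ := hB0 (E1 + 1)
  obtain ⟨c0, hc0, n2, h2⟩ := hdet B E1 (by omega) ε hε
  obtain ⟨k3, h3⟩ := sizes b B 0 hb 2
  obtain ⟨k4, hk4⟩ := exists_nat_ge ((s : ℝ) * s + 4 ^ (U + 1) / c0)
  obtain ⟨k5, h5⟩ := tl_point b hb E c (U + 1) hE
  refine ⟨k1 + k3 + k4 + k5 + B * n2 + 1, fun K hK α hα Ω p Y hlaw hsum C N hN1 hN2 hC hY hCN Ev _ hEv => ?_⟩
  have hbn : 0 < b := by omega
  obtain ⟨hN0, a1, a2, a3, a4, a5⟩ := h3 K (by omega) N hN1 (by rw [add_zero]; exact hN2)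
  rw [add_zero] at a2 a3
  obtain ⟨L, hL⟩ : ∃ L, L = Real.log (N : ℝ) := ⟨_, rfl⟩
  rw [← hL] at a1 a3 a5
  have hL0 : 0 < L := by linarith
  have hNr : (0 : ℝ) < N := by exact_mod_cast hN0
  have hkb : K < b ^ K := Nat.lt_pow_self (by omega)
  have hNn2 : n2 ≤ N := by
    by_contra hcon
    push Not at hcon
    have : B * N ≤ B * n2 := Nat.mul_le_mul_left _ hcon.le
    omega
  -- the level
  obtain ⟨z, hz⟩ : ∃ z, z = ⌈L ^ E1⌉₊ := ⟨_, rfl⟩
  have hz1 : L ^ E1 ≤ z := by rw [hz]; exact Nat.le_ceil _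
  have hz2 : (z : ℝ) ≤ L ^ (E1 + 1) := by
    have q1 : (z : ℝ) < L ^ E1 + 1 := by rw [hz]; exact Nat.ceil_lt_add_one (by positivity)
    have q2 : 1 ≤ L ^ E1 := one_le_pow₀ (by linarith)
    rw [pow_succ]
    nlinarith
  have hz3 : L ^ B0 ≤ z := (pow_le_pow_right₀ (by linarith) (by omega)).trans hz1
  have hlX1 : (1 : ℝ) ≤ Real.log ((b ^ K : ℕ) : ℝ) := by linarith
  have hD := h1 K (by omega) α hα Ω p Y hlaw hsum C N hN1 hN2 (fun i => (hC i).1) hY hCN z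
    (by rw [← hL]; exact hz3) (by rw [← hL]; exact hz2)
    (fun _ => 1) (by
      intro n _
      rw [abs_one]
      exact hlX1)
  rw [← hL] at hD
  have hKr1 : (1 : ℝ) ≤ K := by exact_mod_cast (by omega : 1 ≤ K)
  have hKr0 : (0 : ℝ) < K := by linarith
  -- the degenerate vectors
  have hpp : ∀ m ∈ Fintype.piFinset Ω, 0 ≤ ∏ j, p j (m j) := fun m hm =>
    prod_nonneg fun j _ => (hlaw j).nonneg _ (Fintype.mem_piFinset.1 hm j)
  have hdeg : ∀ (i : Fin s) (g : (Fin s → α) → ℤ), (∀ m v, g (Function.update m i v) = g m) →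
      ∑ ω ∈ Fintype.piFinset Ω, (∏ i, p i (ω i)) * (if Y i (ω i) = g ω then (1 : ℝ) else 0) ≤ 1 / (K : ℝ) ^ (U + 1) := by
    intro i g hg
    have e1 := avg_w Ω p hsum i (fun ω => if Y i (ω i) = g ω then (1 : ℝ) else 0)
    rw [← e1]
    have e2 : ∀ m ∈ Fintype.piFinset Ω, (∏ j, p j (m j)) *
        ∑ v ∈ Ω i, p i v * (if Y i ((Function.update m i v) i) = g (Function.update m i v) then (1 : ℝ) else 0) ≤
        (∏ j, p j (m j)) * (1 / (K : ℝ) ^ (U + 1)) := by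
      intro m hm
      apply mul_le_mul_of_nonneg_left _ (hpp m hm)
      refine le_trans (le_of_eq ?_) (h5 K (by omega) α (Ω i) (p i) (Y i) ((hlaw i).mono (by omega) (by omega)) (g m))
      apply sum_congr rfl
      intro v _
      rw [Function.update_self, hg]
    refine (sum_le_sum e2).trans (le_of_eq ?_)
    rw [← sum_mul, total_w Ω p hsum, one_mul]
  have hdeg2 : ∀ i j : Fin s, ∑ ω ∈ Fintype.piFinset Ω, (∏ i, p i (ω i)) *
      (if j ≠ i ∧ Y i (ω i) = (C i * Y j (ω j)) / C j then (1 : ℝ) else 0) ≤ 1 / (K : ℝ) ^ (U + 1) := by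
    intro i j
    by_cases hij : j ≠ i
    · refine le_trans (le_of_eq ?_) (hdeg i (fun ω => (C i * Y j (ω j)) / C j) (fun m v => by
        rw [Function.update_of_ne hij]))
      apply sum_congr rfl
      intro ω _
      simp only [hij, true_and, ne_eq, not_false_eq_true]
    · simp only [hij, false_and, if_false, mul_zero, sum_const_zero]
      positivity
  obtain ⟨DD, hDD⟩ : ∃ DD : (Fin s → α) → ℝ, DD = fun ω => |∑ n ∈ Icc 1 N, (1 : ℝ) *
        (∏ i, lamI (C i * (n : ℤ) + Y i (ω i)) - ∏ i, lamzI z (C i * (n : ℤ) + Y i (ω i)))| := ⟨_, rfl⟩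
  have hDDr : ∀ ω, |∑ n ∈ Icc 1 N, (1 : ℝ) *
        (∏ i, lamI (C i * (n : ℤ) + Y i (ω i)) - ∏ i, lamzI z (C i * (n : ℤ) + Y i (ω i)))| = DD ω :=
    fun ω => by rw [hDD]
  simp only [hDDr] at hD
  obtain ⟨C', hC'⟩ : ∃ C' : ℝ, C' = 1 / (c0 * N) := ⟨_, rfl⟩
  have hC0 : 0 ≤ C' := by rw [hC']; positivity
  have hpt : ∀ ω ∈ Fintype.piFinset Ω, (if Ev ω then ∏ i, p i (ω i) else 0) ≤
      ∑ i : Fin s, ∑ j : Fin s, (∏ i, p i (ω i)) * (if j ≠ i ∧ Y i (ω i) = (C i * Y j (ω j)) / C j then (1 : ℝ) else 0) +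
      C' * ((∏ i, p i (ω i)) * DD ω) := by
    intro ω hω
    have hP0' := hpp ω hω
    obtain ⟨P, hP⟩ : ∃ P, P = ∏ i, p i (ω i) := ⟨_, rfl⟩
    rw [← hP] at hP0' ⊢
    have hDD0 : 0 ≤ DD ω := by rw [← hDDr]; exact abs_nonneg _
    have t2 : ∀ i ∈ (univ : Finset (Fin s)), ∀ j ∈ (univ : Finset (Fin s)),
        0 ≤ P * (if j ≠ i ∧ Y i (ω i) = (C i * Y j (ω j)) / C j then (1 : ℝ) else 0) :=
      fun i _ j _ => mul_nonneg hP0' (by split_ifs <;> norm_num)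
    have t2' := sum_nonneg fun i hi => sum_nonneg (t2 i hi)
    have t3 : 0 ≤ C' * (P * DD ω) := by positivity
    by_cases hEω : Ev ω
    swap
    · rw [if_neg hEω]
      linarith
    rw [if_pos hEω]
    obtain ⟨hpos, hadm, hnot⟩ := hEv ω hω hEω
    by_cases q3 : ∃ i j, j ≠ i ∧ Y i (ω i) = (C i * Y j (ω j)) / C j
    · obtain ⟨i, j, hij⟩ := q3
      have q2 := single_le_sum (f := fun j => P * (if j ≠ i ∧ Y i (ω i) = (C i * Y j (ω j)) / C j then (1 : ℝ) else 0))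
        (t2 i (mem_univ i)) (mem_univ j)
      have q4 := single_le_sum (f := fun i => ∑ j : Fin s, P * (if j ≠ i ∧ Y i (ω i) = (C i * Y j (ω j)) / C j then (1 : ℝ) else 0))
        (fun i hi => sum_nonneg (t2 i hi)) (mem_univ i)
      rw [if_pos hij, mul_one] at q2
      linarith
    push Not at q3
    -- the main case
    have hbe : ((b ^ K : ℕ) : ℤ) = (b : ℤ) ^ K := by push_cast; ring
    have q5 : c0 * N < DD ω := by
      by_contra hcon
      push Not at hcon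
      apply hnot
      apply h2 N hNn2 z (by rw [← hL]; exact hz1) (by rw [← hL]; exact hz2) C (fun i => Y i (ω i)) hC ?_ hpos hadm ?_ ?_
      · intro i
        have r1 := hY i (ω i) (Fintype.mem_piFinset.1 hω i)
        have r2 : (0 : ℤ) ≤ |C i| * (N + 1) := by positivity
        have r3 : (b : ℤ) ^ K ≤ (B : ℤ) * N := by rw [← hbe]; exact_mod_cast hN1
        linarith
      · intro i j hij h0
        apply q3 i j (Ne.symm hij)
        rw [h0, Int.mul_ediv_cancel_left _ (hC j).1]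
      · have e1 := hDDr ω
        simp only [one_mul] at e1
        rw [e1]
        exact hcon
    have q6 : 1 ≤ C' * DD ω := by
      rw [hC', one_div, ← div_eq_inv_mul, le_div_iff₀ (by positivity), one_mul]
      exact q5.le
    have q7 : P ≤ C' * (P * DD ω) := by
      calc P = P * 1 := (mul_one _).symm
        _ ≤ P * (C' * DD ω) := mul_le_mul_of_nonneg_left q6 hP0'
        _ = _ := by ring
    linarith
  refine (sum_le_sum hpt).trans ?_
  rw [sum_add_distrib, ← mul_sum]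
  have g2 : ∑ ω ∈ Fintype.piFinset Ω, ∑ i : Fin s, ∑ j : Fin s, (∏ i, p i (ω i)) *
      (if j ≠ i ∧ Y i (ω i) = (C i * Y j (ω j)) / C j then (1 : ℝ) else 0) ≤ (s * s) * (1 / (K : ℝ) ^ (U + 1)) := by
    rw [sum_comm]
    have g3 : ∀ i ∈ (univ : Finset (Fin s)), ∑ ω ∈ Fintype.piFinset Ω, ∑ j : Fin s, (∏ i, p i (ω i)) *
      (if j ≠ i ∧ Y i (ω i) = (C i * Y j (ω j)) / C j then (1 : ℝ) else 0) ≤ s * (1 / (K : ℝ) ^ (U + 1)) := by
      intro i _
      rw [sum_comm]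
      refine (sum_le_sum fun j _ => hdeg2 i j).trans (le_of_eq ?_)
      rw [sum_const, card_univ, Fintype.card_fin, nsmul_eq_mul]
    refine (sum_le_sum g3).trans (le_of_eq ?_)
    rw [sum_const, card_univ, Fintype.card_fin, nsmul_eq_mul]
    ring
  have g5 : C' * ∑ ω ∈ Fintype.piFinset Ω, (∏ i, p i (ω i)) * DD ω ≤ 4 ^ (U + 1) / c0 * (1 / (K : ℝ) ^ (U + 1)) := by
    calc C' * ∑ ω ∈ Fintype.piFinset Ω, (∏ i, p i (ω i)) * DD ω ≤ C' * (N / L ^ (U + 1)) := mul_le_mul_of_nonneg_left hD hC0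
      _ = 1 / c0 * (1 / L ^ (U + 1)) := by
          rw [hC']
          field_simp
      _ ≤ 1 / c0 * (4 ^ (U + 1) / (K : ℝ) ^ (U + 1)) := by
          apply mul_le_mul_of_nonneg_left _ (by positivity)
          rw [div_le_div_iff₀ (by positivity) (by positivity), one_mul, ← mul_pow]
          exact pow_le_pow_left₀ hKr0.le a5 _
      _ = _ := by field_simp
  have g6 : ((s : ℝ) * s + 4 ^ (U + 1) / c0) * (1 / (K : ℝ) ^ (U + 1)) ≤ 1 / (K : ℝ) ^ U := by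
    calc _ ≤ (K : ℝ) * (1 / (K : ℝ) ^ (U + 1)) := mul_le_mul_of_nonneg_right
          (hk4.trans (by exact_mod_cast (by omega : k4 ≤ K))) (by positivity)
      _ = _ := by rw [pow_succ]; field_simp
  rw [add_mul] at g6
  linarith

end Pool.Agent.Q259.AS
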