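import Pool.Agent.Q259.AS.Frm3
import Pool.Agent.Q259.AS.Rare2

set_option autoImplicit false

/-! Prime values of linear forms: from a net of windows to all windows. -/

namespace Pool.Agent.Q259.AS

open Finset
open Pool.Agent.Y820.LF (nuF singF AdmF cntF PosF)

/-- the constants after a shift of the variable -/
def shC {s : ℕ} (C H : Fin s → ℤ) (M : ℤ) : Fin s → ℤ := fun i => H i + C i * M

/-- the number of the `n` with `M < n ≤ M + N` for which all the values are primes -/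
noncomputable def cntW {s : ℕ} (C H : Fin s → ℤ) (M : ℤ) (N : ℕ) : ℕ :=
  ((Ioc M (M + N)).filter (fun n : ℤ => ∀ i, (C i * n + H i).toNat.Prime)).card

/-- the formula of Hardy and Littlewood for the window `(M, M + N]` -/
def HLW {s : ℕ} (ε : ℝ) (M : ℤ) (N : ℕ) (C H : Fin s → ℤ) : Prop :=
  ∃ G : ℝ, 0 < G ∧ Filter.Tendsto (singF C H) Filter.atTop (nhds G) ∧
    |(cntW C H M N : ℝ) - G * (N / Real.log N ^ s)| ≤ ε * (G * (N / Real.log N ^ s))

lemma nuF_sh {s : ℕ} (C H : Fin s → ℤ) (M : ℤ) (p : ℕ) (hp : 0 < p) : nuF C (shC C H M) p = nuF C H p := by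
  classical
  unfold nuF shC
  have hpz : (0 : ℤ) < p := by exact_mod_cast hp
  have key : ∀ (r : ℕ) (t : ℤ) (i : Fin s), (p : ℤ) ∣ C i * (((((r : ℤ) + t) % p).toNat : ℕ) : ℤ) + H i ↔
      (p : ℤ) ∣ C i * ((r : ℤ) + t) + H i := by
    intro r t i
    rw [Int.toNat_of_nonneg (Int.emod_nonneg _ hpz.ne')]
    have h1 : C i * (((r : ℤ) + t) % p) + H i = (C i * ((r : ℤ) + t) + H i) - C i * (((r : ℤ) + t) - ((r : ℤ) + t) % p) := by ring
    rw [h1]
    exact dvd_sub_left (Dvd.dvd.mul_left Int.dvd_self_sub_emod _)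
  have hlt : ∀ (r : ℕ) (t : ℤ), (((r : ℤ) + t) % p).toNat < p := by
    intro r t
    have h1 := Int.emod_lt_of_pos ((r : ℤ) + t) hpz
    have h2 := Int.emod_nonneg ((r : ℤ) + t) hpz.ne'
    omega
  apply card_bij' (fun (r : ℕ) _ => (((r : ℤ) + M) % p).toNat) (fun (r : ℕ) _ => (((r : ℤ) + -M) % p).toNat)
  · intro r hr
    rw [mem_filter, mem_range] at hr ⊢
    refine ⟨hlt _ _, ?_⟩
    obtain ⟨i, hi⟩ := hr.2
    refine ⟨i, (key r M i).2 ?_⟩
    have : C i * ((r : ℤ) + M) + H i = C i * (r : ℤ) + (H i + C i * M) := by ring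
    rw [this]
    exact hi
  · intro r hr
    rw [mem_filter, mem_range] at hr ⊢
    refine ⟨hlt _ _, ?_⟩
    obtain ⟨i, hi⟩ := hr.2
    refine ⟨i, ?_⟩
    rw [Int.toNat_of_nonneg (Int.emod_nonneg _ hpz.ne')]
    have h1 : C i * (((r : ℤ) + -M) % p) + (H i + C i * M) = (C i * (r : ℤ) + H i) - C i * (((r : ℤ) + -M) - ((r : ℤ) + -M) % p) := by ring
    rw [h1]
    exact dvd_sub hi (Dvd.dvd.mul_left Int.dvd_self_sub_emod _)
  · intro r hr
    rw [mem_filter, mem_range] at hr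
    rw [Int.toNat_of_nonneg (Int.emod_nonneg _ hpz.ne')]
    have h1 : (((r : ℤ) + M) % p + -M) % p = (r : ℤ) % p := by
      rw [Int.emod_add_emod]
      congr 1
      ring
    rw [h1, Int.emod_eq_of_lt (Int.natCast_nonneg _) (by exact_mod_cast hr.1)]
    rfl
  · intro r hr
    rw [mem_filter, mem_range] at hr
    rw [Int.toNat_of_nonneg (Int.emod_nonneg _ hpz.ne')]
    have h1 : (((r : ℤ) + -M) % p + M) % p = (r : ℤ) % p := by
      rw [Int.emod_add_emod]
      congr 1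
      ring
    rw [h1, Int.emod_eq_of_lt (Int.natCast_nonneg _) (by exact_mod_cast hr.1)]
    rfl

lemma singF_sh {s : ℕ} (C H : Fin s → ℤ) (M : ℤ) : singF C (shC C H M) = singF C H := by
  funext z
  unfold singF
  apply prod_congr rfl
  intro p hp
  rw [mem_filter] at hp
  rw [nuF_sh C H M p hp.2.pos]

lemma admF_sh {s : ℕ} (C H : Fin s → ℤ) (M : ℤ) (h : AdmF C H) : AdmF C (shC C H M) := by
  intro p hp
  rw [nuF_sh C H M p hp.pos]
  exact h p hp

lemma cntF_sh {s : ℕ} (C H : Fin s → ℤ) (M : ℤ) (N : ℕ) : cntF C (shC C H M) N = cntW C H M N := by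
  unfold cntF cntW shC
  apply card_bij (fun (n : ℕ) _ => M + (n : ℤ))
  · intro n hn
    rw [mem_filter, mem_Icc] at hn
    rw [mem_filter, mem_Ioc]
    refine ⟨⟨by omega, by omega⟩, fun i => ?_⟩
    have : C i * (M + (n : ℤ)) + H i = C i * (n : ℤ) + (H i + C i * M) := by ring
    rw [this]
    exact hn.2 i
  · intro n _ n' _ h
    omega
  · intro m hm
    rw [mem_filter, mem_Ioc] at hm
    refine ⟨(m - M).toNat, ?_, by omega⟩
    rw [mem_filter, mem_Icc]
    refine ⟨by omega, fun i => ?_⟩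
    have h1 : (((m - M).toNat : ℕ) : ℤ) = m - M := by omega
    have : C i * (((m - M).toNat : ℕ) : ℤ) + (H i + C i * M) = C i * m + H i := by rw [h1]; ring
    rw [this]
    exact hm.2 i

/-- comparison of two windows -/
lemma cntW_cmp {s : ℕ} (C H : Fin s → ℤ) (M M₀ : ℤ) (N N₀ : ℕ) (h1 : M ≤ M₀) (h2 : M₀ + N₀ ≤ M + N) :
    (cntW C H M₀ N₀ : ℝ) ≤ cntW C H M N ∧ (cntW C H M N : ℝ) ≤ cntW C H M₀ N₀ + (N - N₀) := by
  classical
  unfold cntW
  constructor
  · have : ((Ioc M₀ (M₀ + N₀)).filter (fun n : ℤ => ∀ i, (C i * n + H i).toNat.Prime)).card ≤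
      ((Ioc M (M + N)).filter (fun n : ℤ => ∀ i, (C i * n + H i).toNat.Prime)).card := by
      apply card_le_card
      intro n hn
      rw [mem_filter, mem_Ioc] at hn ⊢
      exact ⟨⟨by linarith [hn.1.1], by linarith [hn.1.2]⟩, hn.2⟩
    exact_mod_cast this
  · have h3 : (Ioc M (M + N)).filter (fun n : ℤ => ∀ i, (C i * n + H i).toNat.Prime) ⊆
        (Ioc M₀ (M₀ + N₀)).filter (fun n : ℤ => ∀ i, (C i * n + H i).toNat.Prime) ∪ (Ioc M (M + N) \ Ioc M₀ (M₀ + N₀)) := by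
      intro n hn
      rw [mem_union, mem_sdiff]
      by_cases h : n ∈ Ioc M₀ (M₀ + N₀)
      · left
        rw [mem_filter]
        exact ⟨h, (mem_filter.1 hn).2⟩
      · right
        exact ⟨(mem_filter.1 hn).1, h⟩
    have h4 := card_le_card h3
    have h5 := h4.trans (card_union_le _ _)
    have h6 : Ioc M₀ (M₀ + N₀) ⊆ Ioc M (M + N) := by
      intro n hn
      rw [mem_Ioc] at hn ⊢
      exact ⟨by linarith [hn.1], by linarith [hn.2]⟩
    rw [card_sdiff_of_subset h6, Int.card_Ioc, Int.card_Ioc] at h5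
    have h7 : (M + (N : ℤ) - M).toNat = N := by omega
    have h8 : (M₀ + (N₀ : ℤ) - M₀).toNat = N₀ := by omega
    rw [h7, h8] at h5
    have h9 : N₀ ≤ N := by omega
    have h10 : ((N - N₀ : ℕ) : ℝ) = (N : ℝ) - N₀ := by push_cast [h9]; ring
    rw [← h10]
    exact_mod_cast h5

/-- positivity on a smaller window -/
lemma pos_sub {s : ℕ} (C H : Fin s → ℤ) (M M₀ : ℤ) (N N₀ : ℕ) (h1 : M ≤ M₀) (h2 : M₀ + N₀ ≤ M + N) (hN₀ : 1 ≤ N₀)
    (h : PosF C (shC C H M) N) : PosF C (shC C H M₀) N₀ := by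
  intro i
  obtain ⟨h3, h4⟩ := h i
  unfold shC at h3 h4 ⊢
  have h5 : (1 : ℤ) ≤ N₀ := by exact_mod_cast hN₀
  rcases le_total 0 (C i) with h6 | h6
  · constructor
    · nlinarith [mul_le_mul_of_nonneg_left h1 h6]
    · nlinarith [mul_le_mul_of_nonneg_left h1 h6, mul_le_mul_of_nonneg_left h5 h6]
  · constructor
    · have : C i * (M₀ + 1) ≥ C i * (M + N) := mul_le_mul_of_nonpos_left (by linarith) h6
      nlinarith
    · have : C i * (M₀ + N₀) ≥ C i * (M + N) := mul_le_mul_of_nonpos_left h2 h6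
      nlinarith

end Pool.Agent.Q259.AS
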