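import Pool.Agent.Q259.AS.Frm4

set_option autoImplicit false

/-! Prime values of linear forms: from a net of windows to all windows, the deterministic part. -/

namespace Pool.Agent.Q259.AS

open Finset
open Pool.Agent.Y820.LF (nuF singF AdmF cntF PosF)

lemma one_add_pow_le (s : ℕ) (η : ℝ) (h0 : 0 ≤ η) (h1 : η ≤ 1) : (1 + η) ^ s ≤ 1 + 3 ^ s * η := by
  induction s with
  | zero => simp [h0]
  | succ s ih =>
    have h3 : (1 : ℝ) ≤ 3 ^ s := one_le_pow₀ (by norm_num)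
    calc (1 + η) ^ (s + 1) = (1 + η) ^ s * (1 + η) := pow_succ _ _
      _ ≤ (1 + 3 ^ s * η) * (1 + η) := mul_le_mul_of_nonneg_right ih (by linarith)
      _ = 1 + η * (1 + 3 ^ s + 3 ^ s * η) := by ring
      _ ≤ 1 + η * (3 * 3 ^ s) := by
          have : (3 : ℝ) ^ s * η ≤ 3 ^ s := mul_le_of_le_one_right (by linarith) h1
          have h4 : (1 : ℝ) + 3 ^ s + 3 ^ s * η ≤ 3 * 3 ^ s := by linarith
          have := mul_le_mul_of_nonneg_left h4 h0
          linarith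
      _ = 1 + 3 ^ (s + 1) * η := by rw [pow_succ]; ring

/-- from a net of windows to all windows -/
lemma netC (s B₁ V b : ℕ) (hB₁ : 1 ≤ B₁) (hV : s + 1 ≤ V) (hb : 2 ≤ b) (c₁ ε δ : ℝ) (hc₁ : 0 < c₁) (hδ : 0 < δ)
    (hδ1 : δ ≤ 1) (hδε : 4 * δ ≤ ε) :
    ∃ K₀ : ℕ, ∀ K X : ℕ, K₀ ≤ K → K ^ V * 4 ≤ X → 2 * B₁ * X ≤ b ^ K → (∀ N : ℕ, X ≤ 2 * B₁ * N → K₀ ≤ N) →
      ∀ (C H : Fin s → ℤ) (M : ℤ) (N : ℕ), |M| ≤ B₁ * X → N ≤ B₁ * X → X ≤ B₁ * N → PosF C (shC C H M) N →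
      (∀ (j : ℤ) (l : ℕ), |j| ≤ 2 * B₁ * K ^ V → l ≤ B₁ * K ^ V → X ≤ 2 * B₁ * (l * (X / K ^ V + 1)) →
        l * (X / K ^ V + 1) ≤ B₁ * X → |j * ((X / K ^ V + 1 : ℕ) : ℤ)| ≤ 2 * B₁ * X →
        PosF C (shC C H (j * ((X / K ^ V + 1 : ℕ) : ℤ))) (l * (X / K ^ V + 1)) →
        HLC c₁ δ (l * (X / K ^ V + 1)) C (shC C H (j * ((X / K ^ V + 1 : ℕ) : ℤ)))) →
      HLW ε M N C H := by
  have hb1 : (1 : ℝ) < b := by exact_mod_cast (by omega : 1 < b)
  have hl0 : 0 < Real.log b := Real.log_pos hb1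
  obtain ⟨η, hη⟩ : ∃ η : ℝ, η = δ / 3 ^ s := ⟨_, rfl⟩
  have h3s : (1 : ℝ) ≤ 3 ^ s := one_le_pow₀ (by norm_num)
  have hη0 : 0 < η := by rw [hη]; positivity
  have hη1 : η ≤ 1 := by
    rw [hη]
    exact (div_le_self hδ.le h3s).trans hδ1
  have hηs : (1 + η) ^ s ≤ 1 + δ := by
    refine (one_add_pow_le s η hη0.le hη1).trans (le_of_eq ?_)
    rw [hη]
    field_simp
  obtain ⟨n₁, hn₁⟩ := exists_nat_ge (Real.exp (1 / η + 1))
  obtain ⟨n₂, hn₂⟩ := exists_nat_ge (4 * B₁ * Real.log b ^ s / (δ * c₁) + 4 * B₁ / δ)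
  refine ⟨n₁ + n₂ + 8 * B₁ + 4, fun K X hK hX hXb hlarge C H M N hM hN1 hN2 hP hnet => ?_⟩
  have hB₁r : (1 : ℝ) ≤ B₁ := by exact_mod_cast hB₁
  have hB₁r0 : (0 : ℝ) < B₁ := by linarith
  have hK4 : (4 : ℝ) ≤ K := by exact_mod_cast (by omega : 4 ≤ K)
  have hK1 : (1 : ℝ) ≤ K := by linarith
  have hK0 : (0 : ℝ) < K := by linarith
  have hKV1 : (K : ℝ) ≤ (K : ℝ) ^ V := by
    calc (K : ℝ) = (K : ℝ) ^ 1 := (pow_one _).symm
      _ ≤ _ := pow_le_pow_right₀ hK1 (by omega)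
  have hKV0 : 0 < K ^ V := Nat.pow_pos (by omega)
  have hKV0r : (0 : ℝ) < (K : ℝ) ^ V := by positivity
  have hXr : (K : ℝ) ^ V * 4 ≤ X := by exact_mod_cast hX
  have hX0 : (0 : ℝ) < X := by linarith
  obtain ⟨D, hD⟩ : ∃ D, D = X / K ^ V + 1 := ⟨_, rfl⟩
  rw [← hD] at hnet
  have hD1 : 1 ≤ D := by rw [hD]; exact Nat.le_add_left 1 _
  have hDle : (D : ℝ) ≤ 2 * (X / (K : ℝ) ^ V) := by
    have e1 : ((X / K ^ V : ℕ) : ℝ) ≤ (X : ℝ) / (K : ℝ) ^ V := by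
      have := @Nat.cast_div_le ℝ _ _ _ X (K ^ V)
      push_cast at this
      exact this
    have e2 : (1 : ℝ) ≤ X / (K : ℝ) ^ V := by
      rw [le_div_iff₀ hKV0r]
      linarith
    rw [hD]
    push_cast
    linarith
  have hDgtn : X < K ^ V * D := by
    rw [hD]
    exact Nat.lt_mul_div_succ X hKV0
  have hDgt : (X : ℝ) < (K : ℝ) ^ V * D := by exact_mod_cast hDgtn
  have hN1r : (N : ℝ) ≤ B₁ * X := by exact_mod_cast hN1
  have hN2r : (X : ℝ) ≤ B₁ * N := by exact_mod_cast hN2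
  have hn₂K : (n₂ : ℝ) ≤ K := by exact_mod_cast (by omega : n₂ ≤ K)
  have hcoef1 : 4 * B₁ * Real.log b ^ s / (δ * c₁) ≤ K := by
    have : 0 ≤ 4 * (B₁ : ℝ) / δ := by positivity
    linarith
  have hcoef2 : 4 * (B₁ : ℝ) / δ ≤ K := by
    have : 0 ≤ 4 * B₁ * Real.log b ^ s / (δ * c₁) := by positivity
    linarith
  have hD0r : (0 : ℝ) < D := by exact_mod_cast hD1
  have hDN : 2 * (D : ℝ) ≤ δ * N := by
    have e1 : (D : ℝ) * K ≤ 2 * X := by
      have f1 : (D : ℝ) * (K : ℝ) ^ V ≤ 2 * X := by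
        have := mul_le_mul_of_nonneg_right hDle hKV0r.le
        have e : 2 * ((X : ℝ) / (K : ℝ) ^ V) * (K : ℝ) ^ V = 2 * X := by field_simp
        rw [e] at this
        exact this
      exact (mul_le_mul_of_nonneg_left hKV1 hD0r.le).trans f1
    have e2 : 4 * (B₁ : ℝ) ≤ δ * K := by
      rw [div_le_iff₀ hδ] at hcoef2
      linarith
    have e3 : (D : ℝ) * (4 * B₁) ≤ δ * (2 * (B₁ * N)) := by
      calc (D : ℝ) * (4 * B₁) ≤ D * (δ * K) := mul_le_mul_of_nonneg_left e2 hD0r.le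
        _ = δ * (D * K) := by ring
        _ ≤ δ * (2 * X) := mul_le_mul_of_nonneg_left e1 hδ.le
        _ ≤ δ * (2 * (B₁ * N)) := mul_le_mul_of_nonneg_left (by linarith) hδ.le
    have e4 : (2 * (D : ℝ)) * (2 * B₁) ≤ (δ * N) * (2 * B₁) := by linarith
    exact le_of_mul_le_mul_right e4 (by positivity)
  have hDN1 : 2 * (D : ℝ) ≤ N := by
    have : δ * (N : ℝ) ≤ N := mul_le_of_le_one_left (Nat.cast_nonneg _) hδ1
    linarith
  have hDX : 8 * (B₁ : ℝ) * D ≤ 2 * X := by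
    have e1 : 8 * (B₁ : ℝ) ≤ (K : ℝ) ^ V := by
      have : (8 * B₁ : ℝ) ≤ K := by exact_mod_cast (by omega : 8 * B₁ ≤ K)
      linarith
    calc 8 * (B₁ : ℝ) * D ≤ (K : ℝ) ^ V * D := mul_le_mul_of_nonneg_right e1 hD0r.le
      _ ≤ (K : ℝ) ^ V * (2 * (X / (K : ℝ) ^ V)) := mul_le_mul_of_nonneg_left hDle hKV0r.le
      _ = 2 * X := by field_simp
  have hDXn : 8 * B₁ * D ≤ 2 * X := by exact_mod_cast hDX
  have hDXn' : D ≤ X := by
    have h1 : 8 * D ≤ 8 * B₁ * D := Nat.mul_le_mul_right _ (by omega)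
    omega
  -- the net window
  obtain ⟨j, hj⟩ : ∃ j : ℤ, j = -((-M) / (D : ℤ)) := ⟨_, rfl⟩
  have hDz : (0 : ℤ) < D := by exact_mod_cast hD1
  have hj1 : M ≤ j * D := by
    have h1 := Int.mul_ediv_add_emod (-M) (D : ℤ)
    have h2 := Int.emod_nonneg (-M) hDz.ne'
    rw [hj]
    linarith
  have hj2 : j * D < M + D := by
    have h1 := Int.mul_ediv_add_emod (-M) (D : ℤ)
    have h2 := Int.emod_lt_of_pos (-M) hDz
    rw [hj]
    linarith
  have hDNn : 2 * D ≤ N := by exact_mod_cast hDN1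
  have hrest : 0 ≤ M + N - j * D := by
    have : (2 * D : ℤ) ≤ N := by exact_mod_cast hDNn
    linarith
  obtain ⟨l, hl⟩ : ∃ l : ℕ, l = (M + N - j * D).toNat / D := ⟨_, rfl⟩
  have hrn : (((M + N - j * D).toNat : ℕ) : ℤ) = M + N - j * D := Int.toNat_of_nonneg hrest
  have hl1 : l * D ≤ (M + N - j * D).toNat := by rw [hl]; exact Nat.div_mul_le_self _ _
  have hl2 : (M + N - j * D).toNat < l * D + D := by
    rw [hl]
    have := Nat.lt_mul_div_succ (M + N - j * D).toNat hD1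
    calc (M + N - j * D).toNat < D * ((M + N - j * D).toNat / D + 1) := this
      _ = _ := by ring
  have hl1z : j * D + ((l * D : ℕ) : ℤ) ≤ M + N := by
    have : ((l * D : ℕ) : ℤ) ≤ (((M + N - j * D).toNat : ℕ) : ℤ) := by exact_mod_cast hl1
    linarith
  have hl2z : M + N < j * D + ((l * D : ℕ) : ℤ) + D := by
    have : (((M + N - j * D).toNat : ℕ) : ℤ) < ((l * D + D : ℕ) : ℤ) := by exact_mod_cast hl2
    push_cast at this ⊢
    linarith
  have hlN : l * D ≤ N := by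
    have : ((l * D : ℕ) : ℤ) ≤ N := by linarith
    exact_mod_cast this
  have hNl : N < l * D + 2 * D := by
    have : (N : ℤ) < ((l * D + 2 * D : ℕ) : ℤ) := by push_cast at hl2z ⊢; linarith
    exact_mod_cast this
  obtain ⟨N₀, hN₀⟩ : ∃ N₀, N₀ = l * D := ⟨_, rfl⟩
  have hNlr : (N : ℝ) < N₀ + 2 * D := by rw [hN₀]; exact_mod_cast hNl
  have hlNr : (N₀ : ℝ) ≤ N := by rw [hN₀]; exact_mod_cast hlN
  have hXN₀ : X ≤ 2 * B₁ * N₀ := by
    have e1 : (X : ℝ) ≤ 2 * B₁ * N₀ := by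
      have e2 : (B₁ : ℝ) * N ≤ B₁ * (N₀ + 2 * D) := mul_le_mul_of_nonneg_left hNlr.le hB₁r0.le
      have e3 : 4 * (B₁ : ℝ) * D ≤ X := by linarith
      linarith
    exact_mod_cast e1
  have hN₀large : n₁ + n₂ + 8 * B₁ + 4 ≤ N₀ := hlarge N₀ hXN₀
  have hMX : M ≤ B₁ * X ∧ -(B₁ * X : ℤ) ≤ M := by
    have h1 := abs_le.1 hM
    exact ⟨h1.2, h1.1⟩
  have hDXz : (D : ℤ) ≤ X := by exact_mod_cast hDXn'
  have hB₁z : (1 : ℤ) ≤ B₁ := by exact_mod_cast hB₁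
  have hX0z : (0 : ℤ) < X := by exact_mod_cast hX0
  have hjD : |j * (D : ℤ)| ≤ 2 * B₁ * X := by
    have hBX : (X : ℤ) ≤ B₁ * X := le_mul_of_one_le_left hX0z.le hB₁z
    rw [abs_le]
    constructor
    · linarith
    · linarith
  have hjle : |j| ≤ 2 * B₁ * K ^ V := by
    have h1 : |j| * D ≤ (2 * B₁ * K ^ V) * D := by
      rw [abs_mul, abs_of_pos hDz] at hjD
      have h2 : (X : ℤ) ≤ K ^ V * D := by exact_mod_cast hDgtn.le
      calc |j| * D ≤ 2 * B₁ * X := hjD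
        _ ≤ 2 * B₁ * (K ^ V * D) := mul_le_mul_of_nonneg_left h2 (by positivity)
        _ = _ := by ring
    exact le_of_mul_le_mul_right h1 hDz
  have hlle : l ≤ B₁ * K ^ V := by
    have h1 : l * D ≤ (B₁ * K ^ V) * D := by
      calc l * D ≤ N := hlN
        _ ≤ B₁ * X := hN1
        _ ≤ B₁ * (K ^ V * D) := Nat.mul_le_mul_left _ hDgtn.le
        _ = _ := by ring
    exact Nat.le_of_mul_le_mul_right h1 hD1
  have hN₀1 : 1 ≤ N₀ := by omega
  rw [← hN₀] at hl1z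
  obtain ⟨G, hG1, hG2, hG3⟩ := hnet j l hjle hlle (by rw [← hN₀]; exact hXN₀) (hlN.trans hN1) hjD
    (by rw [← hN₀]; exact pos_sub C H M (j * D) N N₀ hj1 hl1z hN₀1 hP)
  rw [← hN₀] at hG3
  rw [singF_sh] at hG2
  rw [cntF_sh] at hG3
  have hG0 : 0 < G := by linarith
  obtain ⟨hc1, hc2⟩ := cntW_cmp C H M (j * D) N N₀ hj1 hl1z
  refine ⟨G, hG0, hG2, ?_⟩
  -- logarithms
  have hN₀r : (4 : ℝ) ≤ N₀ := by exact_mod_cast (by omega : 4 ≤ N₀)
  have hlogN₀ : 1 / η + 1 ≤ Real.log N₀ := by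
    rw [Real.le_log_iff_exp_le (by linarith)]
    refine hn₁.trans ?_
    exact_mod_cast (by omega : n₁ ≤ N₀)
  have hη2 : 0 < 1 / η := by positivity
  have hlN₀0 : 0 < Real.log (N₀ : ℝ) := by linarith
  have hlogle : Real.log (N₀ : ℝ) ≤ Real.log N := Real.log_le_log (by linarith) hlNr
  have hlN0 : 0 < Real.log (N : ℝ) := by linarith
  have hN2N₀ : (N : ℝ) ≤ 2 * N₀ := by
    have : 4 * (D : ℝ) ≤ N := by
      have e1 : 8 * (B₁ : ℝ) * D ≤ 2 * (B₁ * N) := by linarith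
      have e2 : (4 * (D : ℝ)) * (2 * B₁) ≤ N * (2 * B₁) := by linarith
      exact le_of_mul_le_mul_right e2 (by positivity)
    linarith
  have hloggt : Real.log (N : ℝ) ≤ (1 + η) * Real.log N₀ := by
    have e1 : Real.log (N : ℝ) ≤ Real.log 2 + Real.log N₀ := by
      rw [← Real.log_mul (by norm_num) (by linarith)]
      exact Real.log_le_log (by linarith) hN2N₀
    have e2 := Real.log_two_lt_d9
    have e3 : 1 ≤ η * Real.log N₀ := by
      have := mul_le_mul_of_nonneg_left hlogN₀ hη0.le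
      rw [mul_add, mul_one_div_cancel hη0.ne'] at this
      linarith
    linarith
  obtain ⟨T, hT⟩ : ∃ T, T = G * ((N : ℝ) / Real.log N ^ s) := ⟨_, rfl⟩
  obtain ⟨T₀, hT₀⟩ : ∃ T₀, T₀ = G * ((N₀ : ℝ) / Real.log N₀ ^ s) := ⟨_, rfl⟩
  rw [← hT₀] at hG3
  rw [← hT]
  have hNpos : (0 : ℝ) < N := by linarith
  have hT0 : 0 < T := by rw [hT]; positivity
  have hT1 : T₀ ≤ (1 + δ) * T := by
    rw [hT₀, hT, mul_left_comm]
    apply mul_le_mul_of_nonneg_left _ hG0.le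
    rw [mul_div_assoc', div_le_div_iff₀ (by positivity) (by positivity)]
    have e1 : Real.log (N : ℝ) ^ s ≤ (1 + δ) * Real.log N₀ ^ s := by
      calc Real.log (N : ℝ) ^ s ≤ ((1 + η) * Real.log N₀) ^ s := pow_le_pow_left₀ hlN0.le hloggt s
        _ = (1 + η) ^ s * Real.log N₀ ^ s := mul_pow _ _ _
        _ ≤ _ := mul_le_mul_of_nonneg_right hηs (by positivity)
    calc (N₀ : ℝ) * Real.log N ^ s ≤ N * ((1 + δ) * Real.log N₀ ^ s) := mul_le_mul hlNr e1 (by positivity) hNpos.le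
      _ = _ := by ring
  have hT2 : (1 - δ) * T ≤ T₀ := by
    rw [hT₀, hT, mul_left_comm]
    apply mul_le_mul_of_nonneg_left _ hG0.le
    rw [mul_div_assoc']
    apply div_le_div₀ (by linarith) (by nlinarith) (by positivity)
    exact pow_le_pow_left₀ hlN₀0.le hlogle s
  have hT3 : 2 * (D : ℝ) ≤ δ * T := by
    have e1 : c₁ * ((N : ℝ) / Real.log N ^ s) ≤ T := by
      rw [hT]
      exact mul_le_mul_of_nonneg_right hG1 (by positivity)
    refine le_trans ?_ (mul_le_mul_of_nonneg_left e1 hδ.le)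
    have hNb : (N : ℝ) ≤ (b : ℝ) ^ K := by
      have : N ≤ b ^ K := by
        calc N ≤ B₁ * X := hN1
          _ ≤ 2 * B₁ * X := Nat.mul_le_mul_right _ (by omega)
          _ ≤ b ^ K := hXb
      exact_mod_cast this
    have hlogK : Real.log (N : ℝ) ≤ K * Real.log b := by
      rw [← Real.log_pow]
      exact Real.log_le_log hNpos hNb
    have e2 : Real.log (N : ℝ) ^ s ≤ (K : ℝ) ^ s * Real.log b ^ s := by
      rw [← mul_pow]
      exact pow_le_pow_left₀ hlN0.le hlogK s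
    rw [← mul_assoc, mul_div_assoc', le_div_iff₀ (by positivity)]
    have e3 : 2 * (D : ℝ) * Real.log N ^ s ≤ 4 * (X / (K : ℝ) ^ V) * ((K : ℝ) ^ s * Real.log b ^ s) := by
      apply mul_le_mul (by linarith) e2 (by positivity) (by positivity)
    refine e3.trans ?_
    have e4 : 4 * B₁ * Real.log b ^ s ≤ δ * c₁ * K := by
      rw [div_le_iff₀ (by positivity)] at hcoef1
      linarith
    have e5 : (K : ℝ) ^ s * K ≤ (K : ℝ) ^ V := by
      rw [← pow_succ]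
      exact pow_le_pow_right₀ hK1 hV
    have e6 : 4 * (X / (K : ℝ) ^ V) * ((K : ℝ) ^ s * Real.log b ^ s) = (4 * X * ((K : ℝ) ^ s * Real.log b ^ s)) / (K : ℝ) ^ V := by
      field_simp
    rw [e6, div_le_iff₀ hKV0r]
    calc 4 * X * ((K : ℝ) ^ s * Real.log b ^ s) ≤ 4 * (B₁ * N) * ((K : ℝ) ^ s * Real.log b ^ s) :=
          mul_le_mul_of_nonneg_right (by linarith) (by positivity)
      _ = N * (K : ℝ) ^ s * (4 * B₁ * Real.log b ^ s) := by ring
      _ ≤ N * (K : ℝ) ^ s * (δ * c₁ * K) := mul_le_mul_of_nonneg_left e4 (by positivity)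
      _ = δ * c₁ * N * ((K : ℝ) ^ s * K) := by ring
      _ ≤ δ * c₁ * N * (K : ℝ) ^ V := mul_le_mul_of_nonneg_left e5 (by positivity)
  have hT₀0 : 0 < T₀ := by rw [hT₀]; positivity
  rw [abs_le] at hG3 ⊢
  constructor
  · have e1 : (1 - δ) * T₀ ≤ cntW C H (j * D) N₀ := by linarith [hG3.1]
    have e2 : (1 - δ) * ((1 - δ) * T) ≤ (1 - δ) * T₀ := mul_le_mul_of_nonneg_left hT2 (by linarith)
    nlinarith
  · have e1 : (cntW C H (j * D) N₀ : ℝ) ≤ (1 + δ) * T₀ := by linarith [hG3.2]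
    have e2 : (1 + δ) * T₀ ≤ (1 + δ) * ((1 + δ) * T) := mul_le_mul_of_nonneg_left hT1 (by linarith)
    have e3 : (N : ℝ) - N₀ ≤ 2 * D := by linarith
    nlinarith

end Pool.Agent.Q259.AS
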