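import Pool.Agent.Q259.AS.Frm5
import Pool.Agent.Q259.AS.One

set_option autoImplicit false

/-! Prime values of linear forms with typical constants: the exceptional sets are rarely met. -/

namespace Pool.Agent.Q259.AS

open Finset MeasureTheory Filter
open Pool.Agent.Y885 (TLaw)
open Pool.Agent.Y820.LF (nuF singF AdmF cntF PosF)

/-- the exceptional vectors of constants -/
def BadF (s Q0 B₁ : ℕ) (ε : ℝ) (X : ℕ) : Set (Fin s → ℤ) :=
  {H | ∃ C : Fin s → ℤ, (∀ i, C i ≠ 0 ∧ |C i| ≤ Q0) ∧ AdmF C H ∧ ∃ (M : ℤ) (N : ℕ), |M| ≤ B₁ * X ∧ N ≤ B₁ * X ∧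
    X ≤ B₁ * N ∧ PosF C (shC C H M) N ∧ ¬ HLW ε M N C H}

set_option maxHeartbeats 8000000 in
theorem eng_forms (s Q0 B₁ : ℕ) (hs : 1 ≤ s) (hB₁ : 1 ≤ B₁) (ε : ℝ) (hε : 0 < ε) :
    EngT s ℕ (fun X => 8 * (Q0 + 1) * (B₁ + 1) * X) (BadF s Q0 B₁ ε) := by
  classical
  intro b E hb hE c k₀ B U₁
  obtain ⟨δ, hδ⟩ : ∃ δ, δ = min (ε / 4) 1 := ⟨_, rfl⟩
  have hδ0 : 0 < δ := by rw [hδ]; positivity
  have hδ1 : δ ≤ 1 := by rw [hδ]; exact min_le_right _ _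
  have hδε : 4 * δ ≤ ε := by
    have := min_le_left (ε / 4) 1
    rw [← hδ] at this
    linarith
  obtain ⟨V, hV⟩ : ∃ V, V = s + 1 := ⟨_, rfl⟩
  obtain ⟨Up, hUp⟩ : ∃ Up, Up = U₁ + 2 * V + 1 := ⟨_, rfl⟩
  obtain ⟨κ, hκ⟩ : ∃ κ, κ = 8 * (Q0 + 1) * (B₁ + 1) := ⟨_, rfl⟩
  have hκ1 : 1 ≤ κ := by rw [hκ]; exact Nat.mul_pos (Nat.mul_pos (by norm_num) (Nat.succ_pos _)) (Nat.succ_pos _)
  obtain ⟨c₁, hc₁, hforms⟩ := tl_forms s Q0 hs
  obtain ⟨K₀, h0⟩ := hforms b E (c (2 * (Up + 1 + s + 2) + 6)) (B * κ * (2 * B₁)) Up hb hE δ hδ0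
  obtain ⟨K₂, h2⟩ := netC s B₁ V b hB₁ hV.ge hb c₁ ε δ hc₁ hδ0 hδ1 hδε
  obtain ⟨K₃, h3⟩ := pow_ev (V + 1) b hb
  obtain ⟨Z, hZ⟩ : ∃ Z, Z = (2 * Q0 + 1) ^ s * (10 * B₁ ^ 2) := ⟨_, rfl⟩
  refine ⟨K₀ + K₂ + K₃ + k₀ (2 * (Up + 1 + s + 2) + 6) + B * κ * (2 * B₁) * (K₂ + 4) + B * κ + 4 * B₁ + Z + 4, fun K hK S w hw hS X hX1 hX2 => ?_⟩
  simp only [← hκ] at hX1 hX2
  have hKb : K < b ^ K := Nat.lt_pow_self (by omega)
  have hb3 : 8 ≤ b ^ 3 := by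
    have : 2 ^ 3 ≤ b ^ 3 := Nat.pow_le_pow_left hb 3
    omega
  have hb8 : (8 : ℤ) ≤ (b : ℤ) ^ 3 := by exact_mod_cast hb3
  have hK1 : (1 : ℝ) ≤ K := by exact_mod_cast (by omega : 1 ≤ K)
  have hK0 : (0 : ℝ) < K := by linarith
  have hKV0 : 0 < K ^ V := Nat.pow_pos (by omega)
  -- large
  have hXlarge : K ^ V * 4 ≤ X := by
    have e1 := h3 K (by omega)
    have e2 : 4 * b ^ 3 * K ^ (V + 1) ≤ B * κ * X := by
      calc 4 * b ^ 3 * K ^ (V + 1) ≤ b ^ K := e1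
        _ ≤ B * (κ * X) := hX1
        _ = _ := by ring
    have e3 : B * κ ≤ K := by omega
    have e4 : 4 * b ^ 3 * K ^ (V + 1) ≤ K * X := e2.trans (Nat.mul_le_mul_right _ e3)
    have e5 : K * (K ^ V * 4) ≤ K * X := by
      calc K * (K ^ V * 4) = 4 * 1 * K ^ (V + 1) := by rw [pow_succ]; ring
        _ ≤ 4 * b ^ 3 * K ^ (V + 1) := Nat.mul_le_mul_right _ (Nat.mul_le_mul_left _ (by omega))
        _ ≤ K * X := e4
    exact Nat.le_of_mul_le_mul_left e5 (by omega)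
  have hX0 : 1 ≤ X := by omega
  have hNlarge : ∀ N : ℕ, X ≤ 2 * B₁ * N → K₂ ≤ N := by
    intro N hN
    by_contra hcon
    push Not at hcon
    have e1 : B * (κ * X) ≤ B * (κ * (2 * B₁ * K₂)) :=
      Nat.mul_le_mul_left _ (Nat.mul_le_mul_left _ (hN.trans (Nat.mul_le_mul_left _ hcon.le)))
    have e2 : B * (κ * (2 * B₁ * K₂)) ≤ B * κ * (2 * B₁) * (K₂ + 4) := by
      calc B * (κ * (2 * B₁ * K₂)) = B * κ * (2 * B₁) * K₂ := by ring
        _ ≤ _ := Nat.mul_le_mul_left _ (by omega)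
    omega
  obtain ⟨P, hP⟩ : ∃ P : ℕ, P = (Q0 + 1) * (B₁ + 1) * X := ⟨_, rfl⟩
  have hκP : κ * X = 8 * P := by rw [hκ, hP]; ring
  have h64 : 64 * P ≤ b ^ K := by
    calc 64 * P = 8 * (κ * X) := by rw [hκP]; ring
      _ ≤ b ^ 3 * (κ * X) := Nat.mul_le_mul_right _ hb3
      _ ≤ b ^ K := hX2
  have h2BX : 2 * B₁ * X ≤ b ^ K := by
    have : 2 * B₁ * X ≤ 64 * P := by
      rw [hP]
      calc 2 * B₁ * X ≤ 64 * (1 * (B₁ + 1) * X) := by nlinarith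
        _ ≤ 64 * ((Q0 + 1) * (B₁ + 1) * X) := by gcongr; omega
    omega
  obtain ⟨D, hD⟩ : ∃ D, D = X / K ^ V + 1 := ⟨_, rfl⟩
  have hnet := h2 K X (by omega) hXlarge h2BX hNlarge
  rw [← hD] at hnet
  -- the events
  obtain ⟨Ev, hEvdef⟩ : ∃ Ev : (Fin s → ℤ) → ℤ → ℕ → (Fin s → ℤ) → Prop, Ev = fun C j l h =>
      (∀ i, C i ≠ 0 ∧ |C i| ≤ (Q0 : ℤ)) ∧ X ≤ 2 * B₁ * (l * D) ∧ l * D ≤ B₁ * X ∧ |j * (D : ℤ)| ≤ 2 * B₁ * X ∧
        AdmF C h ∧ PosF C (shC C h (j * D)) (l * D) ∧ ¬ HLC c₁ δ (l * D) C (shC C h (j * D)) := ⟨_, rfl⟩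
  have hEv : ∀ (C : Fin s → ℤ) (j : ℤ) (l : ℕ) (h : Fin s → ℤ), Ev C j l h ↔ (∀ i, C i ≠ 0 ∧ |C i| ≤ (Q0 : ℤ)) ∧ X ≤ 2 * B₁ * (l * D) ∧ l * D ≤ B₁ * X ∧
      |j * (D : ℤ)| ≤ 2 * B₁ * X ∧ AdmF C h ∧ PosF C (shC C h (j * D)) (l * D) ∧
      ¬ HLC c₁ δ (l * D) C (shC C h (j * D)) := by
    intro C j l h
    rw [hEvdef]
  have hone : ∀ (C : Fin s → ℤ) (j : ℤ) (l : ℕ), ∑ h ∈ Fintype.piFinset S,
      (if Ev C j l h then ∏ i, w i (h i) else 0) ≤ 1 / (K : ℝ) ^ Up := by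
    intro C j l
    by_cases hj : (∀ i, C i ≠ 0 ∧ |C i| ≤ Q0) ∧ X ≤ 2 * B₁ * (l * D) ∧ l * D ≤ B₁ * X ∧ |j * (D : ℤ)| ≤ 2 * B₁ * X
    · obtain ⟨hC, hj1, hj2, hj3⟩ := hj
      have hPz : (64 : ℤ) * P ≤ (b : ℤ) ^ K := by exact_mod_cast h64
      have hP0 : (1 : ℤ) ≤ P := by
        rw [hP]
        have : 1 ≤ (Q0 + 1) * (B₁ + 1) * X := Nat.mul_pos (by positivity) hX0
        exact_mod_cast this
      have hCN : ∀ i, |C i| * (((l * D : ℕ) : ℤ) + 1) ≤ P := by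
        intro i
        have e1 : ((l * D : ℕ) : ℤ) + 1 ≤ (B₁ + 1) * X := by
          have : l * D + 1 ≤ (B₁ + 1) * X := by rw [add_mul, one_mul]; omega
          exact_mod_cast this
        have e2 : |C i| ≤ (Q0 + 1 : ℤ) := (hC i).2.trans (by linarith)
        calc |C i| * (((l * D : ℕ) : ℤ) + 1) ≤ (Q0 + 1) * ((B₁ + 1) * X) :=
              mul_le_mul e2 e1 (by positivity) (by positivity)
          _ = P := by rw [hP]; push_cast; ring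
      refine le_trans (le_of_eq (sum_congr rfl fun h _ => ite_inst _ _ _ _)) (h0 K (by omega) ℤ inferInstance S w
        (fun i n => n + C i * (j * D)) (fun i => ((hw i).law _ (by omega)).add (C i * (j * D))) (fun i => (hw i).sum)
        C (l * D) ?_ ?_ hC ?_ ?_ (Ev C j l) (fun _ => Classical.propDecidable _) (fun h _ hh => ?_))
      · calc b ^ K ≤ B * (κ * X) := hX1
          _ ≤ B * (κ * (2 * B₁ * (l * D))) := Nat.mul_le_mul_left _ (Nat.mul_le_mul_left _ hj1)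
          _ = _ := by ring
      · calc l * D ≤ B₁ * X := hj2
          _ ≤ 2 * B₁ * X := Nat.mul_le_mul_right _ (by omega)
          _ ≤ b ^ K := h2BX
      · intro i v hv
        have e1 := hS i v hv
        have e2 : 8 * |v| ≤ (b : ℤ) ^ K := (mul_le_mul_of_nonneg_right hb8 (abs_nonneg _)).trans e1
        have e3 : |C i * (j * D)| ≤ 2 * P := by
          rw [abs_mul]
          have f1 : |C i| ≤ (Q0 + 1 : ℤ) := (hC i).2.trans (by linarith)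
          have f2 : (2 * B₁ * X : ℤ) ≤ 2 * ((B₁ + 1) * X) := by nlinarith
          calc |C i| * |j * (D : ℤ)| ≤ (Q0 + 1) * (2 * ((B₁ + 1) * X)) :=
                mul_le_mul f1 (hj3.trans f2) (abs_nonneg _) (by positivity)
            _ = 2 * P := by rw [hP]; push_cast; ring
        have e4 := abs_add_le v (C i * (j * D))
        have e5 := hCN i
        linarith
      · intro i
        have e5 := hCN i
        linarith
      · rw [hEv] at hh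
        obtain ⟨_, _, _, _, q1, q2, q3⟩ := hh
        exact ⟨q2, admF_sh C h _ q1, q3⟩
    · refine le_trans (le_of_eq (sum_eq_zero fun h _ => ?_)) (by positivity)
      rw [if_neg]
      rw [hEv]
      rintro ⟨q1, q2, q3, q4, _⟩
      exact hj ⟨q1, q2, q3, q4⟩
  have hwnn : ∀ h ∈ Fintype.piFinset S, 0 ≤ ∏ j, w j (h j) := by
    intro h hh
    exact prod_nonneg fun j _ => (hw j).nonneg _ (Fintype.mem_piFinset.1 hh j)
  obtain ⟨I, hI⟩ : ∃ I : Finset ((Fin s → ℤ) × ℤ × ℕ), I = (Fintype.piFinset (fun _ : Fin s => Icc (-(Q0 : ℤ)) Q0)) ×ˢ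
    (Icc (-(2 * B₁ * K ^ V : ℤ)) (2 * B₁ * K ^ V)) ×ˢ range (B₁ * K ^ V + 1) := ⟨_, rfl⟩
  have hpt : ∀ h ∈ Fintype.piFinset S, ∀ d : Decidable (h ∈ BadF s Q0 B₁ ε X), @ite ℝ _ d (∏ i, w i (h i)) 0 ≤
      ∑ q ∈ I, (if Ev q.1 q.2.1 q.2.2 h then ∏ i, w i (h i) else 0) := by
    intro h hh d
    have hnn : ∀ q ∈ I, 0 ≤ (if Ev q.1 q.2.1 q.2.2 h then ∏ i, w i (h i) else 0) := by
      intro q _
      split_ifs
      · exact hwnn h hh
      · exact le_rfl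
    split_ifs with hbad
    · obtain ⟨C, hC, hadm, M, N, hM, hN1, hN2, hpos, hfail⟩ := hbad
      by_contra hcon
      push Not at hcon
      apply hfail
      apply hnet C h M N hM hN1 hN2 hpos
      intro j l hj hl q1 q2 q3 q4
      by_contra hHL
      have hmem : (C, j, l) ∈ I := by
        rw [hI, mem_product, mem_product, Fintype.mem_piFinset, mem_Icc, mem_range]
        refine ⟨fun i => mem_Icc.2 (abs_le.1 (hC i).2), abs_le.1 hj, Nat.lt_succ_of_le hl⟩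
      have h5 := single_le_sum hnn hmem
      rw [if_pos ((hEv C j l h).2 ⟨hC, q1, q2, q3, hadm, q4, hHL⟩)] at h5
      linarith
    · exact sum_nonneg hnn
  refine (sum_le_sum fun h hh => hpt h hh _).trans ?_
  rw [sum_comm]
  refine (sum_le_sum fun q _ => hone q.1 q.2.1 q.2.2).trans ?_
  rw [sum_const, nsmul_eq_mul]
  have hcard : (I.card : ℝ) ≤ (K : ℝ) ^ (2 * V + 1) := by
    have e1 : I.card = (2 * Q0 + 1) ^ s * ((4 * B₁ * K ^ V + 1) * (B₁ * K ^ V + 1)) := by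
      rw [hI, card_product, card_product, Fintype.card_piFinset, card_range, Int.card_Icc]
      simp only [Int.card_Icc, prod_const, card_univ, Fintype.card_fin]
      have f1 : ((Q0 : ℤ) + 1 - -(Q0 : ℤ)).toNat = 2 * Q0 + 1 := by omega
      have f2 : ((2 * B₁ * K ^ V : ℤ) + 1 - -(2 * B₁ * K ^ V : ℤ)).toNat = 4 * B₁ * K ^ V + 1 := by
        have : ((2 * B₁ * K ^ V : ℤ) + 1 - -(2 * B₁ * K ^ V : ℤ)) = ((4 * B₁ * K ^ V + 1 : ℕ) : ℤ) := by push_cast; ring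
        rw [this, Int.toNat_natCast]
      rw [f1, f2]
    have e2 : I.card ≤ K ^ (2 * V + 1) := by
      rw [e1]
      have g1 : 1 ≤ B₁ * K ^ V := Nat.mul_pos hB₁ hKV0
      calc (2 * Q0 + 1) ^ s * ((4 * B₁ * K ^ V + 1) * (B₁ * K ^ V + 1)) ≤
          (2 * Q0 + 1) ^ s * ((5 * (B₁ * K ^ V)) * (2 * (B₁ * K ^ V))) := by
            apply Nat.mul_le_mul_left
            apply Nat.mul_le_mul
            · have : 4 * B₁ * K ^ V = 4 * (B₁ * K ^ V) := by ring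
              omega
            · omega
        _ = ((2 * Q0 + 1) ^ s * (10 * B₁ ^ 2)) * K ^ (2 * V) := by ring
        _ ≤ K * K ^ (2 * V) := Nat.mul_le_mul_right _ (by rw [← hZ]; omega)
        _ = _ := by rw [pow_succ]; ring
    exact_mod_cast e2
  calc (I.card : ℝ) * (1 / (K : ℝ) ^ Up) ≤ (K : ℝ) ^ (2 * V + 1) * (1 / (K : ℝ) ^ Up) :=
        mul_le_mul_of_nonneg_right hcard (by positivity)
    _ = (K : ℝ) ^ (2 * V + 1) / (K : ℝ) ^ Up := by ring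
    _ ≤ 1 / (K : ℝ) ^ U₁ := by
        rw [div_le_div_iff₀ (by positivity) (by positivity), one_mul, ← pow_add]
        exact pow_le_pow_right₀ hK1 (by omega)

end Pool.Agent.Q259.AS
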