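import Pool.Agent.Q259.AS.Frm7
import Pool.Agent.Y820.LF.SB

set_option autoImplicit false

/-! The equation `a p - b q = c`: the system of the two linear forms. -/

namespace Pool.Agent.Q259.AS

open Finset
open Pool.Agent.Y820.LF (nuF singF AdmF cntF PosF)

/-- the slopes -/
def eqC (a b : ℕ) : Fin 2 → ℤ := Fin.cons (b : ℤ) (fun _ => (a : ℤ))

/-- the constants -/
def eqH (u v : ℤ) : Fin 2 → ℤ := Fin.cons u (fun _ => v)

/-- `a, b, c` are pairwise relatively prime and not all odd, `a, b ≥ 1` -/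
def EqOk (a b : ℕ) (c : ℤ) : Prop :=
  1 ≤ a ∧ 1 ≤ b ∧ Nat.Coprime a b ∧ IsCoprime (a : ℤ) c ∧ IsCoprime (b : ℤ) c ∧ (2 : ℤ) ∣ a * b * c

open Classical in
/-- the local factors -/
lemma eq_nu (a b : ℕ) (c : ℤ) (h : EqOk a b c) (u v : ℤ) (hc : (a : ℤ) * u - b * v = c) (p : ℕ) (hp : p.Prime) :
    nuF (eqC a b) (eqH u v) p = if (p : ℤ) ∣ a * b * c then 1 else 2 := by
  obtain ⟨_, _, hab, hac, hbc, _⟩ := h
  have hpz := Nat.prime_iff_prime_int.1 hp
  have hset : nuF (eqC a b) (eqH u v) p =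
      ((range p).filter (fun r : ℕ => (p : ℤ) ∣ (b : ℤ) * r + u ∨ (p : ℤ) ∣ (a : ℤ) * r + v)).card := by
    unfold nuF
    congr 1
    apply filter_congr
    intro r _
    rw [Fin.exists_fin_two]
    rfl
  rw [hset]
  have hcop : ∀ w : ℤ, IsCoprime w c → (p : ℤ) ∣ w → ¬ (p : ℤ) ∣ c := by
    intro w hw h1 h2
    exact hpz.not_isUnit (hw.isUnit_of_dvd' h1 h2)
  by_cases ha : (p : ℤ) ∣ (a : ℤ)
  · have hc' := hcop _ hac ha
    have hb : ¬ (p : ℤ) ∣ (b : ℤ) := by
      intro hb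
      have h1 : p ∣ a := Int.natCast_dvd_natCast.1 ha
      have h2 : p ∣ b := Int.natCast_dvd_natCast.1 hb
      have h3 := Nat.dvd_gcd h1 h2
      rw [Nat.Coprime.gcd_eq_one hab] at h3
      exact hp.one_lt.ne' (Nat.dvd_one.1 h3)
    have hv : ∀ r : ℕ, ¬ (p : ℤ) ∣ (a : ℤ) * r + v := by
      intro r hd
      have h1 : (p : ℤ) ∣ v := (dvd_add_right (Dvd.dvd.mul_right ha _)).1 hd
      apply hc'
      rw [← hc]
      exact dvd_sub (Dvd.dvd.mul_right ha _) (Dvd.dvd.mul_left h1 _)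
    obtain ⟨r1, hr1, hr1'⟩ := Pool.Agent.Y820.LF.SBF.ex_rep (b : ℤ) u p hp hb
    have heq : (range p).filter (fun r : ℕ => (p : ℤ) ∣ (b : ℤ) * r + u ∨ (p : ℤ) ∣ (a : ℤ) * r + v) = {r1} := by
      ext r
      rw [mem_filter, mem_range, mem_singleton]
      constructor
      · rintro ⟨h1, h2 | h2⟩
        · exact Pool.Agent.Y820.LF.SBF.uniq_rep (b : ℤ) u p hp hb _ _ h1 hr1 h2 hr1'
        · exact absurd h2 (hv r)
      · rintro rfl
        exact ⟨hr1, Or.inl hr1'⟩
    rw [heq, card_singleton, if_pos (Dvd.dvd.mul_right (Dvd.dvd.mul_right ha _) _)]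
  · by_cases hb : (p : ℤ) ∣ (b : ℤ)
    · have hc' := hcop _ hbc hb
      have hu : ∀ r : ℕ, ¬ (p : ℤ) ∣ (b : ℤ) * r + u := by
        intro r hd
        have h1 : (p : ℤ) ∣ u := (dvd_add_right (Dvd.dvd.mul_right hb _)).1 hd
        apply hc'
        rw [← hc]
        exact dvd_sub (Dvd.dvd.mul_left h1 _) (Dvd.dvd.mul_right hb _)
      obtain ⟨r1, hr1, hr1'⟩ := Pool.Agent.Y820.LF.SBF.ex_rep (a : ℤ) v p hp ha
      have heq : (range p).filter (fun r : ℕ => (p : ℤ) ∣ (b : ℤ) * r + u ∨ (p : ℤ) ∣ (a : ℤ) * r + v) = {r1} := by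
        ext r
        rw [mem_filter, mem_range, mem_singleton]
        constructor
        · rintro ⟨h1, h2 | h2⟩
          · exact absurd h2 (hu r)
          · exact Pool.Agent.Y820.LF.SBF.uniq_rep (a : ℤ) v p hp ha _ _ h1 hr1 h2 hr1'
        · rintro rfl
          exact ⟨hr1, Or.inr hr1'⟩
      rw [heq, card_singleton, if_pos (Dvd.dvd.mul_right (Dvd.dvd.mul_left hb _) _)]
    · obtain ⟨r1, hr1, hr1'⟩ := Pool.Agent.Y820.LF.SBF.ex_rep (b : ℤ) u p hp hb
      obtain ⟨r2, hr2, hr2'⟩ := Pool.Agent.Y820.LF.SBF.ex_rep (a : ℤ) v p hp ha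
      have heq : (range p).filter (fun r : ℕ => (p : ℤ) ∣ (b : ℤ) * r + u ∨ (p : ℤ) ∣ (a : ℤ) * r + v) = {r1, r2} := by
        ext r
        rw [mem_filter, mem_range, mem_insert, mem_singleton]
        constructor
        · rintro ⟨h1, h2 | h2⟩
          · exact Or.inl (Pool.Agent.Y820.LF.SBF.uniq_rep (b : ℤ) u p hp hb _ _ h1 hr1 h2 hr1')
          · exact Or.inr (Pool.Agent.Y820.LF.SBF.uniq_rep (a : ℤ) v p hp ha _ _ h1 hr2 h2 hr2')
        · rintro (rfl | rfl)
          · exact ⟨hr1, Or.inl hr1'⟩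
          · exact ⟨hr2, Or.inr hr2'⟩
      rw [heq]
      have hrr : r1 = r2 ↔ (p : ℤ) ∣ c := by
        constructor
        · rintro rfl
          have h1 := dvd_sub (Dvd.dvd.mul_left hr1' (a : ℤ)) (Dvd.dvd.mul_left hr2' (b : ℤ))
          have e : (a : ℤ) * (b * r1 + u) - b * (a * r1 + v) = c := by rw [← hc]; ring
          rwa [e] at h1
        · intro hpc
          have h1 : (p : ℤ) ∣ b * (a * r1 + v) := by
            have e : (b : ℤ) * (a * r1 + v) = a * (b * r1 + u) - c := by rw [← hc]; ring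
            rw [e]
            exact dvd_sub (Dvd.dvd.mul_left hr1' _) hpc
          have h2 := (hpz.dvd_or_dvd h1).resolve_left hb
          exact Pool.Agent.Y820.LF.SBF.uniq_rep (a : ℤ) v p hp ha _ _ hr1 hr2 h2 hr2'
      by_cases hpc : (p : ℤ) ∣ c
      · rw [if_pos (Dvd.dvd.mul_left hpc _), hrr.2 hpc]
        simp
      · rw [if_neg, card_pair (fun h => hpc (hrr.1 h))]
        intro hd
        rcases hpz.dvd_or_dvd hd with h1 | h1
        · rcases hpz.dvd_or_dvd h1 with h2 | h2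
          · exact ha h2
          · exact hb h2
        · exact hpc h1

lemma eq_adm (a b : ℕ) (c : ℤ) (h : EqOk a b c) (u v : ℤ) (hc : (a : ℤ) * u - b * v = c) : AdmF (eqC a b) (eqH u v) := by
  classical
  intro p hp
  rw [eq_nu a b c h u v hc p hp]
  have h2 := hp.two_le
  by_cases hd : (p : ℤ) ∣ a * b * c
  · rw [if_pos hd]
    omega
  · rw [if_neg hd]
    rcases Nat.lt_or_ge 2 p with h3 | h3
    · exact h3
    · exfalso
      have : p = 2 := by omega
      subst this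
      exact hd (by exact_mod_cast h.2.2.2.2.2)

/-- the two coordinates -/
lemma exists_uv (a b : ℕ) (ha : 1 ≤ a) (hb : 1 ≤ b) (hab : Nat.Coprime a b) (c : ℤ) (ξ : ℝ) :
    ∃ u v : ℤ, (a : ℤ) * u - b * v = c ∧ |(u : ℝ) - ξ| ≤ b := by
  have h8 : IsCoprime (a : ℤ) (b : ℤ) := Nat.isCoprime_iff_coprime.2 hab
  obtain ⟨r, s, hrs⟩ := h8
  -- a (c r) + b (c s) = c
  have hbr : (0 : ℝ) < b := by exact_mod_cast hb
  obtain ⟨t, ht⟩ : ∃ t : ℤ, t = ⌊(ξ - ((c * r : ℤ) : ℝ)) / b⌋ := ⟨_, rfl⟩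
  refine ⟨c * r + b * t, -(c * s) + a * t, ?_, ?_⟩
  · have : (a : ℤ) * (c * r + b * t) - b * (-(c * s) + a * t) = c * (r * a + s * b) := by ring
    rw [this, hrs, mul_one]
  · have h1 := Int.floor_le ((ξ - ((c * r : ℤ) : ℝ)) / b)
    have h2 := Int.lt_floor_add_one ((ξ - ((c * r : ℤ) : ℝ)) / b)
    rw [← ht] at h1 h2
    rw [le_div_iff₀ hbr] at h1
    rw [div_lt_iff₀ hbr] at h2
    rw [abs_le]
    push_cast at h1 h2 ⊢
    constructor <;> nlinarith

/-- the number of the prime solutions `(p, q)` of `a p - b q = c` with `P < p ≤ P + b N` -/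
noncomputable def eqSol (a b : ℕ) (c : ℤ) (P N : ℕ) : ℕ :=
  Set.ncard {x : ℕ × ℕ | x.1.Prime ∧ x.2.Prime ∧ (a : ℤ) * x.1 - b * x.2 = c ∧ P < x.1 ∧ x.1 ≤ P + b * N}

lemma eq_sol (a b : ℕ) (c : ℤ) (h : EqOk a b c) (u v : ℤ) (hc : (a : ℤ) * u - b * v = c) (P N : ℕ) :
    eqSol a b c P N = cntW (eqC a b) (eqH u v) (((P : ℤ) - u) / b) N := by
  classical
  obtain ⟨ha1, hb1, hab, _, _, _⟩ := h
  have hbz : (0 : ℤ) < b := by exact_mod_cast hb1
  have haz : (0 : ℤ) < a := by exact_mod_cast ha1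
  obtain ⟨M, hM⟩ : ∃ M : ℤ, M = ((P : ℤ) - u) / b := ⟨_, rfl⟩
  have hM1 : b * M ≤ P - u := by rw [hM]; exact Int.mul_ediv_self_le hbz.ne'
  have hM2 : P - u < b * (M + 1) := by
    have h1 := Int.lt_ediv_add_one_mul_self ((P : ℤ) - u) hbz
    rw [← hM] at h1
    linarith
  rw [← hM]
  unfold eqSol cntW
  have himg : {x : ℕ × ℕ | x.1.Prime ∧ x.2.Prime ∧ (a : ℤ) * x.1 - b * x.2 = c ∧ P < x.1 ∧ x.1 ≤ P + b * N} =
      (((Ioc M (M + N)).filter (fun n : ℤ => ∀ i, (eqC a b i * n + eqH u v i).toNat.Prime)).image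
        (fun n : ℤ => ((b * n + u).toNat, (a * n + v).toNat)) : Finset (ℕ × ℕ)) := by
    ext x
    rw [Set.mem_ofPred_eq, mem_coe, mem_image]
    constructor
    · rintro ⟨h1, h2, h3, h4, h5⟩
      have h6 : (a : ℤ) * ((x.1 : ℤ) - u) = b * ((x.2 : ℤ) - v) := by linarith
      have h7 : (b : ℤ) ∣ ((x.1 : ℤ) - u) := by
        have h8 : IsCoprime (b : ℤ) (a : ℤ) := (Nat.isCoprime_iff_coprime.2 hab).symm
        exact h8.dvd_of_dvd_mul_left ⟨_, h6⟩
      obtain ⟨n, hn⟩ := h7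
      have hp : (b : ℤ) * n + u = x.1 := by linarith
      have hq : (a : ℤ) * n + v = x.2 := by
        apply mul_left_cancel₀ hbz.ne'
        rw [hn] at h6
        linarith
      have h4z : (P : ℤ) < x.1 := by exact_mod_cast h4
      have h5z : (x.1 : ℤ) ≤ P + b * N := by exact_mod_cast h5
      refine ⟨n, mem_filter.2 ⟨mem_Ioc.2 ⟨?_, ?_⟩, ?_⟩, ?_⟩
      · have : (b : ℤ) * M < b * n := by linarith
        exact lt_of_mul_lt_mul_left this hbz.le
      · have : (b : ℤ) * n < b * (M + N + 1) := by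
          have e : (b : ℤ) * (M + N + 1) = b * (M + 1) + b * N := by ring
          rw [e]
          linarith
        have := lt_of_mul_lt_mul_left this hbz.le
        omega
      · rw [Fin.forall_fin_two]
        constructor
        · have e : eqC a b 0 * n + eqH u v 0 = (x.1 : ℤ) := hp
          rw [e, Int.toNat_natCast]
          exact h1
        · have e : eqC a b 1 * n + eqH u v 1 = (x.2 : ℤ) := hq
          rw [e, Int.toNat_natCast]
          exact h2
      · rw [hp, hq, Int.toNat_natCast, Int.toNat_natCast]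
    · rintro ⟨n, hn, rfl⟩
      rw [mem_filter, mem_Ioc, Fin.forall_fin_two] at hn
      obtain ⟨⟨hn1, hn2⟩, h1, h2⟩ := hn
      have h1' : ((b : ℤ) * n + u).toNat.Prime := h1
      have h2' : ((a : ℤ) * n + v).toNat.Prime := h2
      have e1 : (((b : ℤ) * n + u).toNat : ℤ) = b * n + u := by
        have := h1'.pos
        omega
      have e2 : (((a : ℤ) * n + v).toNat : ℤ) = a * n + v := by
        have := h2'.pos
        omega
      have e3 : (P : ℤ) < b * n + u := by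
        have : (b : ℤ) * (M + 1) ≤ b * n := mul_le_mul_of_nonneg_left (by omega) hbz.le
        linarith
      have e4 : (b : ℤ) * n + u ≤ P + b * N := by
        have : (b : ℤ) * n ≤ b * (M + N) := mul_le_mul_of_nonneg_left hn2 hbz.le
        have e : (b : ℤ) * (M + N) = b * M + b * N := by ring
        rw [e] at this
        linarith
      refine ⟨h1', h2', ?_, ?_, ?_⟩
      · simp only
        rw [e1, e2, ← hc]
        ring
      · simp only
        have : (P : ℤ) < (((b : ℤ) * n + u).toNat : ℤ) := by rw [e1]; exact e3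
        exact_mod_cast this
      · simp only
        have : (((b : ℤ) * n + u).toNat : ℤ) ≤ ((P + b * N : ℕ) : ℤ) := by rw [e1]; push_cast; exact e4
        exact_mod_cast this
  rw [himg, Set.ncard_coe_finset, card_image_of_injOn]
  intro n hn n' hn' hnn
  rw [mem_coe, mem_filter, Fin.forall_fin_two] at hn hn'
  have h1' : ((b : ℤ) * n + u).toNat.Prime := hn.2.1
  have h2' : ((b : ℤ) * n' + u).toNat.Prime := hn'.2.1
  have h3 : ((b : ℤ) * n + u).toNat = ((b : ℤ) * n' + u).toNat := (Prod.ext_iff.1 hnn).1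
  have h4 := h1'.pos
  have h5 := h2'.pos
  have h6 : (b : ℤ) * n = b * n' := by omega
  exact mul_left_cancel₀ hbz.ne' h6

end Pool.Agent.Q259.AS
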