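import Pool.Agent.Q259.AS.One
import Pool.Agent.Y885.SB

set_option autoImplicit false

/-! Goldbach's conjecture near typical points. -/

namespace Pool.Agent.Q259.AS

open Finset MeasureTheory Filter
open Pool.Agent.Y885 (TLaw tl_goldbach)
open Pool.Agent.H560R3.GB (g HL)

theorem eng_goldbach (ε : ℝ) (hε : 0 < ε) : Eng1 ℕ id (fun _ => {n : ℤ | 0 < n ∧ 2 ∣ n ∧
    ¬ (|(g n.toNat : ℝ) - HL n.toNat| ≤ ε * HL n.toNat ∧
      ∃ p q : ℕ, p.Prime ∧ q.Prime ∧ p ≠ q ∧ p + q = n.toNat)}) := by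
  classical
  intro b E hb hE c k₀ B U
  obtain ⟨V, hV⟩ := tl_goldbach b hb E (c (U + 2)) U hE ε hε
  obtain ⟨K₀, hK₀⟩ := hV (c V)
  refine ⟨K₀ + k₀ (U + 2) + k₀ V, fun K hK S w hw hS q hq1 hq2 => ?_⟩
  have h1 := hK₀ K (by omega) ℤ S w (fun n => n) (hw.law (U + 2) (by omega)) (hw.law V (by omega)) (fun n hn => ?_)
  · refine le_trans (le_of_eq ?_) h1
    apply sum_congr rfl
    intro n _
    simp only [Set.mem_ofPred_eq]
    exact ite_inst _ _ _ _
  · have h2 := hS n hn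
    have h3 : |n| ≤ (b : ℤ) ^ 3 * |n| := by
      have : (1 : ℤ) ≤ (b : ℤ) ^ 3 := by exact_mod_cast Nat.one_le_pow _ _ (by omega)
      exact le_mul_of_one_le_left (abs_nonneg _) this
    exact (le_abs_self n).trans (h3.trans h2)

end Pool.Agent.Q259.AS
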