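import Pool.Agent.Q259.AS.One
import Pool.Agent.Y885.LD3

set_option autoImplicit false

/-! Levels of distribution for typical residues. -/

namespace Pool.Agent.Q259.AS

open Finset MeasureTheory Filter
open Pool.Agent.Y885 (TLaw tl_levels)
open Pool.Agent.TH212.EH (W WW)

/-- the data -/
structure DatL (T κ : ℕ) where
  H : ℕ
  Q : ℕ
  L : ℕ
  lam : Fin L → ℕ → ℝ
  xf : Fin L → ℕ → ℕ
  hQ : (Q : ℝ) * Real.exp (Real.log (Real.log H) ^ 3) ≤ H
  hL : (L : ℝ) ≤ Real.log H ^ κ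
  hlam : ∀ l q, |lam l q| ≤ (Real.log H * (q.divisors.card : ℝ)) ^ T
  hx : ∀ l q, xf l q ≤ H

/-- sizes of iterated logarithms -/
lemma loglog_ev (b B D : ℕ) (hb : 2 ≤ b) : ∃ K₀ : ℕ, ∀ K : ℕ, K₀ ≤ K → ∀ H : ℕ, b ^ K ≤ B * H →
    (D : ℝ) * Real.log K ^ 2 ≤ Real.log (Real.log H) ^ 3 := by
  have hb0 : (0 : ℝ) < b := by exact_mod_cast (by omega : 0 < b)
  obtain ⟨k1, hk1⟩ := exists_nat_ge (10 * Real.log (B + 1) + 16)
  obtain ⟨k2, hk2⟩ := exists_nat_ge (Real.exp (8 * D))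
  refine ⟨k1 + k2 + 1, fun K hK H hH => ?_⟩
  have hK1 : (k1 : ℝ) ≤ K := by exact_mod_cast (by omega : k1 ≤ K)
  have hK2 : (k2 : ℝ) ≤ K := by exact_mod_cast (by omega : k2 ≤ K)
  have hlB : 0 ≤ Real.log ((B : ℝ) + 1) := Real.log_nonneg (by
    have : (0 : ℝ) ≤ B := Nat.cast_nonneg _
    linarith)
  have hK16 : (16 : ℝ) ≤ K := by linarith
  have hK0 : (0 : ℝ) < K := by linarith
  have hB0 : 0 < B := by
    by_contra hcon
    have h1 : B = 0 := by omega
    rw [h1, zero_mul] at hH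
    have : 0 < b ^ K := Nat.pow_pos (by omega)
    omega
  have hH0 : 0 < H := by
    by_contra hcon
    have h1 : H = 0 := by omega
    rw [h1, mul_zero] at hH
    have : 0 < b ^ K := Nat.pow_pos (by omega)
    omega
  have hH0r : (0 : ℝ) < H := by exact_mod_cast hH0
  have h1 : (b : ℝ) ^ K ≤ (B + 1) * H := by
    have : ((b ^ K : ℕ) : ℝ) ≤ ((B * H : ℕ) : ℝ) := by exact_mod_cast hH
    push_cast at this
    nlinarith
  have h2 : (K : ℝ) * Real.log 2 ≤ Real.log (B + 1) + Real.log H := by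
    rw [← Real.log_mul (by positivity) hH0r.ne', ← Real.log_pow]
    apply Real.log_le_log (by positivity)
    refine le_trans ?_ h1
    exact pow_le_pow_left₀ (by norm_num) (by exact_mod_cast hb) K
  have h3 := Real.log_two_gt_d9
  have h4 : (K : ℝ) / 2 ≤ Real.log H := by nlinarith
  have h5 : √(K : ℝ) ≤ Real.log H := by
    refine le_trans ?_ h4
    rw [Real.sqrt_le_left (by linarith)]
    nlinarith
  have h6 : Real.log K / 2 ≤ Real.log (Real.log H) := by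
    have := Real.log_le_log (Real.sqrt_pos.2 hK0) h5
    rw [Real.log_sqrt hK0.le] at this
    exact this
  have h7 : 8 * (D : ℝ) ≤ Real.log K := by
    rw [Real.le_log_iff_exp_le hK0]
    linarith
  have h8 : 0 ≤ Real.log (K : ℝ) := Real.log_nonneg (by linarith)
  calc (D : ℝ) * Real.log K ^ 2 ≤ (Real.log K / 8) * Real.log K ^ 2 := mul_le_mul_of_nonneg_right (by linarith) (by positivity)
    _ = (Real.log K / 2) ^ 3 := by ring
    _ ≤ _ := pow_le_pow_left₀ (by positivity) h6 3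

theorem eng_levels (T κ U : ℕ) : Eng1 (DatL T κ) (fun q => q.H)
    (fun q => {a | 0 < a ∧ ∃ l, (∃ x ≤ q.H, (q.H : ℝ) / Real.log q.H ^ U < |W (q.lam l) q.Q x a.toNat|) ∨
      (q.H : ℝ) / Real.log q.H ^ U < |WW (q.lam l) (q.xf l) q.Q a.toNat|}) := by
  classical
  intro b E hb hE c k₀ B U₁
  obtain ⟨U₂, hU₂⟩ : ∃ U₂, U₂ = U₁ + κ + U + 4 := ⟨_, rfl⟩
  obtain ⟨V, hV⟩ := tl_levels (2 * T) U₂
  obtain ⟨D, K₀, h0⟩ := hV b E (b ^ 2) (c V) hb hE (Nat.one_le_pow _ _ (by omega))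
  obtain ⟨K₂, h2⟩ := loglog_ev b B D hb
  have hb0 : (0 : ℝ) < b := by exact_mod_cast (by omega : 0 < b)
  have hb1 : (1 : ℝ) < b := by exact_mod_cast (by omega : 1 < b)
  have hlb : 0 < Real.log b := Real.log_pos hb1
  obtain ⟨K₁, hK₁⟩ := exists_nat_ge (Real.log b ^ κ + B * Real.log b ^ U + 2 + Real.log b)
  refine ⟨K₀ + K₁ + K₂ + k₀ V + B + 4, fun K hK S w hw hS q hq1 hq2 => ?_⟩
  simp only at hq1 hq2
  have hK0 : (0 : ℝ) < K := by exact_mod_cast (by omega : 0 < K)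
  have hK1 : (1 : ℝ) ≤ K := by exact_mod_cast (by omega : 1 ≤ K)
  have hKK₁ : (K₁ : ℝ) ≤ K := by exact_mod_cast (by omega : K₁ ≤ K)
  have hpos1 : 0 ≤ Real.log b ^ κ := by positivity
  have hpos2 : 0 ≤ (B : ℝ) * Real.log b ^ U := by positivity
  have hKb : K < b ^ K := Nat.lt_pow_self (by omega)
  have hH1 : 2 ≤ q.H := by
    by_contra hcon
    have h1 : q.H ≤ 1 := by omega
    have h2 : B * q.H ≤ B * 1 := Nat.mul_le_mul_left _ h1
    omega
  obtain ⟨X, hX⟩ : ∃ X, X = b ^ (K - 2) := ⟨_, rfl⟩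
  have hXK : b ^ K = b ^ 2 * X := by rw [hX, ← pow_add]; congr 1; omega
  have hXK3 : b ^ K = b ^ 3 * b ^ (K - 3) := by rw [← pow_add]; congr 1; omega
  have hX3 : b ^ (K - 3) ≤ X := by rw [hX]; exact Nat.pow_le_pow_right (by omega) (by omega)
  have hb3 : 0 < b ^ 3 := Nat.pow_pos (by omega)
  have hHX : q.H ≤ X := by
    rw [hXK3] at hq2
    exact (Nat.le_of_mul_le_mul_left hq2 hb3).trans hX3
  have hHb : q.H ≤ b ^ K := by
    refine hHX.trans ?_
    rw [hX]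
    exact Nat.pow_le_pow_right (by omega) (by omega)
  have hH0 : (0 : ℝ) < q.H := by exact_mod_cast (by omega : 0 < q.H)
  have hlog0 : 0 < Real.log q.H := Real.log_pos (by exact_mod_cast (by omega : 1 < q.H))
  have hlogH : Real.log q.H ≤ K * Real.log b := by
    rw [← Real.log_pow]
    apply Real.log_le_log hH0
    exact_mod_cast hHb
  have hlogH2 : Real.log q.H ≤ (K : ℝ) ^ 2 := by
    refine hlogH.trans ?_
    rw [sq]
    exact mul_le_mul_of_nonneg_left (by linarith) hK0.le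
  have hpow : ∀ V : ℕ, Real.log q.H ^ V ≤ (K : ℝ) ^ V * Real.log b ^ V := by
    intro V
    rw [← mul_pow]
    exact pow_le_pow_left₀ hlog0.le hlogH V
  have hlogκ : Real.log q.H ^ κ ≤ (K : ℝ) ^ (κ + 1) := by
    refine (hpow κ).trans ?_
    rw [pow_succ]
    exact mul_le_mul_of_nonneg_left (by linarith) (by positivity)
  have hXr : (X : ℝ) ≤ ((b ^ K : ℕ) : ℝ) := by
    rw [hX]
    exact_mod_cast Nat.pow_le_pow_right (by omega) (by omega)
  have hthr : (X : ℝ) / (K : ℝ) ^ U₂ ≤ (q.H : ℝ) / Real.log q.H ^ U := by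
    have h1 : (X : ℝ) ≤ B * q.H := hXr.trans (by exact_mod_cast hq1)
    have h2 : (B : ℝ) * Real.log q.H ^ U ≤ (K : ℝ) ^ U₂ := by
      calc (B : ℝ) * Real.log q.H ^ U ≤ B * ((K : ℝ) ^ U * Real.log b ^ U) := mul_le_mul_of_nonneg_left (hpow U) (Nat.cast_nonneg _)
        _ = (K : ℝ) ^ U * (B * Real.log b ^ U) := by ring
        _ ≤ (K : ℝ) ^ U * K := mul_le_mul_of_nonneg_left (by linarith) (by positivity)
        _ = (K : ℝ) ^ (U + 1) := by rw [pow_succ]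
        _ ≤ _ := pow_le_pow_right₀ hK1 (by omega)
    rw [div_le_div_iff₀ (by positivity) (by positivity)]
    calc (X : ℝ) * Real.log q.H ^ U ≤ (B * q.H) * Real.log q.H ^ U := mul_le_mul_of_nonneg_right h1 (by positivity)
      _ = q.H * (B * Real.log q.H ^ U) := by ring
      _ ≤ q.H * (K : ℝ) ^ U₂ := mul_le_mul_of_nonneg_left h2 hH0.le
  have hQ : (q.Q : ℝ) * Real.exp ((D : ℝ) * Real.log K ^ 2) ≤ X := by
    refine le_trans (mul_le_mul_of_nonneg_left (Real.exp_le_exp.2 (h2 K (by omega) q.H hq1)) (Nat.cast_nonneg _)) ?_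
    exact q.hQ.trans (by exact_mod_cast hHX)
  have hwn : ∀ n ∈ S, 0 ≤ w n := hw.nonneg
  have key := h0 K (by omega) ℤ S w (fun n => n) (hw.law V (by omega)) X
    (by rw [hXK]; exact Nat.mul_le_mul_right _ (by nlinarith)) (by rw [hXK]) (fun n hn => by
      have h1 := hS n hn
      have h2 : (b : ℤ) ^ K = (b : ℤ) ^ 3 * (b : ℤ) ^ (K - 3) := by exact_mod_cast hXK3
      rw [h2] at h1
      have h3 := le_of_mul_le_mul_left h1 (by positivity)
      exact h3.trans (by exact_mod_cast hX3)) q.Q hQ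
  have hone : ∀ l : Fin q.L, ∑ n ∈ S, (if 0 < n ∧ ((∃ x ≤ q.H, (q.H : ℝ) / Real.log q.H ^ U < |W (q.lam l) q.Q x n.toNat|) ∨
      (q.H : ℝ) / Real.log q.H ^ U < |WW (q.lam l) (q.xf l) q.Q n.toNat|) then w n else 0) ≤ 2 * (1 / (K : ℝ) ^ U₂) := by
    intro l
    obtain ⟨r1, r2⟩ := key.1 (q.lam l) (fun m => by
      refine (q.hlam l m).trans ?_
      rw [mul_pow]
      have hτ : ((m.divisors.card : ℝ)) ^ T ≤ ((m.divisors.card : ℝ)) ^ (2 * T) := by
        rcases Nat.eq_zero_or_pos m.divisors.card with h | h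
        · rw [h]
          rcases Nat.eq_zero_or_pos T with hT | hT
          · rw [hT]
          · rw [Nat.cast_zero, zero_pow (by omega), zero_pow (by omega)]
        · exact pow_le_pow_right₀ (by exact_mod_cast h) (by omega)
      have hl : Real.log q.H ^ T ≤ (K : ℝ) ^ (2 * T) := by
        rw [pow_mul]
        exact pow_le_pow_left₀ hlog0.le hlogH2 T
      exact mul_le_mul hl hτ (by positivity) (by positivity))
    have r1' := r1 (fun n => 0 < n ∧ ∃ x ≤ X, (X : ℝ) / (K : ℝ) ^ U₂ < |W (q.lam l) q.Q x n.toNat|)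
      (fun _ => Classical.propDecidable _) (fun n _ h => h)
    have r2' := r2 (q.xf l) (fun m => (q.hx l m).trans hHX)
      (fun n => 0 < n ∧ (X : ℝ) / (K : ℝ) ^ U₂ < |WW (q.lam l) (q.xf l) q.Q n.toNat|)
      (fun _ => Classical.propDecidable _) (fun n _ h => h)
    refine le_trans ?_ (add_le_add r1' r2' |>.trans (le_of_eq (by ring)))
    rw [← sum_add_distrib]
    apply sum_le_sum
    intro n hn
    have hn0 := hwn n hn
    by_cases h : 0 < n ∧ ((∃ x ≤ q.H, (q.H : ℝ) / Real.log q.H ^ U < |W (q.lam l) q.Q x n.toNat|) ∨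
      (q.H : ℝ) / Real.log q.H ^ U < |WW (q.lam l) (q.xf l) q.Q n.toNat|)
    · rw [if_pos h]
      obtain ⟨hn1, ⟨x, hx, h3⟩ | h3⟩ := h
      · rw [if_pos (⟨hn1, x, hx.trans hHX, lt_of_le_of_lt hthr h3⟩ :
          0 < n ∧ ∃ x ≤ X, (X : ℝ) / (K : ℝ) ^ U₂ < |W (q.lam l) q.Q x n.toNat|)]
        split_ifs <;> linarith
      · rw [if_pos (⟨hn1, lt_of_le_of_lt hthr h3⟩ :
          0 < n ∧ (X : ℝ) / (K : ℝ) ^ U₂ < |WW (q.lam l) (q.xf l) q.Q n.toNat|)]
        split_ifs <;> linarith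
    · rw [if_neg h]
      split_ifs <;> linarith
  have hpt : ∀ n ∈ S, ∀ d : Decidable (0 < n ∧ ∃ l, (∃ x ≤ q.H, (q.H : ℝ) / Real.log q.H ^ U < |W (q.lam l) q.Q x n.toNat|) ∨
      (q.H : ℝ) / Real.log q.H ^ U < |WW (q.lam l) (q.xf l) q.Q n.toNat|), @ite ℝ _ d (w n) 0 ≤
      ∑ l, (if 0 < n ∧ ((∃ x ≤ q.H, (q.H : ℝ) / Real.log q.H ^ U < |W (q.lam l) q.Q x n.toNat|) ∨
      (q.H : ℝ) / Real.log q.H ^ U < |WW (q.lam l) (q.xf l) q.Q n.toNat|) then w n else 0) := by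
    intro n hn d
    have hnn : ∀ l ∈ (univ : Finset (Fin q.L)), 0 ≤ (if 0 < n ∧ ((∃ x ≤ q.H, (q.H : ℝ) / Real.log q.H ^ U < |W (q.lam l) q.Q x n.toNat|) ∨
      (q.H : ℝ) / Real.log q.H ^ U < |WW (q.lam l) (q.xf l) q.Q n.toNat|) then w n else 0) := by
      intro l _
      split_ifs
      · exact hwn n hn
      · exact le_rfl
    by_cases h : 0 < n ∧ ∃ l, (∃ x ≤ q.H, (q.H : ℝ) / Real.log q.H ^ U < |W (q.lam l) q.Q x n.toNat|) ∨
      (q.H : ℝ) / Real.log q.H ^ U < |WW (q.lam l) (q.xf l) q.Q n.toNat|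
    · rw [if_pos h]
      obtain ⟨h3, l, h4⟩ := h
      have h5 := single_le_sum hnn (mem_univ l)
      rw [if_pos ⟨h3, h4⟩] at h5
      exact h5
    · rw [if_neg h]
      exact sum_nonneg hnn
  refine (sum_le_sum fun n hn => hpt n hn _).trans ?_
  rw [sum_comm]
  refine (sum_le_sum fun l _ => hone l).trans ?_
  rw [sum_const, card_univ, Fintype.card_fin, nsmul_eq_mul]
  have hK2 : (2 : ℝ) ≤ K := by linarith
  calc (q.L : ℝ) * (2 * (1 / (K : ℝ) ^ U₂)) ≤ (K : ℝ) ^ (κ + 1) * (K * (1 / (K : ℝ) ^ U₂)) :=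
        mul_le_mul (q.hL.trans hlogκ) (mul_le_mul_of_nonneg_right hK2 (by positivity)) (by positivity) (by positivity)
    _ = (K : ℝ) ^ (κ + 2) / (K : ℝ) ^ U₂ := by rw [pow_succ _ (κ + 1)]; ring
    _ ≤ 1 / (K : ℝ) ^ U₁ := by
        rw [div_le_div_iff₀ (by positivity) (by positivity), one_mul, ← pow_add]
        exact pow_le_pow_right₀ hK1 (by omega)

end Pool.Agent.Q259.AS
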