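import Pool.Agent.Q259.AS.Lev
import Pool.Agent.Q259.AS.FnA

set_option autoImplicit false

/-! Levels of distribution for typical residues: the almost sure statement. -/

namespace Pool.Agent.Q259.AS

open Finset MeasureTheory Filter
open Pool.Agent.TH212.EH (W WW)

/-- the exceptional residues -/
def BadL {T κ : ℕ} (U : ℕ) (q : DatL T κ) : Set ℤ :=
  {a | 0 < a ∧ ∃ l, (∃ x ≤ q.H, (q.H : ℝ) / Real.log q.H ^ U < |W (q.lam l) q.Q x a.toNat|) ∨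
        (q.H : ℝ) / Real.log q.H ^ U < |WW (q.lam l) (q.xf l) q.Q a.toNat|}

lemma datL_exists (T κ H Q : ℕ) (I : Type) [Fintype I] (lam : I → ℕ → ℝ) (xf : I → ℕ → ℕ) : ∃ q : DatL T κ,
    (Q : ℝ) * Real.exp (Real.log (Real.log H) ^ 3) ≤ H → (Fintype.card I : ℝ) ≤ Real.log H ^ κ →
      (∀ l m, |lam l m| ≤ (Real.log H * (m.divisors.card : ℝ)) ^ T) → (∀ l m, xf l m ≤ H) → q.H = H ∧
      ∀ (U : ℕ) (n : ℤ), 0 < n → n ∉ BadL U q → ∀ l, (∀ x ≤ H, |W (lam l) Q x n.toNat| ≤ (H : ℝ) / Real.log H ^ U) ∧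
        |WW (lam l) (xf l) Q n.toNat| ≤ (H : ℝ) / Real.log H ^ U := by
  classical
  by_cases h1 : (Q : ℝ) * Real.exp (Real.log (Real.log H) ^ 3) ≤ H ∧ (Fintype.card I : ℝ) ≤ Real.log H ^ κ ∧
      (∀ l m, |lam l m| ≤ (Real.log H * (m.divisors.card : ℝ)) ^ T) ∧ (∀ l m, xf l m ≤ H)
  · obtain ⟨h2, h3, h4, h5⟩ := h1
    refine ⟨⟨H, Q, Fintype.card I, fun l => lam ((Fintype.equivFin I).symm l), fun l => xf ((Fintype.equivFin I).symm l),
      h2, h3, fun l => h4 _, fun l => h5 _⟩, fun _ _ _ _ => ⟨rfl, ?_⟩⟩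
    intro U n hn hbad l
    constructor
    · intro x hx
      by_contra hcon
      push Not at hcon
      apply hbad
      refine ⟨hn, Fintype.equivFin I l, Or.inl ⟨x, hx, ?_⟩⟩
      simp only [Equiv.symm_apply_apply]
      exact hcon
    · by_contra hcon
      push Not at hcon
      apply hbad
      refine ⟨hn, Fintype.equivFin I l, Or.inr ?_⟩
      simp only [Equiv.symm_apply_apply]
      exact hcon
  · refine ⟨⟨0, 0, 0, fun l => l.elim0, fun l => l.elim0, ?_, ?_, fun l => l.elim0, fun l => l.elim0⟩, ?_⟩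
    · simp
    · simp only [Nat.cast_zero, Real.log_zero]
      positivity
    · intro h2 h3 h4 h5
      exact absurd ⟨h2, h3, h4, h5⟩ h1

/-- **Levels of distribution for typical residues.** -/
theorem as_levels (T κ : ℕ) (μ : Measure ℝ) [IsProbabilityMeasure μ]
    (hμ : SelfSim μ ∨ FourLp μ) (a : ℕ → ℝ) (ρ : ℝ) (hρ : 0 < ρ)
    (ha : ∀ᶠ k : ℕ in atTop, 0 < a k ∧ (k : ℝ) ^ ρ ≤ Real.log (a k)) (B T₁ : ℕ) (Y : ℕ → Finset ℝ)
    (hY : ∀ᶠ k : ℕ in atTop, (Y k).card ≤ k ^ T₁ ∧ ∀ y ∈ Y k, |y| ≤ B * a k)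
    (H Q : ℕ → ℕ) (hH : ∀ᶠ k : ℕ in atTop, a k ≤ B * H k ∧ (H k : ℝ) ≤ B * a k)
    (hQ : ∀ᶠ k : ℕ in atTop, (Q k : ℝ) * Real.exp (Real.log (Real.log (H k)) ^ 3) ≤ H k)
    (I : ℕ → Type) [∀ k, Fintype (I k)] (lam : ∀ k, I k → ℕ → ℝ) (xf : ∀ k, I k → ℕ → ℕ)
    (hcard : ∀ᶠ k : ℕ in atTop, (Fintype.card (I k) : ℝ) ≤ Real.log (H k) ^ κ)
    (hlam : ∀ᶠ k : ℕ in atTop, ∀ l m, |lam k l m| ≤ (Real.log (H k) * (m.divisors.card : ℝ)) ^ T)
    (hxf : ∀ᶠ k : ℕ in atTop, ∀ l m, xf k l m ≤ H k) :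
    ∀ᵐ x ∂μ, ∀ A U : ℕ, ∀ᶠ k : ℕ in atTop, ∀ y ∈ Y k, ∀ n : ℤ, 0 < n →
      |(n : ℝ) - (a k * x + y)| ≤ Real.log (a k) ^ A → ∀ l : I k,
      (∀ z ≤ H k, |W (lam k l) (Q k) z n.toNat| ≤ (H k : ℝ) / Real.log (H k) ^ U) ∧
        |WW (lam k l) (xf k l) (Q k) n.toNat| ≤ (H k : ℝ) / Real.log (H k) ^ U := by
  have hdat := fun k => datL_exists T κ (H k) (Q k) (I k) (lam k) (xf k)
  choose q hq using hdat
  have h1 : ∀ A U : ℕ, ∀ᵐ x ∂μ, ∀ᶠ k : ℕ in atTop, ∀ y ∈ Y k, ∀ n : ℤ, 0 < n →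
      |(n : ℝ) - (a k * x + y)| ≤ Real.log (a k) ^ A → ∀ l : I k,
      (∀ z ≤ H k, |W (lam k l) (Q k) z n.toNat| ≤ (H k : ℝ) / Real.log (H k) ^ U) ∧
        |WW (lam k l) (xf k l) (Q k) n.toNat| ≤ (H k : ℝ) / Real.log (H k) ^ U := by
    intro A U
    have h2 := as_one (eng_levels T κ U) μ (niceM_of μ hμ) a ρ hρ
      (ha.mono fun k h => h.2) (ha.mono fun k h => h.1) T₁ A B Y (hY.mono fun k h => h.1) (fun _ y => y)
      (hY.mono fun k h => h.2) (fun k _ => q k)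
      (by
        filter_upwards [hH, hQ, hcard, hlam, hxf] with k h1 h2 h3 h4 h5 y _
        rw [(hq k h2 h3 h4 h5).1]
        exact h1)
    filter_upwards [h2] with x hx
    filter_upwards [hx, hQ, hcard, hlam, hxf] with k h1 h2 h3 h4 h5 y hy n hn hnear l
    apply (hq k h2 h3 h4 h5).2 U n hn _ l
    intro hbad
    have h6 := h1 y hy n hbad
    linarith
  have h2 := ae_all_iff.2 (fun A => ae_all_iff.2 (h1 A))
  filter_upwards [h2] with x hx A U using hx A U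

/-- comparison of the levels -/
lemma level_cmp (a : ℕ → ℝ) (ρ : ℝ) (hρ : 0 < ρ) (ha : ∀ᶠ k : ℕ in atTop, 0 < a k ∧ (k : ℝ) ^ ρ ≤ Real.log (a k))
    (B : ℕ) (hB : 1 ≤ B) : ∀ᶠ k : ℕ in atTop,
      (⌊a k / Real.exp (Real.log (Real.log (a k)) ^ 3)⌋₊ : ℝ) *
        Real.exp (Real.log (Real.log (⌈((B : ℝ) + 1) * a k⌉₊ : ℝ)) ^ 3) ≤ (⌈((B : ℝ) + 1) * a k⌉₊ : ℝ) := by
  have h1 : Tendsto (fun l : ℝ => Real.log l ^ 2 / l) atTop (nhds 0) := by
    have h := (Real.isLittleO_pow_log_id_atTop (n := 2)).tendsto_div_nhds_zero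
    exact h
  have h2 : Tendsto (fun k : ℕ => Real.log (a k)) atTop atTop := by
    have h3 : Tendsto (fun k : ℕ => (k : ℝ) ^ ρ) atTop atTop := (tendsto_rpow_atTop hρ).comp tendsto_natCast_atTop_atTop
    exact tendsto_atTop_mono' _ (ha.mono fun k h => h.2) h3
  have hB0 : (0 : ℝ) ≤ B := Nat.cast_nonneg B
  have hlB : 0 < Real.log ((B : ℝ) + 2) := Real.log_pos (by linarith)
  have h3 : ∀ᶠ l : ℝ in atTop, Real.log l ^ 2 / l < Real.log 2 / (7 * Real.log ((B : ℝ) + 2)) :=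
    h1.eventually_lt_const (div_pos (Real.log_pos (by norm_num)) (by positivity))
  filter_upwards [sizes_ev a ρ hρ ha ((B : ℝ) + 2), h2.eventually h3, h2.eventually_ge_atTop (Real.exp 1),
    h2.eventually_ge_atTop (Real.log ((B : ℝ) + 2))] with k hs h4 h5 h6
  obtain ⟨g1, g2, g3, g4⟩ := size_cmp B (a k) hs.2.2 hs.2.1 hs.1
  have ha0 : 0 < a k := by linarith [hs.2.2]
  obtain ⟨H, hH⟩ : ∃ H : ℝ, H = (⌈((B : ℝ) + 1) * a k⌉₊ : ℝ) := ⟨_, rfl⟩
  rw [← hH] at g1 g2 g3 g4 ⊢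
  have hH2 : 2 * a k ≤ H := by
    rw [hH]
    refine le_trans ?_ (Nat.le_ceil _)
    have : (1 : ℝ) ≤ B := by exact_mod_cast hB
    nlinarith
  obtain ⟨l, hl⟩ : ∃ l, l = Real.log (a k) := ⟨_, rfl⟩
  rw [← hl] at h4 h5 h6 ⊢
  have hl0 : 0 < l := lt_of_lt_of_le (Real.exp_pos 1) h5
  have hu1 : 1 ≤ Real.log l := by
    rw [Real.le_log_iff_exp_le hl0]
    exact h5
  obtain ⟨u, hu⟩ : ∃ u, u = Real.log l := ⟨_, rfl⟩
  rw [← hu] at hu1 h4 ⊢
  obtain ⟨β, hβ⟩ : ∃ β, β = Real.log ((B : ℝ) + 2) := ⟨_, rfl⟩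
  rw [← hβ] at hlB h4 h6
  -- `log log H ≤ u + β / l`
  have hlH : Real.log H ≤ l + β := by
    rw [hl, hβ, ← Real.log_mul ha0.ne' (by positivity), mul_comm]
    exact Real.log_le_log (by linarith) g2
  have hlHl : l ≤ Real.log H := by rw [hl]; exact g3
  have hd1 : β / l ≤ 1 := (div_le_one hl0).2 h6
  have hd0 : 0 < β / l := by positivity
  have hllH : Real.log (Real.log H) ≤ u + β / l := by
    calc Real.log (Real.log H) ≤ Real.log (l + β) := Real.log_le_log (by linarith) hlH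
      _ = Real.log (l * (1 + β / l)) := by congr 1; field_simp
      _ = u + Real.log (1 + β / l) := by rw [Real.log_mul hl0.ne' (by positivity), hu]
      _ ≤ u + β / l := by
          have := Real.log_le_sub_one_of_pos (show 0 < 1 + β / l by positivity)
          linarith
  have hllH0 : 0 ≤ Real.log (Real.log H) := by
    have : u ≤ Real.log (Real.log H) := by rw [hu]; exact Real.log_le_log hl0 hlHl
    linarith
  have hcube : Real.log (Real.log H) ^ 3 ≤ u ^ 3 + Real.log 2 := by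
    have e1 : Real.log (Real.log H) ^ 3 ≤ (u + β / l) ^ 3 := pow_le_pow_left₀ hllH0 hllH 3
    have e2 : u ^ 2 * (β / l) * 7 ≤ Real.log 2 := by
      have e3 : u ^ 2 / l * (7 * β) ≤ Real.log 2 := by
        have := (lt_div_iff₀ (show 0 < 7 * β by positivity)).1 h4
        exact this.le
      calc u ^ 2 * (β / l) * 7 = u ^ 2 / l * (7 * β) := by ring
        _ ≤ _ := e3
    have e4 : (u + β / l) ^ 3 ≤ u ^ 3 + u ^ 2 * (β / l) * 7 := by
      obtain ⟨d, hd⟩ : ∃ d, d = β / l := ⟨_, rfl⟩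
      rw [← hd] at hd0 hd1 ⊢
      nlinarith [mul_nonneg hd0.le hd0.le, mul_nonneg (mul_nonneg hd0.le hd0.le) (by linarith : 0 ≤ u),
        mul_nonneg hd0.le (sub_nonneg.2 hd1), mul_nonneg (mul_nonneg hd0.le (sub_nonneg.2 hd1)) (by linarith : 0 ≤ u),
        mul_nonneg (mul_nonneg hd0.le hd0.le) (sub_nonneg.2 hd1),
        mul_nonneg hd0.le (mul_nonneg (by linarith : (0:ℝ) ≤ u) (sub_nonneg.2 hu1)),
        mul_nonneg hd0.le (sub_nonneg.2 hu1)]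
    linarith
  have hQ : (⌊a k / Real.exp (u ^ 3)⌋₊ : ℝ) ≤ a k / Real.exp (u ^ 3) := Nat.floor_le (by positivity)
  calc (⌊a k / Real.exp (u ^ 3)⌋₊ : ℝ) * Real.exp (Real.log (Real.log H) ^ 3) ≤
        a k / Real.exp (u ^ 3) * Real.exp (u ^ 3 + Real.log 2) :=
        mul_le_mul hQ (Real.exp_le_exp.2 hcube) (Real.exp_pos _).le (by positivity)
    _ = 2 * a k := by
        rw [Real.exp_add, Real.exp_log (by norm_num)]
        field_simp
    _ ≤ H := hH2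

end Pool.Agent.Q259.AS
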