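import Pool.Agent.Q259.AS.LevA

set_option autoImplicit false

/-! Averages of the discrepancies over measures on the line. -/

namespace Pool.Agent.Q259.AS

open Finset MeasureTheory Filter
open Pool.Agent.TH212.EH (W WW E_le tau_pow_div)
open Pool.Agent.W93.LV (Fu)

/-- the exceptional sets are rarely met, one dimension -/
theorem rare_one {P : Type} {sz : P → ℕ} {Bad : P → Set ℤ} (hE : Eng1 P sz Bad) (μ : Measure ℝ)
    [IsProbabilityMeasure μ] (hμ : NiceM μ) (B U T : ℕ) : ∃ a₀ : ℝ, ∀ a : ℝ, a₀ ≤ a → ∀ y : ℝ, |y| ≤ B * a →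
    ∀ q : P, a ≤ B * sz q → (sz q : ℝ) ≤ B * a →
    μ.real {x : ℝ | |x| ≤ B ∧ ∃ n ∈ Bad q, |(n : ℝ) - (a * x + y)| ≤ Real.log a ^ T} ≤ 1 / Real.log a ^ U := by
  obtain ⟨a₀, h0⟩ := rare_of (engT_of hE) (fun _ : Fin 1 => μ) (fun _ => hμ) B U T
  refine ⟨a₀, fun a ha y hy q hq1 hq2 => ?_⟩
  have h1 := h0 a ha (fun _ => y) (fun _ => hy) q hq1 hq2
  have h2 := (measurePreserving_funUnique μ (Fin 1)).symm
  have h3 := h2.measure_preimage_equiv {x : Fin 1 → ℝ | (∀ i, |x i| ≤ B) ∧ ∃ n ∈ {n : Fin 1 → ℤ | n 0 ∈ Bad q},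
    ∀ i, |(n i : ℝ) - (a * x i + y)| ≤ Real.log a ^ T}
  refine le_trans (le_of_eq ?_) h1
  refine congrArg ENNReal.toReal (Eq.trans (congrArg μ ?_) h3)
  ext x
  simp only [Set.mem_setOf_eq, Set.mem_preimage]
  constructor
  · rintro ⟨h4, n, hn, h5⟩
    exact ⟨fun _ => h4, fun _ => n, hn, fun _ => h5⟩
  · rintro ⟨h4, n, hn, h5⟩
    exact ⟨h4 0, n 0, hn, h5 0⟩

/-- the trivial bound -/
lemma WW_triv (T H Q : ℕ) (lam : ℕ → ℝ) (ζ : ℕ → ℕ) (n : ℕ) (hQ : Q ≤ H) (hH : 1 ≤ Real.log H)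
    (hlam : ∀ m, |lam m| ≤ (Real.log H * (m.divisors.card : ℝ)) ^ T) (hζ : ∀ m, ζ m ≤ H) :
    |WW lam ζ Q n| ≤ 5 * H * Real.log H ^ (T + 1) * (2 * Real.log H) ^ (2 ^ T) := by
  classical
  obtain ⟨L, hL⟩ : ∃ L, L = Real.log (H : ℝ) := ⟨_, rfl⟩
  rw [← hL] at hlam hH ⊢
  have hL0 : 0 ≤ L := by linarith
  unfold WW
  refine (abs_sum_le_sum_abs _ _).trans ?_
  refine (sum_le_sum_of_subset_of_nonneg (filter_subset _ _) (fun _ _ _ => abs_nonneg _)).trans ?_
  calc ∑ m ∈ Icc 1 Q, |lam m * (Fu (fun n => ArithmeticFunction.vonMangoldt n) (ζ m) m n - (ζ m : ℝ) / Nat.totient m)|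
      ≤ ∑ m ∈ Icc 1 Q, 5 * H * L ^ (T + 1) * ((m.divisors.card : ℝ) ^ T / m) := by
        apply sum_le_sum
        intro m hm
        rw [mem_Icc] at hm
        rw [abs_mul]
        calc |lam m| * |Fu (fun n => ArithmeticFunction.vonMangoldt n) (ζ m) m n - (ζ m : ℝ) / Nat.totient m|
            ≤ (L * (m.divisors.card : ℝ)) ^ T * (5 * L * H * (1 / (m : ℝ))) :=
              mul_le_mul (hlam m) (E_le m (ζ m) n H L hm.1 (hm.2.trans hQ) (hζ m) hL.symm hH) (abs_nonneg _)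
                (by positivity)
          _ = _ := by rw [mul_pow, pow_succ]; ring
    _ = 5 * H * L ^ (T + 1) * ∑ m ∈ Icc 1 Q, (m.divisors.card : ℝ) ^ T / m := by rw [mul_sum]
    _ ≤ 5 * H * L ^ (T + 1) * ∑ m ∈ Icc 1 H, (m.divisors.card : ℝ) ^ T / m := by
        apply mul_le_mul_of_nonneg_left _ (by positivity)
        apply sum_le_sum_of_subset_of_nonneg (Icc_subset_Icc_right hQ)
        intro m _ _
        positivity
    _ ≤ 5 * H * L ^ (T + 1) * (1 + L) ^ (2 ^ T) := by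
        apply mul_le_mul_of_nonneg_left _ (by positivity)
        rw [hL]
        exact tau_pow_div T H
    _ ≤ _ := by
        apply mul_le_mul_of_nonneg_left _ (by positivity)
        exact pow_le_pow_left₀ (by positivity) (by linarith) _

/-- the integrand -/
noncomputable def intg (a y : ℝ) (w : ℝ → ℝ) (F : ℕ → ℝ) (x : ℝ) : ℝ :=
  if 0 < ⌊a * x + y⌋ then w x * F ⌊a * x + y⌋.toNat else 0

lemma intg_meas (a y : ℝ) (w : ℝ → ℝ) (hw : Measurable w) (F : ℕ → ℝ) : Measurable (intg a y w F) := by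
  unfold intg
  have h1 : Measurable (fun x : ℝ => ⌊a * x + y⌋) := Int.measurable_floor.comp (by fun_prop)
  apply Measurable.ite
  · exact h1 (MeasurableSet.of_discrete : MeasurableSet {n : ℤ | 0 < n})
  · exact hw.mul ((measurable_of_countable (fun n : ℤ => F n.toNat)).comp h1)
  · exact measurable_const

/-- comparison of the levels -/
lemma level_cmpR (B : ℕ) (hB : 1 ≤ B) : ∀ᶠ a : ℝ in atTop,
      (⌊a / Real.exp (Real.log (Real.log a) ^ 3)⌋₊ : ℝ) *
        Real.exp (Real.log (Real.log (⌈((B : ℝ) + 1) * a⌉₊ : ℝ)) ^ 3) ≤ (⌈((B : ℝ) + 1) * a⌉₊ : ℝ) := by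
  have h1 : Tendsto (fun l : ℝ => Real.log l ^ 2 / l) atTop (nhds 0) := by
    have h := (Real.isLittleO_pow_log_id_atTop (n := 2)).tendsto_div_nhds_zero
    exact h
  have h2 : Tendsto (fun a : ℝ => Real.log a) atTop atTop := Real.tendsto_log_atTop
  have hB0 : (0 : ℝ) ≤ B := Nat.cast_nonneg B
  have hlB : 0 < Real.log ((B : ℝ) + 2) := Real.log_pos (by linarith)
  have h3 : ∀ᶠ l : ℝ in atTop, Real.log l ^ 2 / l < Real.log 2 / (7 * Real.log ((B : ℝ) + 2)) :=
    h1.eventually_lt_const (div_pos (Real.log_pos (by norm_num)) (by positivity))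
  filter_upwards [eventually_gt_atTop (1 : ℝ), h2.eventually_ge_atTop ((B : ℝ) + 2), h2.eventually h3,
    h2.eventually_ge_atTop (Real.exp 1), h2.eventually_ge_atTop (Real.log ((B : ℝ) + 2))] with a hs1 hs2 h4 h5 h6
  obtain ⟨g1, g2, g3, g4⟩ := size_cmp B a hs1 (by linarith) hs2
  have ha0 : 0 < a := by linarith
  obtain ⟨H, hH⟩ : ∃ H : ℝ, H = (⌈((B : ℝ) + 1) * a⌉₊ : ℝ) := ⟨_, rfl⟩
  rw [← hH] at g1 g2 g3 g4 ⊢
  have hH2 : 2 * a ≤ H := by
    rw [hH]
    refine le_trans ?_ (Nat.le_ceil _)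
    have : (1 : ℝ) ≤ B := by exact_mod_cast hB
    nlinarith
  obtain ⟨l, hl⟩ : ∃ l, l = Real.log a := ⟨_, rfl⟩
  rw [← hl] at h4 h5 h6 ⊢
  have hl0 : 0 < l := lt_of_lt_of_le (Real.exp_pos 1) h5
  have hu1 : 1 ≤ Real.log l := by
    rw [Real.le_log_iff_exp_le hl0]
    exact h5
  obtain ⟨u, hu⟩ : ∃ u, u = Real.log l := ⟨_, rfl⟩
  rw [← hu] at hu1 h4 ⊢
  obtain ⟨β, hβ⟩ : ∃ β, β = Real.log ((B : ℝ) + 2) := ⟨_, rfl⟩
  rw [← hβ] at hlB h4 h6
  -- `log log H ≤ u + β / l`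
  have hlH : Real.log H ≤ l + β := by
    rw [hl, hβ, ← Real.log_mul ha0.ne' (by positivity), mul_comm]
    exact Real.log_le_log (by linarith) g2
  have hlHl : l ≤ Real.log H := by rw [hl]; exact g3
  have hd1 : β / l ≤ 1 := (div_le_one hl0).2 h6
  have hd0 : 0 < β / l := by positivity
  have hllH : Real.log (Real.log H) ≤ u + β / l := by
    calc Real.log (Real.log H) ≤ Real.log (l + β) := Real.log_le_log (by linarith) hlH
      _ = Real.log (l * (1 + β / l)) := by congr 1; field_simp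
      _ = u + Real.log (1 + β / l) := by rw [Real.log_mul hl0.ne' (by positivity), hu]
      _ ≤ u + β / l := by
          have := Real.log_le_sub_one_of_pos (show 0 < 1 + β / l by positivity)
          linarith
  have hllH0 : 0 ≤ Real.log (Real.log H) := by
    have : u ≤ Real.log (Real.log H) := by rw [hu]; exact Real.log_le_log hl0 hlHl
    linarith
  have hcube : Real.log (Real.log H) ^ 3 ≤ u ^ 3 + Real.log 2 := by
    have e1 : Real.log (Real.log H) ^ 3 ≤ (u + β / l) ^ 3 := pow_le_pow_left₀ hllH0 hllH 3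
    have e2 : u ^ 2 * (β / l) * 7 ≤ Real.log 2 := by
      have e3 : u ^ 2 / l * (7 * β) ≤ Real.log 2 := by
        have := (lt_div_iff₀ (show 0 < 7 * β by positivity)).1 h4
        exact this.le
      calc u ^ 2 * (β / l) * 7 = u ^ 2 / l * (7 * β) := by ring
        _ ≤ _ := e3
    have e4 : (u + β / l) ^ 3 ≤ u ^ 3 + u ^ 2 * (β / l) * 7 := by
      obtain ⟨d, hd⟩ : ∃ d, d = β / l := ⟨_, rfl⟩
      rw [← hd] at hd0 hd1 ⊢
      nlinarith [mul_nonneg hd0.le hd0.le, mul_nonneg (mul_nonneg hd0.le hd0.le) (by linarith : 0 ≤ u),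
        mul_nonneg hd0.le (sub_nonneg.2 hd1), mul_nonneg (mul_nonneg hd0.le (sub_nonneg.2 hd1)) (by linarith : 0 ≤ u),
        mul_nonneg (mul_nonneg hd0.le hd0.le) (sub_nonneg.2 hd1),
        mul_nonneg hd0.le (mul_nonneg (by linarith : (0:ℝ) ≤ u) (sub_nonneg.2 hu1)),
        mul_nonneg hd0.le (sub_nonneg.2 hu1)]
    linarith
  have hQ : (⌊a / Real.exp (u ^ 3)⌋₊ : ℝ) ≤ a / Real.exp (u ^ 3) := Nat.floor_le (by positivity)
  calc (⌊a / Real.exp (u ^ 3)⌋₊ : ℝ) * Real.exp (Real.log (Real.log H) ^ 3) ≤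
        a / Real.exp (u ^ 3) * Real.exp (u ^ 3 + Real.log 2) :=
        mul_le_mul hQ (Real.exp_le_exp.2 hcube) (Real.exp_pos _).le (by positivity)
    _ = 2 * a := by
        rw [Real.exp_add, Real.exp_log (by norm_num)]
        field_simp
    _ ≤ H := hH2

/-- the discrepancy, zero if the residue is not coprime to the modulus -/
noncomputable def Ec (z m n : ℕ) : ℝ :=
  if n.Coprime m then Fu (fun n => ArithmeticFunction.vonMangoldt n) z m n - (z : ℝ) / Nat.totient m else 0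

lemma WW_eq (lam : ℕ → ℝ) (ζ : ℕ → ℕ) (Q n : ℕ) : WW lam ζ Q n = ∑ m ∈ Icc 1 Q, lam m * Ec (ζ m) m n := by
  classical
  unfold WW Ec
  rw [sum_filter]
  apply sum_congr rfl
  intro m _
  by_cases h : n.Coprime m
  · rw [if_pos h, if_pos h]
  · rw [if_neg h, if_neg h, mul_zero]

/-- **Averages of the discrepancies over measures.** -/
theorem mean_levels (B T U : ℕ) (hB : 1 ≤ B) (μ : Measure ℝ) [IsProbabilityMeasure μ] (hμ : SelfSim μ ∨ FourLp μ) :
    ∃ a₀ : ℝ, ∀ a : ℝ, a₀ ≤ a → ∀ y : ℝ, |y| ≤ B * a → ∀ w : ℝ → ℝ, Measurable w →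
    (∀ x, |w x| ≤ Real.log a ^ T) → (∀ x, (B : ℝ) < |x| → w x = 0) → ∀ ζ : ℕ → ℕ, (∀ m, (ζ m : ℝ) ≤ B * a) →
    ∑ m ∈ Icc 1 ⌊a / Real.exp (Real.log (Real.log a) ^ 3)⌋₊, (m.divisors.card : ℝ) ^ T *
      |∫ x, intg a y w (Ec (ζ m) m) x ∂μ| ≤ a / Real.log a ^ U := by
  classical
  obtain ⟨U₁, hU₁⟩ : ∃ U₁, U₁ = U + T + 2 := ⟨_, rfl⟩
  obtain ⟨U₂, hU₂⟩ : ∃ U₂, U₂ = U + T + (T + 1) + 2 * 2 ^ T + 2 * T + 8 := ⟨_, rfl⟩
  obtain ⟨a₁, h1⟩ := rare_one (eng_levels T 1 U₁) μ (niceM_of μ hμ) (B + 2) U₂ 0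
  have hev : ∀ᶠ a : ℝ in atTop, (B : ℝ) + 2 ≤ Real.log a ∧ (2 : ℝ) ≤ Real.log a ∧ 1 < a ∧
      10 * ((B : ℝ) + 2) * 8 ^ (2 ^ T) * 4 ^ (T + 1) ≤ Real.log a :=
    (((Real.tendsto_log_atTop.eventually_ge_atTop _).and ((Real.tendsto_log_atTop.eventually_ge_atTop _).and
      ((eventually_gt_atTop 1).and (Real.tendsto_log_atTop.eventually_ge_atTop _)))))
  obtain ⟨a₂, h2⟩ := eventually_atTop.1 (hev.and (level_cmpR B hB))
  refine ⟨max a₁ a₂, fun a ha y hy w hw hw1 hw2 ζ hζ => ?_⟩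
  obtain ⟨⟨f1, f2, f3, f4⟩, f5⟩ := h2 a ((le_max_right _ _).trans ha)
  have h3 := h1 a ((le_max_left _ _).trans ha)
  obtain ⟨g1, g2, g3, g4⟩ := size_cmp B a f3 (by linarith) f1
  obtain ⟨H, hH⟩ : ∃ H : ℕ, H = ⌈((B : ℝ) + 1) * a⌉₊ := ⟨_, rfl⟩
  obtain ⟨Q, hQ⟩ : ∃ Q : ℕ, Q = ⌊a / Real.exp (Real.log (Real.log a) ^ 3)⌋₊ := ⟨_, rfl⟩
  rw [← hH] at g1 g2 g3 g4 f5
  rw [← hQ] at f5 ⊢
  have hB0 : (0 : ℝ) ≤ B := Nat.cast_nonneg B
  have ha0 : 0 < a := by linarith
  have hζH : ∀ m, ζ m ≤ H := by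
    intro m
    refine (Nat.cast_le (α := ℝ)).1 ?_
    rw [hH]
    refine (hζ m).trans (le_trans ?_ (Nat.le_ceil _))
    nlinarith
  have hlH1 : 2 ≤ Real.log H := f2.trans g3
  have hQH : Q ≤ H := by
    refine (Nat.cast_le (α := ℝ)).1 ?_
    refine le_trans ?_ f5
    have e1 : (0 : ℝ) ≤ Real.log (Real.log H) := Real.log_nonneg (by linarith)
    have e2 : (1 : ℝ) ≤ Real.exp (Real.log (Real.log H) ^ 3) := Real.one_le_exp (by positivity)
    have e3 : (0 : ℝ) ≤ Q := Nat.cast_nonneg _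
    nlinarith
  obtain ⟨G, hG⟩ : ∃ G : ℕ → ℝ, G = fun m => ∫ x, intg a y w (Ec (ζ m) m) x ∂μ := ⟨_, rfl⟩
  obtain ⟨lam, hlam⟩ : ∃ lam : ℕ → ℝ, lam = fun m => (m.divisors.card : ℝ) ^ T * SignType.sign (G m) := ⟨_, rfl⟩
  have hlam1 : ∀ m, |lam m| ≤ (Real.log H * (m.divisors.card : ℝ)) ^ T := by
    intro m
    rw [hlam]
    simp only
    rw [abs_mul, mul_pow, abs_of_nonneg (by positivity : (0 : ℝ) ≤ (m.divisors.card : ℝ) ^ T)]
    have e1 : |((SignType.sign (G m) : SignType) : ℝ)| ≤ 1 := by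
      rcases lt_trichotomy (G m) 0 with h | h | h
      · rw [sign_neg h]; simp
      · rw [h]; simp
      · rw [sign_pos h]; simp
    have e2 : (1 : ℝ) ≤ Real.log H ^ T := one_le_pow₀ (by linarith)
    have e3 : (0 : ℝ) ≤ (m.divisors.card : ℝ) ^ T := by positivity
    nlinarith
  obtain ⟨L, hL⟩ : ∃ L, L = Real.log a := ⟨_, rfl⟩
  have hL0 : 0 < L := by rw [hL]; linarith
  -- integrability
  have hint : ∀ (F : ℕ → ℝ) (C : ℝ), (∀ n, |F n| ≤ C) → Integrable (intg a y w F) μ := by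
    intro F C hF
    have hC : 0 ≤ C := (abs_nonneg _).trans (hF 0)
    apply Integrable.of_bound (intg_meas a y w hw F).aestronglyMeasurable (Real.log a ^ T * C)
    apply Filter.Eventually.of_forall
    intro x
    unfold intg
    rw [Real.norm_eq_abs]
    split_ifs
    · rw [abs_mul]
      exact mul_le_mul (hw1 x) (hF _) (abs_nonneg _) (by positivity)
    · rw [abs_zero]
      positivity
  have hEc : ∀ m ∈ Icc 1 Q, ∀ n, |Ec (ζ m) m n| ≤ 5 * Real.log H * H := by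
    intro m hm n
    rw [mem_Icc] at hm
    unfold Ec
    split_ifs
    · refine (E_le m (ζ m) n H _ hm.1 (hm.2.trans hQH) (hζH m) rfl (by linarith)).trans ?_
      have e1 : (1 : ℝ) / m ≤ 1 := by
        rw [div_le_one (by exact_mod_cast hm.1)]
        exact_mod_cast hm.1
      have e2 : 0 ≤ 5 * Real.log H * H := by positivity
      nlinarith
    · rw [abs_zero]
      positivity
  have hsum : ∑ m ∈ Icc 1 Q, (m.divisors.card : ℝ) ^ T * |∫ x, intg a y w (Ec (ζ m) m) x ∂μ| =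
      ∫ x, intg a y w (WW lam ζ Q) x ∂μ := by
    calc ∑ m ∈ Icc 1 Q, (m.divisors.card : ℝ) ^ T * |∫ x, intg a y w (Ec (ζ m) m) x ∂μ|
        = ∑ m ∈ Icc 1 Q, ∫ x, lam m * intg a y w (Ec (ζ m) m) x ∂μ := by
          apply sum_congr rfl
          intro m _
          rw [integral_const_mul, hlam, hG]
          simp only
          rw [mul_assoc]
          congr 1
          rcases lt_trichotomy (∫ x, intg a y w (Ec (ζ m) m) x ∂μ) 0 with h | h | h
          · rw [sign_neg h, abs_of_neg h]; simp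
          · rw [h]; simp
          · rw [sign_pos h, abs_of_pos h]; simp
      _ = ∫ x, ∑ m ∈ Icc 1 Q, lam m * intg a y w (Ec (ζ m) m) x ∂μ := by
          rw [integral_finset_sum]
          intro m hm
          exact (hint _ _ (hEc m hm)).const_mul _
      _ = _ := by
          congr 1
          funext x
          unfold intg
          by_cases h : 0 < ⌊a * x + y⌋
          · simp only [if_pos h]
            rw [WW_eq, mul_sum]
            apply sum_congr rfl
            intro m _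
            ring
          · simp only [if_neg h, mul_zero, sum_const_zero]
  rw [hsum]
  -- the exceptional set
  obtain ⟨A, hA⟩ : ∃ A : Set ℝ, A = {x : ℝ | |x| ≤ (B : ℝ) ∧ 0 < ⌊a * x + y⌋ ∧
    (H : ℝ) / Real.log H ^ U₁ < |WW lam ζ Q ⌊a * x + y⌋.toNat|} := ⟨_, rfl⟩
  have hfl : Measurable (fun x : ℝ => ⌊a * x + y⌋) := Int.measurable_floor.comp (by fun_prop)
  have hAm : MeasurableSet A := by
    rw [hA]
    have e1 : MeasurableSet {x : ℝ | |x| ≤ B} := measurableSet_le measurable_norm measurable_const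
    have e2 : MeasurableSet {n : ℤ | 0 < n ∧ (H : ℝ) / Real.log H ^ U₁ < |WW lam ζ Q n.toNat|} := MeasurableSet.of_discrete
    exact e1.inter (hfl e2)
  have hAμ : μ.real A ≤ 1 / L ^ U₂ := by
    have e1 := h3 y (hy.trans (mul_le_mul_of_nonneg_right (by push_cast; linarith) ha0.le))
      ⟨H, Q, 1, fun _ => lam, fun _ => ζ, f5, by push_cast; rw [pow_one]; linarith, fun _ => hlam1, fun _ => hζH⟩
      (by
        show a ≤ ((B + 2 : ℕ) : ℝ) * (H : ℝ)
        push_cast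
        nlinarith)
      (by
        show (H : ℝ) ≤ ((B + 2 : ℕ) : ℝ) * a
        push_cast
        exact g2)
    rw [hL]
    refine le_trans (measureReal_mono ?_) e1
    intro x hx
    rw [hA] at hx
    obtain ⟨k1, k2, k3⟩ := hx
    refine ⟨?_, ⌊a * x + y⌋, ⟨k2, 0, Or.inr k3⟩, ?_⟩
    · push_cast
      linarith
    · rw [pow_zero, abs_le]
      have := Int.floor_le (a * x + y)
      have := Int.lt_floor_add_one (a * x + y)
      constructor <;> linarith
  obtain ⟨tr, htr⟩ : ∃ tr : ℝ, tr = 5 * H * Real.log H ^ (T + 1) * (2 * Real.log H) ^ (2 ^ T) := ⟨_, rfl⟩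
  have htr0 : 0 ≤ tr := by
    have : 0 ≤ Real.log (H : ℝ) := by linarith
    rw [htr]; positivity
  have hbound : ∀ x, |intg a y w (WW lam ζ Q) x| ≤ L ^ T * ((H : ℝ) / Real.log H ^ U₁) + A.indicator (fun _ => L ^ T * tr) x := by
    intro x
    have p0 : 0 ≤ Real.log (H : ℝ) := by linarith
    have p1 : 0 ≤ L ^ T * ((H : ℝ) / Real.log H ^ U₁) := by positivity
    have p2 : 0 ≤ A.indicator (fun _ => L ^ T * tr) x := Set.indicator_nonneg (fun _ _ => by positivity) x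
    unfold intg
    by_cases h : 0 < ⌊a * x + y⌋
    · rw [if_pos h, abs_mul]
      by_cases hx : |x| ≤ B
      · have e1 := hw1 x
        rw [← hL] at e1
        by_cases hbig : (H : ℝ) / Real.log H ^ U₁ < |WW lam ζ Q ⌊a * x + y⌋.toNat|
        · have hxA : x ∈ A := by rw [hA]; exact ⟨hx, h, hbig⟩
          rw [Set.indicator_of_mem hxA]
          have e2 := WW_triv T H Q lam ζ ⌊a * x + y⌋.toNat hQH (by linarith) hlam1 hζH
          rw [← htr] at e2
          have e3 : |w x| * |WW lam ζ Q ⌊a * x + y⌋.toNat| ≤ L ^ T * tr :=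
            mul_le_mul e1 e2 (abs_nonneg _) (by positivity)
          linarith
        · push Not at hbig
          have e3 : |w x| * |WW lam ζ Q ⌊a * x + y⌋.toNat| ≤ L ^ T * ((H : ℝ) / Real.log H ^ U₁) :=
            mul_le_mul e1 hbig (abs_nonneg _) (by positivity)
          linarith
      · push Not at hx
        rw [hw2 x hx, abs_zero, zero_mul]
        linarith
    · rw [if_neg h, abs_zero]
      linarith
  have hint2 : Integrable (fun x => L ^ T * ((H : ℝ) / Real.log H ^ U₁) + A.indicator (fun _ => L ^ T * tr) x) μ :=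
    (integrable_const _).add ((integrable_const _).indicator hAm)
  have hfin : ∫ x, intg a y w (WW lam ζ Q) x ∂μ ≤ L ^ T * ((H : ℝ) / Real.log H ^ U₁) + L ^ T * tr * (1 / L ^ U₂) := by
    calc ∫ x, intg a y w (WW lam ζ Q) x ∂μ ≤
        ∫ x, (L ^ T * ((H : ℝ) / Real.log H ^ U₁) + A.indicator (fun _ => L ^ T * tr) x) ∂μ := by
          apply integral_mono (hint _ tr fun n => ?_) hint2 (fun x => (le_abs_self _).trans (hbound x))
          rw [htr]
          exact WW_triv T H Q lam ζ n hQH (by linarith) hlam1 hζH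
      _ = L ^ T * ((H : ℝ) / Real.log H ^ U₁) + μ.real A * (L ^ T * tr) := by
          rw [integral_add (integrable_const _) ((integrable_const _).indicator hAm), integral_const,
            integral_indicator_const _ hAm]
          simp
      _ ≤ _ := by
          have : 0 ≤ L ^ T * tr := by positivity
          nlinarith
  refine hfin.trans ?_
  have hL2 : 2 ≤ L := by rw [hL]; exact f2
  have hV : U₁ = (U + T + 1) + 1 := by omega
  have hfirst : L ^ T * ((H : ℝ) / Real.log H ^ U₁) ≤ (1 / 2) * (a / L ^ U) := by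
    rw [hV]
    have e1 := g4 (U + T + 1)
    rw [← hL] at e1
    calc L ^ T * ((H : ℝ) / Real.log H ^ (U + T + 1 + 1)) ≤ L ^ T * (a / L ^ (U + T + 1)) :=
          mul_le_mul_of_nonneg_left e1 (by positivity)
      _ = (1 / L) * (a / L ^ U) := by
          rw [pow_add, pow_add]
          field_simp
      _ ≤ (1 / 2) * (a / L ^ U) := by
          apply mul_le_mul_of_nonneg_right _ (by positivity)
          exact one_div_le_one_div_of_le (by norm_num) hL2
  have hlH : Real.log H ≤ 2 * L := by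
    have e1 : Real.log H ≤ Real.log (((B : ℝ) + 2) * a) := Real.log_le_log (by linarith) g2
    rw [Real.log_mul (by positivity) ha0.ne', ← hL] at e1
    have e2 : Real.log ((B : ℝ) + 2) ≤ (B : ℝ) + 2 := (Real.log_le_sub_one_of_pos (by positivity)).trans (by linarith)
    have e3 : (B : ℝ) + 2 ≤ L := by rw [hL]; exact f1
    linarith
  have hlH0 : 0 ≤ Real.log (H : ℝ) := by linarith
  have htr1 : tr ≤ 5 * ((B : ℝ) + 2) * 4 ^ (T + 1) * 8 ^ (2 ^ T) * a * L ^ (T + 1 + 2 ^ T) := by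
    rw [htr]
    calc 5 * (H : ℝ) * Real.log H ^ (T + 1) * (2 * Real.log H) ^ (2 ^ T)
        ≤ 5 * (((B : ℝ) + 2) * a) * (4 * L) ^ (T + 1) * (8 * L) ^ (2 ^ T) := by
          apply mul_le_mul _ _ (by positivity) (by positivity)
          · apply mul_le_mul _ _ (by positivity) (by positivity)
            · linarith
            · exact pow_le_pow_left₀ hlH0 (by linarith) _
          · exact pow_le_pow_left₀ (by positivity) (by linarith) _
      _ = _ := by
          rw [mul_pow, mul_pow, pow_add L (T + 1) (2 ^ T)]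
          ring
  have hsecond : L ^ T * tr * (1 / L ^ U₂) ≤ (1 / 2) * (a / L ^ U) := by
    have e1 : L ^ U₂ = L ^ U * (L ^ T * L ^ (T + 1 + 2 ^ T)) * L ^ (2 ^ T + 2 * T + 8) := by
      rw [hU₂, ← pow_add, ← pow_add, ← pow_add]
      congr 1
      ring
    have e2 : 10 * ((B : ℝ) + 2) * 8 ^ (2 ^ T) * 4 ^ (T + 1) ≤ L ^ (2 ^ T + 2 * T + 8) := by
      rw [hL]
      refine f4.trans ?_
      calc Real.log a = Real.log a ^ 1 := (pow_one _).symm
        _ ≤ _ := pow_le_pow_right₀ (by linarith) (by omega)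
    rw [e1, mul_one_div, div_le_iff₀ (by positivity)]
    have e3 : (1 / 2) * (a / L ^ U) * (L ^ U * (L ^ T * L ^ (T + 1 + 2 ^ T)) * L ^ (2 ^ T + 2 * T + 8)) =
        L ^ T * ((1 / 2) * a * L ^ (T + 1 + 2 ^ T) * L ^ (2 ^ T + 2 * T + 8)) := by
      field_simp
    rw [e3]
    apply mul_le_mul_of_nonneg_left _ (by positivity)
    refine htr1.trans ?_
    have e4 : 0 ≤ a * L ^ (T + 1 + 2 ^ T) := by positivity
    nlinarith [mul_le_mul_of_nonneg_left e2 e4]
  rw [← hL]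
  linarith

end Pool.Agent.Q259.AS
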