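import Pool.Agent.Q259.AS.LevM

set_option autoImplicit false

/-! Magnified typical points: integers near `a {c x + d} + y` with arbitrary large `c`. -/

namespace Pool.Agent.Q259.AS

open Finset MeasureTheory Filter

lemma selfSim_neg (μ : Measure ℝ) (h : SelfSim μ) : SelfSim (μ.map (fun x => -x)) := by
  obtain ⟨m, p, ρ, t, hp, hρ, ⟨i0, j0, hij⟩, hinv⟩ := h
  have hneg : Measurable (fun x : ℝ => -x) := measurable_neg
  refine ⟨m, p, ρ, fun i => -t i, hp, hρ, ⟨i0, j0, fun hcon => hij ?_⟩, ?_⟩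
  · linarith
  · intro A hA
    have h1 : ∀ A : Set ℝ, MeasurableSet A → (μ.map (fun x => -x)).real A = μ.real ((fun x => -x) ⁻¹' A) := by
      intro A hA
      rw [Measure.real, Measure.real, Measure.map_apply hneg hA]
    rw [h1 A hA, hinv _ (hneg hA)]
    apply sum_congr rfl
    intro i _
    rw [h1 _ ((show Measurable (fun x : ℝ => ρ i * x + -t i) by fun_prop) hA)]
    congr 2
    ext x
    simp only [Set.mem_preimage]
    have : -(ρ i * x + t i) = ρ i * -x + -t i := by ring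
    rw [this]

lemma near_meas (Bad : Set ℤ) (a c d y R : ℝ) :
    MeasurableSet {x : ℝ | ∃ n ∈ Bad, |(n : ℝ) - (a * Int.fract (c * x + d) + y)| ≤ R} := by
  have h1 : MeasurableSet {z : ℝ | ∃ n ∈ Bad, |(n : ℝ) - z| ≤ R} := by
    have : {z : ℝ | ∃ n ∈ Bad, |(n : ℝ) - z| ≤ R} = ⋃ n ∈ Bad, {z : ℝ | |(n : ℝ) - z| ≤ R} := by
      ext z
      simp
    rw [this]
    apply MeasurableSet.biUnion (Set.to_countable _)
    intro n _
    exact measurableSet_le (by fun_prop) measurable_const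
  have h2 : Measurable (fun x : ℝ => a * Int.fract (c * x + d) + y) :=
    ((measurable_fract.comp (by fun_prop)).const_mul a).add_const y
  exact h2 h1

/-- the induction over the magnifications -/
lemma mag_iter (μ : Measure ℝ) [IsProbabilityMeasure μ] {Q : Type} [Fintype Q] [DecidableEq Q] (Y : Sys Q) (hμ : Inv μ Y)
    (Bad : Set ℤ) (a y R δ : ℝ)
    (hbase : ∀ c d : ℝ, Y.r0 ≤ |c| → |c| ≤ 1 → μ.real {x : ℝ | ∃ n ∈ Bad, |(n : ℝ) - (a * Int.fract (c * x + d) + y)| ≤ R} ≤ δ)
    (j : ℕ) : ∀ c d : ℝ, Y.r0 ≤ |c| → |c| * Y.r1 ^ j ≤ 1 →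
      μ.real {x : ℝ | ∃ n ∈ Bad, |(n : ℝ) - (a * Int.fract (c * x + d) + y)| ≤ R} ≤ δ := by
  have hr1 := Y.r1_pos
  induction j with
  | zero =>
    intro c d h1 h2
    rw [pow_zero, mul_one] at h2
    exact hbase c d h1 h2
  | succ j ih =>
    intro c d h1 h2
    by_cases hc : |c| ≤ 1
    · exact hbase c d h1 hc
    · push Not at hc
      rw [hμ _ (near_meas Bad a c d y R)]
      calc ∑ q, Y.P q * μ.real ((fun x => Y.r q * x + Y.s q) ⁻¹' {x : ℝ | ∃ n ∈ Bad,
            |(n : ℝ) - (a * Int.fract (c * x + d) + y)| ≤ R}) ≤ ∑ q, Y.P q * δ := by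
            apply sum_le_sum
            intro q _
            apply mul_le_mul_of_nonneg_left _ (Y.hP q)
            have e1 : (fun x => Y.r q * x + Y.s q) ⁻¹' {x : ℝ | ∃ n ∈ Bad,
                |(n : ℝ) - (a * Int.fract (c * x + d) + y)| ≤ R} = {x : ℝ | ∃ n ∈ Bad,
                |(n : ℝ) - (a * Int.fract ((c * Y.r q) * x + (c * Y.s q + d)) + y)| ≤ R} := by
              ext x
              simp only [Set.mem_preimage, Set.mem_ofPred_eq]
              have : c * (Y.r q * x + Y.s q) + d = (c * Y.r q) * x + (c * Y.s q + d) := by ring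
              rw [this]
            rw [e1]
            have hrq := Y.hr q
            have hr0 := Y.h0
            apply ih
            · rw [abs_mul]
              nlinarith
            · rw [abs_mul]
              calc |c| * |Y.r q| * Y.r1 ^ j ≤ |c| * Y.r1 * Y.r1 ^ j := by
                    apply mul_le_mul_of_nonneg_right _ (by positivity)
                    exact mul_le_mul_of_nonneg_left hrq.2 (abs_nonneg _)
                _ = |c| * Y.r1 ^ (j + 1) := by rw [pow_succ]; ring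
                _ ≤ 1 := h2
        _ = δ := by rw [← sum_mul, Y.hP1, one_mul]

/-- **The exceptional sets are rarely met near the magnified points.** -/
theorem rare_mag {P : Type} {sz : P → ℕ} {Bad : P → Set ℤ} (hE : Eng1 P sz Bad) (μ : Measure ℝ)
    [IsProbabilityMeasure μ] (hμ : SelfSim μ) (B U T : ℕ) : ∃ a₀ : ℝ, ∀ a : ℝ, a₀ ≤ a → ∀ c d : ℝ, 1 ≤ |c| →
    ∀ y : ℝ, |y| ≤ B * a → ∀ q : P, a ≤ B * sz q → (sz q : ℝ) ≤ B * a →
    μ.real {x : ℝ | ∃ n ∈ Bad q, |(n : ℝ) - (a * Int.fract (c * x + d) + y)| ≤ Real.log a ^ T} ≤ 1 / Real.log a ^ U := by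
  classical
  obtain ⟨m, Y, hY⟩ := sys_of_selfSim μ hμ
  have hneg : Measurable (fun x : ℝ => -x) := measurable_neg
  haveI : IsProbabilityMeasure (μ.map (fun x => -x)) := Measure.isProbabilityMeasure_map hneg.aemeasurable
  obtain ⟨N₀, hN₀⟩ := exists_nat_ge (Y.X0 + 2)
  obtain ⟨R₀, hR₀⟩ := exists_nat_ge (1 / Y.r0)
  have hr0 := Y.h0
  have hr01 : Y.r0 ≤ 1 := by
    have h1 := Y.h1
    have hne : ∃ q : Fin m × Fin m, True := by
      by_contra hcon
      push Not at hcon
      have := Y.hP1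
      rw [sum_eq_zero (fun q _ => (hcon q).elim)] at this
      exact zero_ne_one this
    obtain ⟨q, _⟩ := hne
    have := Y.hr q
    linarith
  obtain ⟨B', hB'⟩ : ∃ B' : ℕ, B' = (B + N₀ + 1) * (R₀ + 1) := ⟨_, rfl⟩
  obtain ⟨a₁, h1⟩ := rare_one hE μ (niceM_of μ (Or.inl hμ)) B' (U + 1) (T + 1)
  obtain ⟨a₂, h2⟩ := rare_one hE (μ.map (fun x => -x)) (niceM_of _ (Or.inl (selfSim_neg μ hμ))) B' (U + 1) (T + 1)
  obtain ⟨a₃, h3⟩ := eventually_atTop.1 (Real.tendsto_log_atTop.eventually_ge_atTop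
    (2 * Real.log (1 / Y.r0) + 2 ^ (T + 1) + (2 * N₀ + 1) * 2 ^ (U + 1) + 2))
  refine ⟨max (max (a₁ / Y.r0) (a₂ / Y.r0)) (max a₃ 1), fun a ha c d hc y hy q hq1 hq2 => ?_⟩
  have ha1 : a₁ ≤ Y.r0 * a := by
    have := (le_max_left (a₁ / Y.r0) (a₂ / Y.r0)).trans ((le_max_left _ _).trans ha)
    rw [div_le_iff₀ hr0] at this
    linarith
  have ha2 : a₂ ≤ Y.r0 * a := by
    have := (le_max_right (a₁ / Y.r0) (a₂ / Y.r0)).trans ((le_max_left _ _).trans ha)
    rw [div_le_iff₀ hr0] at this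
    linarith
  have ha3 : a₃ ≤ a := (le_max_left _ _).trans ((le_max_right _ _).trans ha)
  have ha4 : 1 ≤ a := (le_max_right _ _).trans ((le_max_right _ _).trans ha)
  have ha0 : 0 < a := by linarith
  have hlog := h3 a ha3
  have hlr : 0 ≤ Real.log (1 / Y.r0) := Real.log_nonneg (by rw [le_div_iff₀ hr0]; linarith)
  obtain ⟨L, hL⟩ : ∃ L, L = Real.log a := ⟨_, rfl⟩
  rw [← hL] at hlog ⊢
  have hp1 : (0 : ℝ) < 2 ^ (T + 1) := by positivity
  have hp2 : (0 : ℝ) ≤ (2 * N₀ + 1) * 2 ^ (U + 1) := by positivity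
  have hL0 : 0 < L := by linarith
  have hL1 : 1 ≤ L := by linarith
  -- the base case
  have hbase : ∀ c d : ℝ, Y.r0 ≤ |c| → |c| ≤ 1 →
      μ.real {x : ℝ | ∃ n ∈ Bad q, |(n : ℝ) - (a * Int.fract (c * x + d) + y)| ≤ L ^ T} ≤ 1 / L ^ U := by
    intro c d hc1 hc2
    obtain ⟨a', ha'⟩ : ∃ a', a' = |c| * a := ⟨_, rfl⟩
    have hc0 : 0 < |c| := by linarith
    have ha'0 : 0 < a' := by rw [ha']; positivity
    have ha'1 : Y.r0 * a ≤ a' := by rw [ha']; exact mul_le_mul_of_nonneg_right hc1 ha0.le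
    have ha'2 : a' ≤ a := by rw [ha']; nlinarith
    have haR : a ≤ R₀ * a' := by
      have e1 : 1 ≤ R₀ * |c| := by
        rw [div_le_iff₀ hr0] at hR₀
        nlinarith
      rw [ha', ← mul_assoc]
      nlinarith
    have hR0 : (0 : ℝ) ≤ R₀ := Nat.cast_nonneg _
    have hBn : (0 : ℝ) ≤ B := Nat.cast_nonneg _
    have hNn : (0 : ℝ) ≤ N₀ := Nat.cast_nonneg _
    have hlog' : L / 2 ≤ Real.log a' := by
      have e1 : Real.log (Y.r0 * a) ≤ Real.log a' := Real.log_le_log (by positivity) ha'1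
      rw [Real.log_mul hr0.ne' ha0.ne', ← hL] at e1
      rw [one_div, Real.log_inv] at hlog hlr
      linarith
    have hl'0 : 0 < Real.log a' := by linarith
    have hTT : L ^ T ≤ Real.log a' ^ (T + 1) := by
      have e1 : (2 : ℝ) ^ (T + 1) ≤ L := by linarith
      calc L ^ T = (L ^ T * 2 ^ (T + 1)) / 2 ^ (T + 1) := by field_simp
        _ ≤ (L ^ T * L) / 2 ^ (T + 1) := by
            apply div_le_div_of_nonneg_right _ (by positivity)
            exact mul_le_mul_of_nonneg_left e1 (by positivity)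
        _ = (L / 2) ^ (T + 1) := by rw [div_pow, pow_succ L T]
        _ ≤ _ := pow_le_pow_left₀ (by linarith) hlog' _
    have hUU : (2 * N₀ + 1) * (1 / Real.log a' ^ (U + 1)) ≤ 1 / L ^ U := by
      have e1 : (2 * (N₀ : ℝ) + 1) * 2 ^ (U + 1) ≤ L := by linarith
      have e2 : (2 * (N₀ : ℝ) + 1) * L ^ U ≤ Real.log a' ^ (U + 1) := by
        calc (2 * (N₀ : ℝ) + 1) * L ^ U = ((2 * (N₀ : ℝ) + 1) * 2 ^ (U + 1) * L ^ U) / 2 ^ (U + 1) := by field_simp
          _ ≤ (L * L ^ U) / 2 ^ (U + 1) := by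
              apply div_le_div_of_nonneg_right _ (by positivity)
              exact mul_le_mul_of_nonneg_right e1 (by positivity)
          _ = (L / 2) ^ (U + 1) := by rw [div_pow, pow_succ L U]; ring
          _ ≤ _ := pow_le_pow_left₀ (by linarith) hlog' _
      rw [mul_one_div, div_le_div_iff₀ (by positivity) (by positivity), one_mul]
      exact e2
    obtain ⟨F, hF⟩ : ∃ F : ℤ → Set ℝ, F = fun (m : ℤ) => {x : ℝ | |x| ≤ B' ∧ ∃ n ∈ Bad q,
      |(n : ℝ) - (a * (c * x) + (a * (d - (m : ℝ)) + y))| ≤ Real.log a' ^ (T + 1)} := ⟨_, rfl⟩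
    have hsub : {x : ℝ | ∃ n ∈ Bad q, |(n : ℝ) - (a * Int.fract (c * x + d) + y)| ≤ L ^ T} ⊆
        {x | Y.X0 < |x|} ∪ ⋃ m ∈ Finset.Icc (⌊d⌋ - N₀) (⌊d⌋ + N₀), F m := by
      rintro x ⟨n, hn, hx⟩
      by_cases hxX : Y.X0 < |x|
      · exact Or.inl hxX
      · right
        push Not at hxX
        have hcx : |c * x| ≤ Y.X0 := by
          rw [abs_mul]
          have := abs_nonneg x
          nlinarith
        have hcx' := abs_le.1 hcx
        have g1 := Int.floor_le (c * x + d)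
        have g2 := Int.lt_floor_add_one (c * x + d)
        have g3 := Int.floor_le d
        have g4 := Int.lt_floor_add_one d
        simp only [Set.mem_iUnion]
        refine ⟨⌊c * x + d⌋, ?_, ?_⟩
        · rw [Finset.mem_Icc]
          constructor
          · have : ((⌊d⌋ - N₀ : ℤ) : ℝ) ≤ (⌊c * x + d⌋ : ℝ) := by
              push_cast
              linarith
            exact_mod_cast this
          · have : (⌊c * x + d⌋ : ℝ) ≤ ((⌊d⌋ + N₀ : ℤ) : ℝ) := by
              push_cast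
              linarith
            exact_mod_cast this
        · rw [hF]
          refine ⟨?_, n, hn, ?_⟩
          · have e1 : (N₀ : ℝ) ≤ B' := by
              rw [hB']
              push_cast
              nlinarith
            linarith
          · have e1 : a * (c * x) + (a * (d - (⌊c * x + d⌋ : ℝ)) + y) = a * Int.fract (c * x + d) + y := by
              rw [Int.fract]
              ring
            rw [e1]
            exact hx.trans hTT
    have hFm : ∀ m ∈ Finset.Icc (⌊d⌋ - (N₀ : ℤ)) (⌊d⌋ + N₀), μ.real (F m) ≤ 1 / Real.log a' ^ (U + 1) := by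
      intro m hm
      rw [Finset.mem_Icc] at hm
      have hm1 : (⌊d⌋ : ℝ) - N₀ ≤ m := by exact_mod_cast hm.1
      have hm2 : (m : ℝ) ≤ ⌊d⌋ + N₀ := by exact_mod_cast hm.2
      have g3 := Int.floor_le d
      have g4 := Int.lt_floor_add_one d
      have hdm : |d - m| ≤ N₀ + 1 := by
        rw [abs_le]
        constructor <;> linarith
      have hy' : |a * (d - m) + y| ≤ B' * a' := by
        calc |a * (d - m) + y| ≤ |a * (d - m)| + |y| := abs_add_le _ _
          _ ≤ a * (N₀ + 1) + B * a := by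
              rw [abs_mul, abs_of_pos ha0]
              exact add_le_add (mul_le_mul_of_nonneg_left hdm ha0.le) hy
          _ = (B + N₀ + 1) * a := by ring
          _ ≤ (B + N₀ + 1) * (R₀ * a') := mul_le_mul_of_nonneg_left haR (by positivity)
          _ ≤ B' * a' := by
              rw [hB']
              push_cast
              have : 0 ≤ (B + N₀ + 1 : ℝ) * a' := by positivity
              nlinarith
      have hBB : (B : ℝ) ≤ B' := by
        rw [hB']
        push_cast
        nlinarith [mul_nonneg hR0 hBn, mul_nonneg hR0 hNn]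
      have hs1 : a' ≤ B' * sz q := by
        refine ha'2.trans (hq1.trans ?_)
        exact mul_le_mul_of_nonneg_right hBB (Nat.cast_nonneg _)
      have hs2 : (sz q : ℝ) ≤ B' * a' := by
        refine hq2.trans ?_
        calc (B : ℝ) * a ≤ B * (R₀ * a') := mul_le_mul_of_nonneg_left haR hBn
          _ ≤ B' * a' := by
              rw [hB']
              push_cast
              nlinarith [mul_nonneg (mul_nonneg hR0 hNn) ha'0.le, mul_nonneg hR0 ha'0.le, mul_nonneg hBn ha'0.le,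
                mul_nonneg hNn ha'0.le, mul_nonneg (mul_nonneg hR0 hBn) ha'0.le]
      rcases lt_or_ge 0 c with hcpos | hcneg
      · have e1 := h1 a' (ha1.trans ha'1) _ hy' q hs1 hs2
        have e2 : F m = {x : ℝ | |x| ≤ B' ∧ ∃ n ∈ Bad q, |(n : ℝ) - (a' * x + (a * (d - m) + y))| ≤ Real.log a' ^ (T + 1)} := by
          rw [hF]
          ext x
          have : a * (c * x) = a' * x := by rw [ha', abs_of_pos hcpos]; ring
          simp only [Set.mem_ofPred_eq]
          rw [this]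
        rw [e2]
        exact e1
      · have e1 := h2 a' (ha2.trans ha'1) _ hy' q hs1 hs2
        refine le_trans ?_ e1
        have e2 : F m = (fun x => -x) ⁻¹' {x : ℝ | |x| ≤ B' ∧ ∃ n ∈ Bad q,
            |(n : ℝ) - (a' * x + (a * (d - m) + y))| ≤ Real.log a' ^ (T + 1)} := by
          rw [hF]
          ext x
          have : a * (c * x) = a' * -x := by rw [ha', abs_of_nonpos hcneg]; ring
          simp only [Set.mem_preimage, Set.mem_ofPred_eq, abs_neg]
          rw [this]
        rw [e2]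
        exact ENNReal.toReal_mono (measure_ne_top _ _) (Measure.le_map_apply hneg.aemeasurable _)
    calc μ.real {x : ℝ | ∃ n ∈ Bad q, |(n : ℝ) - (a * Int.fract (c * x + d) + y)| ≤ L ^ T} ≤
        μ.real ({x | Y.X0 < |x|} ∪ ⋃ m ∈ Finset.Icc (⌊d⌋ - N₀) (⌊d⌋ + N₀), F m) := measureReal_mono hsub
      _ ≤ μ.real {x | Y.X0 < |x|} + μ.real (⋃ m ∈ Finset.Icc (⌊d⌋ - N₀) (⌊d⌋ + N₀), F m) := measureReal_union_le _ _
      _ ≤ 0 + ∑ m ∈ Finset.Icc (⌊d⌋ - (N₀ : ℤ)) (⌊d⌋ + N₀), μ.real (F m) := by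
          rw [tail_zero μ Y hY]
          exact add_le_add_right (measureReal_biUnion_finset_le _ _) _
      _ ≤ 0 + ∑ m ∈ Finset.Icc (⌊d⌋ - (N₀ : ℤ)) (⌊d⌋ + N₀), 1 / Real.log a' ^ (U + 1) :=
          add_le_add_right (sum_le_sum hFm) _
      _ = (2 * N₀ + 1) * (1 / Real.log a' ^ (U + 1)) := by
          rw [zero_add, sum_const, nsmul_eq_mul, Int.card_Icc]
          congr 1
          have e1 : (⌊d⌋ + (N₀ : ℤ) + 1 - (⌊d⌋ - N₀)).toNat = 2 * N₀ + 1 := by omega
          rw [e1]
          push_cast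
          ring
      _ ≤ 1 / L ^ U := hUU
  -- the conclusion
  obtain ⟨j, hj⟩ : ∃ j : ℕ, |c| * Y.r1 ^ j ≤ 1 := by
    obtain ⟨j, hj⟩ := exists_pow_lt_of_lt_one (show 0 < 1 / |c| by positivity) Y.h1
    refine ⟨j, ?_⟩
    rw [lt_div_iff₀ (by linarith)] at hj
    linarith
  exact mag_iter μ Y hY (Bad q) a y (L ^ T) (1 / L ^ U) hbase j c d (hr01.trans hc) hj

end Pool.Agent.Q259.AS
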