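import Pool.Agent.Q259.AS.Mag

set_option autoImplicit false

/-! Magnified typical points: the almost sure statement. -/

namespace Pool.Agent.Q259.AS

open Finset MeasureTheory Filter

/-- **Almost every point: the magnified points are far from the exceptional sets.** -/
theorem as_mag {P : Type} {sz : P → ℕ} {Bad : P → Set ℤ} (hE : Eng1 P sz Bad) (μ : Measure ℝ)
    [IsProbabilityMeasure μ] (hμ : SelfSim μ) (ρ : ℝ) (hρ : 0 < ρ) (T A B : ℕ)
    {𝒥 : Type} (J : ℕ → Finset 𝒥) (a c d y : ℕ → 𝒥 → ℝ) (q : ℕ → 𝒥 → P)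
    (hJ : ∀ᶠ k : ℕ in atTop, (J k).card ≤ k ^ T ∧ ∀ j ∈ J k, 0 < a k j ∧ (k : ℝ) ^ ρ ≤ Real.log (a k j) ∧
      1 ≤ |c k j| ∧ |y k j| ≤ B * a k j ∧ a k j ≤ B * sz (q k j) ∧ (sz (q k j) : ℝ) ≤ B * a k j) :
    ∀ᵐ x ∂μ, ∀ᶠ k : ℕ in atTop, ∀ j ∈ J k, ∀ n ∈ Bad (q k j),
      Real.log (a k j) ^ A < |(n : ℝ) - (a k j * Int.fract (c k j * x + d k j) + y k j)| := by
  classical
  obtain ⟨U, hU⟩ := exp_choice ρ hρ T
  obtain ⟨a₀, h0⟩ := rare_mag hE μ hμ B U A
  have hlarge : ∀ᶠ k : ℕ in atTop, ∀ l : ℝ, 0 < l → (k : ℝ) ^ ρ ≤ Real.log l → a₀ ≤ l := by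
    have h1 : Tendsto (fun k : ℕ => (k : ℝ) ^ ρ) atTop atTop := (tendsto_rpow_atTop hρ).comp tendsto_natCast_atTop_atTop
    filter_upwards [h1.eventually_ge_atTop (Real.log (|a₀| + 1))] with k h2 l hl h3
    have h5 : Real.log (|a₀| + 1) ≤ Real.log l := h2.trans h3
    have h6 := (Real.log_le_log_iff (by positivity) hl).1 h5
    linarith [le_abs_self a₀]
  obtain ⟨k₀, hk₀⟩ := eventually_atTop.1 (hlarge.and (hJ.and (eventually_ge_atTop 2)))
  obtain ⟨E, hE⟩ : ∃ E : ℕ → Set ℝ, E = fun k => if k₀ ≤ k then ⋃ j ∈ J k,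
      {x : ℝ | ∃ n ∈ Bad (q k j), |(n : ℝ) - (a k j * Int.fract (c k j * x + d k j) + y k j)| ≤ Real.log (a k j) ^ A}
      else ∅ := ⟨_, rfl⟩
  have hmeas : ∀ k, μ (E k) ≤ ENNReal.ofReal (1 / (k : ℝ) ^ 2) := by
    intro k
    by_cases hk : k₀ ≤ k
    · obtain ⟨g1, ⟨g4, g5⟩, g7⟩ := hk₀ k hk
      have hk0 : (0 : ℝ) < k := by exact_mod_cast (by omega : 0 < k)
      have h2 : μ.real (E k) ≤ 1 / (k : ℝ) ^ 2 := by
        rw [hE]
        simp only [hk, if_true]
        refine (measureReal_biUnion_finset_le _ _).trans ?_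
        have h3 : ∀ j ∈ J k, μ.real {x : ℝ | ∃ n ∈ Bad (q k j),
            |(n : ℝ) - (a k j * Int.fract (c k j * x + d k j) + y k j)| ≤ Real.log (a k j) ^ A} ≤
            1 / (k : ℝ) ^ (T + 2) := by
          intro j hj
          obtain ⟨f1, f2, f3, f4, f5, f6⟩ := g5 j hj
          refine (h0 (a k j) (g1 _ f1 f2) (c k j) (d k j) f3 (y k j) f4 (q k j) f5 f6).trans ?_
          exact one_div_le_one_div_of_le (by positivity) (hU k (by omega) _ f2)
        refine (sum_le_sum h3).trans ?_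
        rw [sum_const, nsmul_eq_mul]
        have h4 : (((J k).card : ℕ) : ℝ) ≤ (k : ℝ) ^ T := by exact_mod_cast g4
        calc ((J k).card : ℝ) * (1 / (k : ℝ) ^ (T + 2)) ≤ (k : ℝ) ^ T * (1 / (k : ℝ) ^ (T + 2)) :=
              mul_le_mul_of_nonneg_right h4 (by positivity)
          _ = 1 / (k : ℝ) ^ 2 := by
              rw [pow_add]
              field_simp
      have h3 : μ (E k) = ENNReal.ofReal (μ.real (E k)) := by
        rw [Measure.real, ENNReal.ofReal_toReal (measure_ne_top _ _)]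
      rw [h3]
      exact ENNReal.ofReal_le_ofReal h2
    · rw [hE]
      simp only [hk, if_false, measure_empty]
      exact zero_le
  have hsum : ∑' k, μ (E k) ≠ ⊤ := by
    refine ne_top_of_le_ne_top ?_ (ENNReal.tsum_le_tsum hmeas)
    rw [← ENNReal.ofReal_tsum_of_nonneg (fun k => by positivity) (Real.summable_one_div_nat_pow.2 (by norm_num))]
    exact ENNReal.ofReal_ne_top
  filter_upwards [ae_eventually_notMem hsum] with x hx
  filter_upwards [hx, eventually_ge_atTop k₀] with k h1 hk j hj n hn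
  rw [hE] at h1
  simp only [hk, if_true, Set.mem_iUnion, not_exists] at h1
  have h2 := h1 j hj
  by_contra hcon
  push Not at hcon
  exact h2 ⟨n, hn, hcon⟩

/-- the integer given by the digits of `x` at the places `i + 1, ..., j` in base `b` -/
noncomputable def dblock (b : ℕ) (x : ℝ) (i j : ℕ) : ℤ := ⌊(b : ℝ) ^ (j - i) * Int.fract ((b : ℝ) ^ i * x)⌋

/-- **Digit blocks.** -/
theorem as_blocks {Bad : Set ℤ} (hE : Eng1 ℕ id (fun _ => Bad)) (μ : Measure ℝ)
    [IsProbabilityMeasure μ] (hμ : SelfSim μ) (δ : ℝ) (hδ : 0 < δ) (A T : ℕ) :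
    ∀ᵐ x ∂μ, ∀ᶠ j : ℕ in atTop, ∀ b m : ℕ, 2 ≤ b → b ≤ j ^ T → 1 ≤ m → m ≤ j ^ T → ∀ i : ℕ, i ≤ j →
      (j : ℝ) ^ δ ≤ ((j - i : ℕ) : ℝ) → ∀ n ∈ Bad,
      ((j - i : ℕ) : ℝ) ^ A < |(n : ℝ) - dblock b (m * x) i j| := by
  classical
  have h1 := as_mag hE μ hμ (δ / 2) (by positivity) (2 * T + 2) (A + 1) 2
    (fun j => (((range (j ^ T + 1)).filter (fun b => 2 ≤ b)) ×ˢ ((range (j ^ T + 1)).filter (fun m => 1 ≤ m)) ×ˢ
      ((range (j + 1)).filter (fun i => (j : ℝ) ^ δ ≤ ((j - i : ℕ) : ℝ)))))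
    (fun j t => (t.1 : ℝ) ^ (j - t.2.2)) (fun _ t => (t.1 : ℝ) ^ t.2.2 * t.2.1) (fun _ _ => 0) (fun _ _ => 0)
    (fun j t => t.1 ^ (j - t.2.2)) (by
      have hev : ∀ᶠ j : ℕ in atTop, (2 : ℝ) ≤ (j : ℝ) ^ (δ / 2) :=
        ((tendsto_rpow_atTop (by positivity : 0 < δ / 2)).comp tendsto_natCast_atTop_atTop).eventually_ge_atTop 2
      filter_upwards [eventually_ge_atTop 2, hev] with j hj hev
      have hj0 : (0 : ℝ) < j := by exact_mod_cast (by omega : 0 < j)
      constructor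
      · rw [card_product, card_product]
        have e0 : ((range (j ^ T + 1)).filter (fun b => 2 ≤ b)).card ≤ j ^ T := by
          have : (range (j ^ T + 1)).filter (fun b => 2 ≤ b) ⊆ Icc 1 (j ^ T) := by
            intro b hb
            rw [mem_filter, mem_range] at hb
            rw [mem_Icc]
            omega
          simpa using card_le_card this
        have e1 : ((range (j ^ T + 1)).filter (fun m => 1 ≤ m)).card ≤ j ^ T := by
          have : (range (j ^ T + 1)).filter (fun m => 1 ≤ m) ⊆ Icc 1 (j ^ T) := by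
            intro b hb
            rw [mem_filter, mem_range] at hb
            rw [mem_Icc]
            omega
          simpa using card_le_card this
        have e2 : ((range (j + 1)).filter (fun i => (j : ℝ) ^ δ ≤ ((j - i : ℕ) : ℝ))).card ≤ j ^ 2 := by
          refine (card_filter_le _ _).trans ?_
          rw [card_range]
          nlinarith
        calc _ ≤ j ^ T * (j ^ T * j ^ 2) := Nat.mul_le_mul e0 (Nat.mul_le_mul e1 e2)
          _ = j ^ (2 * T + 2) := by ring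
      · rintro ⟨b, m, i⟩ ht
        simp only [mem_product, mem_filter, mem_range] at ht
        obtain ⟨⟨hb1, hb2⟩, ⟨hm1, hm2⟩, hi1, hi2⟩ := ht
        have hb2r : (2 : ℝ) ≤ b := by exact_mod_cast hb2
        have hm2r : (1 : ℝ) ≤ m := by exact_mod_cast hm2
        have hpow : (0 : ℝ) < (b : ℝ) ^ (j - i) := by positivity
        simp only [id]
        refine ⟨hpow, ?_, ?_, ?_, ?_, ?_⟩
        · rw [Real.log_pow]
          have hlb : Real.log 2 ≤ Real.log b := Real.log_le_log (by norm_num) hb2r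
          have hl2 := Real.log_two_gt_d9
          have e1 : (j : ℝ) ^ δ = (j : ℝ) ^ (δ / 2) * (j : ℝ) ^ (δ / 2) := by
            rw [← Real.rpow_add hj0]
            congr 1
            ring
          have e2 : (0 : ℝ) ≤ (j : ℝ) ^ (δ / 2) := by positivity
          have e3 : 2 * (j : ℝ) ^ (δ / 2) ≤ ((j - i : ℕ) : ℝ) := by
            rw [e1] at hi2
            nlinarith
          nlinarith
        · have e1 : (1 : ℝ) ≤ (b : ℝ) ^ i := one_le_pow₀ (by linarith)
          have e2 : (1 : ℝ) ≤ (b : ℝ) ^ i * m := by nlinarith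
          exact e2.trans (le_abs_self _)
        · rw [abs_zero]
          positivity
        · push_cast
          linarith
        · push_cast
          linarith)
  have hev : ∀ᶠ j : ℕ in atTop, (2 : ℝ) ^ (A + 2) + 2 ≤ (j : ℝ) ^ δ :=
    ((tendsto_rpow_atTop hδ).comp tendsto_natCast_atTop_atTop).eventually_ge_atTop _
  filter_upwards [h1] with x hx
  filter_upwards [hx, hev] with j hj hev b m hb hbT hm hmT i hi hij n hn
  have h2 := hj ⟨b, m, i⟩ (by
    simp only [mem_product, mem_filter, mem_range]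
    exact ⟨⟨by omega, hb⟩, ⟨by omega, hm⟩, by omega, hij⟩) n hn
  simp only [add_zero] at h2
  obtain ⟨z, hz⟩ : ∃ z, z = (b : ℝ) ^ (j - i) * Int.fract ((b : ℝ) ^ i * (m * x)) := ⟨_, rfl⟩
  have e1 : (b : ℝ) ^ i * (m : ℝ) * x = (b : ℝ) ^ i * (m * x) := by ring
  rw [e1, ← hz] at h2
  have hbl : dblock b (m * x) i j = ⌊z⌋ := by rw [hz]; rfl
  rw [hbl]
  have g1 := Int.floor_le z
  have g2 := Int.lt_floor_add_one z
  have g3 : |(n : ℝ) - z| ≤ |(n : ℝ) - ⌊z⌋| + 1 := by
    have : (n : ℝ) - z = ((n : ℝ) - ⌊z⌋) + (⌊z⌋ - z) := by ring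
    rw [this]
    refine (abs_add_le _ _).trans (add_le_add_right ?_ _)
    rw [abs_le]
    constructor <;> linarith
  obtain ⟨D, hD⟩ : ∃ D : ℝ, D = ((j - i : ℕ) : ℝ) := ⟨_, rfl⟩
  rw [← hD] at hij ⊢
  have hD1 : (2 : ℝ) ^ (A + 2) + 2 ≤ D := hev.trans hij
  have hp : (0 : ℝ) < 2 ^ (A + 2) := by positivity
  have hb2r : (2 : ℝ) ≤ b := by exact_mod_cast hb
  have g4 : D ^ A + 1 ≤ Real.log ((b : ℝ) ^ (j - i)) ^ (A + 1) := by
    rw [Real.log_pow, ← hD]
    have hlb : Real.log 2 ≤ Real.log b := Real.log_le_log (by norm_num) hb2r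
    have hl2 := Real.log_two_gt_d9
    have e2 : D / 2 ≤ D * Real.log b := by nlinarith
    calc D ^ A + 1 ≤ 2 * D ^ A := by
          have : (1 : ℝ) ≤ D ^ A := one_le_pow₀ (by linarith)
          linarith
      _ = (2 ^ (A + 2) * D ^ A) / 2 ^ (A + 1) := by rw [pow_succ 2 (A + 1)]; field_simp
      _ ≤ (D * D ^ A) / 2 ^ (A + 1) := by
          apply div_le_div_of_nonneg_right _ (by positivity)
          exact mul_le_mul_of_nonneg_right (by linarith) (pow_nonneg (by linarith) _)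
      _ = (D / 2) ^ (A + 1) := by rw [div_pow, pow_succ D A]; ring
      _ ≤ _ := pow_le_pow_left₀ (by linarith) e2 _
  linarith

end Pool.Agent.Q259.AS
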