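import Pool.Agent.Q259.AS.Mag2

set_option autoImplicit false

/-! Blocks of digits in mixed radices. -/

namespace Pool.Agent.Q259.AS

open Finset MeasureTheory Filter

/-- the product of the radices number `i, ..., j - 1` -/
def rad (r : ℕ → ℕ) (i j : ℕ) : ℕ := ∏ l ∈ Ico i j, r l

lemma rad_low (r : ℕ → ℕ) (hr : ∀ l, 2 ≤ r l) (i j : ℕ) : 2 ^ (j - i) ≤ rad r i j := by
  unfold rad
  calc 2 ^ (j - i) = ∏ _l ∈ Ico i j, 2 := by rw [prod_const, Nat.card_Ico]
    _ ≤ _ := prod_le_prod (fun _ _ => by norm_num) (fun l _ => hr l)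

/-- **Digit blocks in mixed radices.** -/
theorem as_radix {Bad : Set ℤ} (hE : Eng1 ℕ id (fun _ => Bad)) (μ : Measure ℝ)
    [IsProbabilityMeasure μ] (hμ : SelfSim μ) (r : ℕ → ℕ) (hr : ∀ l, 2 ≤ r l) (δ : ℝ) (hδ : 0 < δ) (A : ℕ) :
    ∀ᵐ x ∂μ, ∀ᶠ j : ℕ in atTop, ∀ i : ℕ, i ≤ j → (j : ℝ) ^ δ ≤ ((j - i : ℕ) : ℝ) → ∀ n ∈ Bad,
      Real.log (rad r i j) ^ A < |(n : ℝ) - ⌊(rad r i j : ℝ) * Int.fract ((rad r 0 i : ℝ) * x)⌋| := by
  classical
  have h1 := as_mag hE μ hμ (δ / 2) (by positivity) 2 (A + 1) 2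
    (fun j => ((range (j + 1)).filter (fun i => (j : ℝ) ^ δ ≤ ((j - i : ℕ) : ℝ))))
    (fun j i => (rad r i j : ℝ)) (fun _ i => (rad r 0 i : ℝ)) (fun _ _ => 0) (fun _ _ => 0)
    (fun j i => rad r i j) (by
      have hev : ∀ᶠ j : ℕ in atTop, (2 : ℝ) ≤ (j : ℝ) ^ (δ / 2) :=
        ((tendsto_rpow_atTop (by positivity : 0 < δ / 2)).comp tendsto_natCast_atTop_atTop).eventually_ge_atTop 2
      filter_upwards [eventually_ge_atTop 2, hev] with j hj hev
      have hj0 : (0 : ℝ) < j := by exact_mod_cast (by omega : 0 < j)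
      constructor
      · refine (card_filter_le _ _).trans ?_
        rw [card_range]
        nlinarith
      · intro i ht
        simp only [mem_filter, mem_range] at ht
        obtain ⟨hi1, hi2⟩ := ht
        have hlow := rad_low r hr i j
        have hlowr : (2 : ℝ) ^ (j - i) ≤ (rad r i j : ℝ) := by exact_mod_cast hlow
        have hlow0 := rad_low r hr 0 i
        have hlow0r : (2 : ℝ) ^ (i - 0) ≤ (rad r 0 i : ℝ) := by exact_mod_cast hlow0
        have hpow : (0 : ℝ) < (rad r i j : ℝ) := lt_of_lt_of_le (by positivity) hlowr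
        simp only [id]
        refine ⟨hpow, ?_, ?_, ?_, ?_, ?_⟩
        · have hl2 := Real.log_two_gt_d9
          have e0 : ((j - i : ℕ) : ℝ) * Real.log 2 ≤ Real.log (rad r i j) := by
            rw [← Real.log_pow]
            exact Real.log_le_log (by positivity) hlowr
          have e1 : (j : ℝ) ^ δ = (j : ℝ) ^ (δ / 2) * (j : ℝ) ^ (δ / 2) := by
            rw [← Real.rpow_add hj0]
            congr 1
            ring
          have e2 : (0 : ℝ) ≤ (j : ℝ) ^ (δ / 2) := by positivity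
          have e3 : 2 * (j : ℝ) ^ (δ / 2) ≤ ((j - i : ℕ) : ℝ) := by
            rw [e1] at hi2
            nlinarith
          nlinarith
        · have e1 : (1 : ℝ) ≤ (2 : ℝ) ^ (i - 0) := one_le_pow₀ (by norm_num)
          exact (e1.trans hlow0r).trans (le_abs_self _)
        · rw [abs_zero]
          positivity
        · push_cast
          linarith
        · push_cast
          linarith)
  have hev : ∀ᶠ j : ℕ in atTop, (4 : ℝ) ≤ (j : ℝ) ^ δ :=
    ((tendsto_rpow_atTop hδ).comp tendsto_natCast_atTop_atTop).eventually_ge_atTop _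
  filter_upwards [h1] with x hx
  filter_upwards [hx, hev] with j hj hev i hi hij n hn
  have h2 := hj i (by
    simp only [mem_filter, mem_range]
    exact ⟨by omega, hij⟩) n hn
  simp only [add_zero] at h2
  obtain ⟨z, hz⟩ : ∃ z, z = (rad r i j : ℝ) * Int.fract ((rad r 0 i : ℝ) * x) := ⟨_, rfl⟩
  rw [← hz] at h2 ⊢
  have g1 := Int.floor_le z
  have g2 := Int.lt_floor_add_one z
  have g3 : |(n : ℝ) - z| ≤ |(n : ℝ) - ⌊z⌋| + 1 := by
    have : (n : ℝ) - z = ((n : ℝ) - ⌊z⌋) + (⌊z⌋ - z) := by ring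
    rw [this]
    refine (abs_add_le _ _).trans (add_le_add_right ?_ _)
    rw [abs_le]
    constructor <;> linarith
  have hlow := rad_low r hr i j
  have hlowr : (2 : ℝ) ^ (j - i) ≤ (rad r i j : ℝ) := by exact_mod_cast hlow
  have hl2 := Real.log_two_gt_d9
  have e0 : ((j - i : ℕ) : ℝ) * Real.log 2 ≤ Real.log (rad r i j) := by
    rw [← Real.log_pow]
    exact Real.log_le_log (by positivity) hlowr
  have hL : 2 ≤ Real.log (rad r i j) := by nlinarith
  have g4 : Real.log (rad r i j) ^ A + 1 ≤ Real.log (rad r i j) ^ (A + 1) := by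
    have : (1 : ℝ) ≤ Real.log (rad r i j) ^ A := one_le_pow₀ (by linarith)
    rw [pow_succ]
    nlinarith
  linarith

end Pool.Agent.Q259.AS
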