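import Pool.Agent.Q259.AS.Mag2

set_option autoImplicit false

/-! Digit blocks, for exceptional sets which depend on the size. -/

namespace Pool.Agent.Q259.AS

open Finset MeasureTheory Filter

/-- **Digit blocks**, for exceptional sets which depend on the size. -/
theorem as_blocksX {sz : ℕ → ℕ} {Bad : ℕ → Set ℤ} (κ : ℕ) (hsz : ∀ X, X ≤ sz X ∧ sz X ≤ κ * X) (hE : Eng1 ℕ sz Bad)
    (μ : Measure ℝ) [IsProbabilityMeasure μ] (hμ : SelfSim μ) (δ : ℝ) (hδ : 0 < δ) (A T : ℕ) :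
    ∀ᵐ x ∂μ, ∀ᶠ j : ℕ in atTop, ∀ b m : ℕ, 2 ≤ b → b ≤ j ^ T → 1 ≤ m → m ≤ j ^ T → ∀ i : ℕ, i ≤ j →
      (j : ℝ) ^ δ ≤ ((j - i : ℕ) : ℝ) → ∀ n ∈ Bad (b ^ (j - i)),
      ((j - i : ℕ) : ℝ) ^ A < |(n : ℝ) - dblock b (m * x) i j| := by
  classical
  have h1 := as_mag hE μ hμ (δ / 2) (by positivity) (2 * T + 2) (A + 1) (κ + 1)
    (fun j => (((range (j ^ T + 1)).filter (fun b => 2 ≤ b)) ×ˢ ((range (j ^ T + 1)).filter (fun m => 1 ≤ m)) ×ˢ
      ((range (j + 1)).filter (fun i => (j : ℝ) ^ δ ≤ ((j - i : ℕ) : ℝ)))))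
    (fun j t => (t.1 : ℝ) ^ (j - t.2.2)) (fun _ t => (t.1 : ℝ) ^ t.2.2 * t.2.1) (fun _ _ => 0) (fun _ _ => 0)
    (fun j t => t.1 ^ (j - t.2.2)) (by
      have hev : ∀ᶠ j : ℕ in atTop, (2 : ℝ) ≤ (j : ℝ) ^ (δ / 2) :=
        ((tendsto_rpow_atTop (by positivity : 0 < δ / 2)).comp tendsto_natCast_atTop_atTop).eventually_ge_atTop 2
      filter_upwards [eventually_ge_atTop 2, hev] with j hj hev
      have hj0 : (0 : ℝ) < j := by exact_mod_cast (by omega : 0 < j)
      constructor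
      · rw [card_product, card_product]
        have e0 : ((range (j ^ T + 1)).filter (fun b => 2 ≤ b)).card ≤ j ^ T := by
          have : (range (j ^ T + 1)).filter (fun b => 2 ≤ b) ⊆ Icc 1 (j ^ T) := by
            intro b hb
            rw [mem_filter, mem_range] at hb
            rw [mem_Icc]
            omega
          simpa using card_le_card this
        have e1 : ((range (j ^ T + 1)).filter (fun m => 1 ≤ m)).card ≤ j ^ T := by
          have : (range (j ^ T + 1)).filter (fun m => 1 ≤ m) ⊆ Icc 1 (j ^ T) := by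
            intro b hb
            rw [mem_filter, mem_range] at hb
            rw [mem_Icc]
            omega
          simpa using card_le_card this
        have e2 : ((range (j + 1)).filter (fun i => (j : ℝ) ^ δ ≤ ((j - i : ℕ) : ℝ))).card ≤ j ^ 2 := by
          refine (card_filter_le _ _).trans ?_
          rw [card_range]
          nlinarith
        calc _ ≤ j ^ T * (j ^ T * j ^ 2) := Nat.mul_le_mul e0 (Nat.mul_le_mul e1 e2)
          _ = j ^ (2 * T + 2) := by ring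
      · rintro ⟨b, m, i⟩ ht
        simp only [mem_product, mem_filter, mem_range] at ht
        obtain ⟨⟨hb1, hb2⟩, ⟨hm1, hm2⟩, hi1, hi2⟩ := ht
        have hb2r : (2 : ℝ) ≤ b := by exact_mod_cast hb2
        have hm2r : (1 : ℝ) ≤ m := by exact_mod_cast hm2
        have hpow : (0 : ℝ) < (b : ℝ) ^ (j - i) := by positivity
        have hs1 : (b : ℝ) ^ (j - i) ≤ sz (b ^ (j - i)) := by exact_mod_cast (hsz (b ^ (j - i))).1
        have hs2 : (sz (b ^ (j - i)) : ℝ) ≤ κ * (b : ℝ) ^ (j - i) := by exact_mod_cast (hsz (b ^ (j - i))).2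
        have hκ0 : (0 : ℝ) ≤ κ := Nat.cast_nonneg _
        refine ⟨hpow, ?_, ?_, ?_, ?_, ?_⟩
        · rw [Real.log_pow]
          have hlb : Real.log 2 ≤ Real.log b := Real.log_le_log (by norm_num) hb2r
          have hl2 := Real.log_two_gt_d9
          have e1 : (j : ℝ) ^ δ = (j : ℝ) ^ (δ / 2) * (j : ℝ) ^ (δ / 2) := by
            rw [← Real.rpow_add hj0]
            congr 1
            ring
          have e2 : (0 : ℝ) ≤ (j : ℝ) ^ (δ / 2) := by positivity
          have e3 : 2 * (j : ℝ) ^ (δ / 2) ≤ ((j - i : ℕ) : ℝ) := by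
            rw [e1] at hi2
            nlinarith
          nlinarith
        · have e1 : (1 : ℝ) ≤ (b : ℝ) ^ i := one_le_pow₀ (by linarith)
          have e2 : (1 : ℝ) ≤ (b : ℝ) ^ i * m := by nlinarith
          exact e2.trans (le_abs_self _)
        · rw [abs_zero]
          positivity
        · push_cast
          have h0 : (0 : ℝ) ≤ sz (b ^ (j - i)) := Nat.cast_nonneg _
          show (b : ℝ) ^ (j - i) ≤ (κ + 1) * (sz (b ^ (j - i)) : ℝ)
          nlinarith
        · push_cast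
          show (sz (b ^ (j - i)) : ℝ) ≤ (κ + 1) * (b : ℝ) ^ (j - i)
          nlinarith)
  have hev : ∀ᶠ j : ℕ in atTop, (2 : ℝ) ^ (A + 2) + 2 ≤ (j : ℝ) ^ δ :=
    ((tendsto_rpow_atTop hδ).comp tendsto_natCast_atTop_atTop).eventually_ge_atTop _
  filter_upwards [h1] with x hx
  filter_upwards [hx, hev] with j hj hev b m hb hbT hm hmT i hi hij n hn
  have h2 := hj ⟨b, m, i⟩ (by
    simp only [mem_product, mem_filter, mem_range]
    exact ⟨⟨by omega, hb⟩, ⟨by omega, hm⟩, by omega, hij⟩) n hn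
  simp only [add_zero] at h2
  obtain ⟨z, hz⟩ : ∃ z, z = (b : ℝ) ^ (j - i) * Int.fract ((b : ℝ) ^ i * (m * x)) := ⟨_, rfl⟩
  have e1 : (b : ℝ) ^ i * (m : ℝ) * x = (b : ℝ) ^ i * (m * x) := by ring
  rw [e1, ← hz] at h2
  have hbl : dblock b (m * x) i j = ⌊z⌋ := by rw [hz]; rfl
  rw [hbl]
  have g1 := Int.floor_le z
  have g2 := Int.lt_floor_add_one z
  have g3 : |(n : ℝ) - z| ≤ |(n : ℝ) - ⌊z⌋| + 1 := by
    have : (n : ℝ) - z = ((n : ℝ) - ⌊z⌋) + (⌊z⌋ - z) := by ring
    rw [this]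
    refine (abs_add_le _ _).trans (add_le_add_right ?_ _)
    rw [abs_le]
    constructor <;> linarith
  obtain ⟨D, hD⟩ : ∃ D : ℝ, D = ((j - i : ℕ) : ℝ) := ⟨_, rfl⟩
  rw [← hD] at hij ⊢
  have hD1 : (2 : ℝ) ^ (A + 2) + 2 ≤ D := hev.trans hij
  have hp : (0 : ℝ) < 2 ^ (A + 2) := by positivity
  have hb2r : (2 : ℝ) ≤ b := by exact_mod_cast hb
  have g4 : D ^ A + 1 ≤ Real.log ((b : ℝ) ^ (j - i)) ^ (A + 1) := by
    rw [Real.log_pow, ← hD]
    have hlb : Real.log 2 ≤ Real.log b := Real.log_le_log (by norm_num) hb2r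
    have hl2 := Real.log_two_gt_d9
    have e2 : D / 2 ≤ D * Real.log b := by nlinarith
    calc D ^ A + 1 ≤ 2 * D ^ A := by
          have : (1 : ℝ) ≤ D ^ A := one_le_pow₀ (by linarith)
          linarith
      _ = (2 ^ (A + 2) * D ^ A) / 2 ^ (A + 1) := by rw [pow_succ 2 (A + 1)]; field_simp
      _ ≤ (D * D ^ A) / 2 ^ (A + 1) := by
          apply div_le_div_of_nonneg_right _ (by positivity)
          exact mul_le_mul_of_nonneg_right (by linarith) (pow_nonneg (by linarith) _)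
      _ = (D / 2) ^ (A + 1) := by rw [div_pow, pow_succ D A]; ring
      _ ≤ _ := pow_le_pow_left₀ (by linarith) e2 _
  linarith

end Pool.Agent.Q259.AS
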