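import Pool.Agent.Q259.AS.Rare2
import Pool.Agent.Q259.AS.One
import Pool.Agent.Y885.TU4

set_option autoImplicit false

/-! Prime tuples with typical shifts. -/

namespace Pool.Agent.Q259.AS

open Finset MeasureTheory Filter
open Pool.Agent.Y885 (TLaw tl_tuples HLs_mono)
open Pool.Agent.H373R2.T7 (tupleCount singZ Admissible)
open Pool.Agent.H560R3.GB (primeTuples tupleCount_nat)
open Pool.Agent.W93.TD (HLs)

lemma tc_mono {s : ℕ} (a : Fin s → ℕ) (N N' : ℕ) (h : N ≤ N') :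
    tupleCount (fun i => (a i : ℤ)) N ≤ tupleCount (fun i => (a i : ℤ)) N' := by
  rw [tupleCount_nat, tupleCount_nat]
  apply sum_le_sum_of_subset_of_nonneg
  · intro p hp
    rw [mem_filter, mem_Icc] at hp ⊢
    exact ⟨⟨hp.1.1, hp.1.2.trans h⟩, hp.2⟩
  · intro p hp _
    rw [mem_filter, mem_Icc] at hp
    apply mul_nonneg (Real.log_nonneg (by exact_mod_cast hp.1.1))
    apply prod_nonneg
    intro i _
    apply Real.log_nonneg
    have : (1 : ℝ) ≤ p := by exact_mod_cast hp.1.1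
    have : (0 : ℝ) ≤ a i := Nat.cast_nonneg _
    linarith

lemma pt_mono {s : ℕ} (a : Fin s → ℕ) (N N' : ℕ) (h : N ≤ N') : primeTuples a N ≤ primeTuples a N' := by
  unfold primeTuples
  apply card_le_card
  intro p hp
  rw [mem_filter, mem_Icc] at hp ⊢
  exact ⟨⟨hp.1.1, hp.1.2.trans h⟩, hp.2⟩

lemma tc_le {s : ℕ} (a : Fin s → ℕ) (N M : ℕ) (hNM : N ≤ M) (hM : ∀ i, N + a i ≤ M) :
    tupleCount (fun i => (a i : ℤ)) N ≤ N * Real.log M ^ (s + 1) := by
  rw [tupleCount_nat]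
  calc ∑ p ∈ (Icc 1 N).filter (fun p : ℕ => p.Prime ∧ ∀ i, (p + a i).Prime), Real.log p * ∏ i, Real.log ((p : ℝ) + a i) ≤
      ∑ _p ∈ (Icc 1 N).filter (fun p : ℕ => p.Prime ∧ ∀ i, (p + a i).Prime), Real.log M ^ (s + 1) := by
        apply sum_le_sum
        intro p hp
        rw [mem_filter, mem_Icc] at hp
        have hp1 : (1 : ℝ) ≤ p := by exact_mod_cast hp.1.1
        have hpM : (p : ℝ) ≤ M := by exact_mod_cast hp.1.2.trans hNM
        rw [pow_succ, mul_comm (Real.log M ^ s)]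
        apply mul_le_mul (Real.log_le_log (by linarith) hpM) _ _ (Real.log_nonneg (by linarith))
        · calc ∏ i, Real.log ((p : ℝ) + a i) ≤ ∏ _i : Fin s, Real.log M := by
                apply Finset.prod_le_prod
                · intro i _
                  apply Real.log_nonneg
                  have : (0 : ℝ) ≤ a i := Nat.cast_nonneg _
                  linarith
                · intro i _
                  apply Real.log_le_log
                  · have : (0 : ℝ) ≤ a i := Nat.cast_nonneg _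
                    linarith
                  · have h1 : p + a i ≤ M := (Nat.add_le_add_right hp.1.2 _).trans (hM i)
                    exact_mod_cast h1
            _ = _ := by rw [prod_const, card_univ, Fintype.card_fin]
        · apply prod_nonneg
          intro i _
          apply Real.log_nonneg
          have : (0 : ℝ) ≤ a i := Nat.cast_nonneg _
          linarith
    _ ≤ N * Real.log M ^ (s + 1) := by
        rw [sum_const, nsmul_eq_mul]
        apply mul_le_mul_of_nonneg_right _ (pow_nonneg (Real.log_natCast_nonneg M) _)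
        have h1 := card_filter_le (Icc 1 N) (fun p : ℕ => p.Prime ∧ ∀ i, (p + a i).Prime)
        rw [Nat.card_Icc, Nat.add_sub_cancel] at h1
        exact_mod_cast h1

/-- interpolation between two values of `N` -/
lemma interp {s : ℕ} (ε δ : ℝ) (hδ : 0 < δ) (hδ1 : 4 * δ ≤ 1) (hδε : 4 * δ ≤ ε) (U : ℕ) (a : Fin s → ℕ) (N₁ N N₂ M : ℕ)
    (h1 : N₁ ≤ N) (h2 : N ≤ N₂) (hN₁ : 3 ≤ N₁) (H1 : HLs δ (U + 1) N₁ a) (H2 : HLs δ (U + 1) N₂ a)
    (hM : N ≤ M) (haM : ∀ i, N + a i ≤ M) (c1 : (N₂ : ℝ) ≤ (1 + δ) * N₁)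
    (c2 : (Real.log M ^ (s + 1) + 1) * ((N₂ : ℝ) - N₁) ≤ 1 / 2 * (N / Real.log N ^ U))
    (c3 : (N₂ : ℝ) / Real.log N₂ ^ (U + 1) ≤ 1 / 2 * (N / Real.log N ^ U))
    (c4 : (N₁ : ℝ) / Real.log N₁ ^ (U + 1) ≤ 1 / 2 * (N / Real.log N ^ U)) : HLs ε U N a := by
  obtain ⟨S, q1, q2, q3⟩ := H1
  obtain ⟨S', r1, r2, r3⟩ := H2
  have hSS : S' = S := tendsto_nhds_unique r1 q1
  subst hSS
  have hN₁r : (3 : ℝ) ≤ N₁ := by exact_mod_cast hN₁
  have h1r : (N₁ : ℝ) ≤ N := by exact_mod_cast h1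
  have h2r : (N : ℝ) ≤ N₂ := by exact_mod_cast h2
  have hlog1 : 1 ≤ Real.log (N₁ : ℝ) := by
    rw [Real.le_log_iff_exp_le (by linarith)]
    have := Real.exp_one_lt_d9
    linarith
  have hlog2 : Real.log (N₁ : ℝ) ≤ Real.log N := Real.log_le_log (by linarith) h1r
  have hlog3 : Real.log (N : ℝ) ≤ Real.log N₂ := Real.log_le_log (by linarith) h2r
  have hlN : 0 < Real.log (N : ℝ) := by linarith
  have hlN₁ : 0 < Real.log (N₁ : ℝ) := by linarith
  have hlN₂ : 0 < Real.log (N₂ : ℝ) := by linarith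
  -- the size of the singular series
  have hS : |S'| ≤ Real.log M ^ (s + 1) + 1 := by
    have e1 := tc_le a N₁ M (h1.trans hM) (fun i => (Nat.add_le_add_right h1 _).trans (haM i))
    have e2 : (N₁ : ℝ) / Real.log N₁ ^ (U + 1) ≤ N₁ := div_le_self (by linarith) (one_le_pow₀ hlog1)
    have e3 : 0 ≤ tupleCount (fun i => (a i : ℤ)) N₁ := by
      have := tc_mono a 0 N₁ (Nat.zero_le _)
      rw [tupleCount_nat a 0] at this
      simpa using this
    have e4 : |S' * N₁| ≤ N₁ * (Real.log M ^ (s + 1) + 1) := by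
      rw [abs_le] at q2 ⊢
      constructor <;> nlinarith [q2.1, q2.2]
    rw [abs_mul, abs_of_pos (show (0 : ℝ) < N₁ by linarith), mul_comm] at e4
    exact le_of_mul_le_mul_left e4 (by linarith)
  have hE : |S'| * ((N₂ : ℝ) - N₁) ≤ 1 / 2 * (N / Real.log N ^ U) :=
    (mul_le_mul_of_nonneg_right hS (by linarith)).trans c2
  have hE1 : |S' * ((N : ℝ) - N₁)| ≤ 1 / 2 * (N / Real.log N ^ U) := by
    rw [abs_mul, abs_of_nonneg (show (0 : ℝ) ≤ (N : ℝ) - N₁ by linarith)]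
    exact (mul_le_mul_of_nonneg_left (by linarith) (abs_nonneg _)).trans hE
  have hE2 : |S' * ((N₂ : ℝ) - N)| ≤ 1 / 2 * (N / Real.log N ^ U) := by
    rw [abs_mul, abs_of_nonneg (show (0 : ℝ) ≤ (N₂ : ℝ) - N by linarith)]
    exact (mul_le_mul_of_nonneg_left (by linarith) (abs_nonneg _)).trans hE
  refine ⟨S', q1, ?_, fun hadm => ?_⟩
  · have e1 := tc_mono a N₁ N h1
    have e2 := tc_mono a N N₂ h2
    rw [abs_le] at q2 r2 hE1 hE2 ⊢
    constructor
    · nlinarith [q2.1, hE1.2]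
    · nlinarith [r2.2, hE2.2]
  · obtain ⟨hS0, q4⟩ := q3 hadm
    obtain ⟨_, r4⟩ := r3 hadm
    refine ⟨hS0, ?_⟩
    have e1 : (primeTuples a N₁ : ℝ) ≤ primeTuples a N := by exact_mod_cast pt_mono a N₁ N h1
    have e2 : (primeTuples a N : ℝ) ≤ primeTuples a N₂ := by exact_mod_cast pt_mono a N N₂ h2
    obtain ⟨P, hP⟩ : ∃ P, P = S' * ((N : ℝ) / Real.log N ^ (s + 1)) := ⟨_, rfl⟩
    have hN0 : (0 : ℝ) < N := by linarith
    have hP0 : 0 < P := by rw [hP]; positivity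
    have e3 : S' * ((N₂ : ℝ) / Real.log N₂ ^ (s + 1)) ≤ (1 + δ) * P := by
      have f1 : (N₂ : ℝ) / Real.log N₂ ^ (s + 1) ≤ ((1 + δ) * N) / Real.log N ^ (s + 1) := by
        apply div_le_div₀ (by positivity) _ (by positivity) (pow_le_pow_left₀ hlN.le hlog3 _)
        nlinarith
      calc S' * ((N₂ : ℝ) / Real.log N₂ ^ (s + 1)) ≤ S' * (((1 + δ) * N) / Real.log N ^ (s + 1)) :=
            mul_le_mul_of_nonneg_left f1 hS0.le
        _ = _ := by rw [hP]; ring
    have e4 : (1 - δ) * P ≤ S' * ((N₁ : ℝ) / Real.log N₁ ^ (s + 1)) := by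
      have f0 : (1 - δ) * N ≤ N₁ := by nlinarith
      have f1 : ((1 - δ) * N) / Real.log N ^ (s + 1) ≤ (N₁ : ℝ) / Real.log N₁ ^ (s + 1) := by
        apply div_le_div₀ (by linarith) f0 (by positivity) (pow_le_pow_left₀ hlN₁.le hlog2 _)
      calc (1 - δ) * P = S' * (((1 - δ) * N) / Real.log N ^ (s + 1)) := by rw [hP]; ring
        _ ≤ _ := mul_le_mul_of_nonneg_left f1 hS0.le
    rw [← hP]
    rw [abs_le] at q4 r4 ⊢
    have g1 : (1 + δ) * (1 + δ) ≤ 1 + ε := by nlinarith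
    have g2 : 1 - ε ≤ (1 - δ) * (1 - δ) := by nlinarith
    constructor
    · have f2 : (1 - δ) * (S' * ((N₁ : ℝ) / Real.log N₁ ^ (s + 1))) ≤ primeTuples a N := by linarith [q4.1]
      have f3 : (1 - δ) * ((1 - δ) * P) ≤ (1 - δ) * (S' * ((N₁ : ℝ) / Real.log N₁ ^ (s + 1))) :=
        mul_le_mul_of_nonneg_left e4 (by linarith)
      have f4 : (1 - ε) * P ≤ ((1 - δ) * (1 - δ)) * P := mul_le_mul_of_nonneg_right g2 hP0.le
      linarith
    · have f2 : (primeTuples a N : ℝ) ≤ (1 + δ) * (S' * ((N₂ : ℝ) / Real.log N₂ ^ (s + 1))) := by linarith [r4.2]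
      have f3 : (1 + δ) * (S' * ((N₂ : ℝ) / Real.log N₂ ^ (s + 1))) ≤ (1 + δ) * ((1 + δ) * P) :=
        mul_le_mul_of_nonneg_left e3 (by linarith)
      have f4 : ((1 + δ) * (1 + δ)) * P ≤ (1 + ε) * P := mul_le_mul_of_nonneg_right g1 hP0.le
      linarith

end Pool.Agent.Q259.AS
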