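import Pool.Agent.Q259.AS.Tup

set_option autoImplicit false

/-! Prime tuples with typical shifts, for all lengths. -/

namespace Pool.Agent.Q259.AS

open Finset MeasureTheory Filter
open Pool.Agent.Y885 (TLaw tl_tuples HLs_mono)
open Pool.Agent.W93.TD (HLs)

/-- the deterministic part: from a net of lengths to all lengths -/
lemma net_all (s B₁ U V : ℕ) (hB₁ : 1 ≤ B₁) (hV : s + U + 2 ≤ V) (ε δ : ℝ) (hδ : 0 < δ) (hδ1 : 4 * δ ≤ 1) (hδε : 4 * δ ≤ ε)
    (b : ℕ) (hb : 2 ≤ b) (Up : ℕ) (hUp : U + 1 ≤ Up) :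
    ∃ K₀ : ℕ, ∀ K X : ℕ, K₀ ≤ K → K ^ V * 4 ≤ X → (∀ N : ℕ, X ≤ 2 * B₁ * N → K₀ ≤ N) → b ^ 3 * (2 * B₁ * X) ≤ b ^ K →
      ∀ a : Fin s → ℕ, (∀ i, b ^ 3 * a i ≤ b ^ K) →
      (∀ j ∈ Icc 1 (2 * B₁ * K ^ V), X ≤ 2 * B₁ * (j * (X / K ^ V + 1)) → j * (X / K ^ V + 1) ≤ 2 * B₁ * X →
        HLs δ Up (j * (X / K ^ V + 1)) a) →
      ∀ N : ℕ, X ≤ B₁ * N → N ≤ B₁ * X → HLs ε U N a := by
  have hb1 : (1 : ℝ) < b := by exact_mod_cast (by omega : 1 < b)
  have hl0 : 0 < Real.log b := Real.log_pos hb1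
  obtain ⟨n₁, hn₁⟩ := exists_nat_ge (Real.exp ((2 : ℝ) ^ (U + 2) + 4))
  obtain ⟨n₂, hn₂⟩ := exists_nat_ge ((Real.log b ^ (s + 1) + 1) * (4 * B₁) * Real.log b ^ U + 4 * B₁ / δ)
  refine ⟨n₁ + n₂ + 4 * B₁ + 4, fun K X hK hX hlarge hXb a ha hnet N hN1 hN2 => ?_⟩
  have hB₁r : (1 : ℝ) ≤ B₁ := by exact_mod_cast hB₁
  have hK4 : (4 : ℝ) ≤ K := by exact_mod_cast (by omega : 4 ≤ K)
  have hK1 : (1 : ℝ) ≤ K := by linarith
  have hK0 : (0 : ℝ) < K := by linarith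
  have hKV1 : (K : ℝ) ≤ (K : ℝ) ^ V := by
    calc (K : ℝ) = (K : ℝ) ^ 1 := (pow_one _).symm
      _ ≤ _ := pow_le_pow_right₀ hK1 (by omega)
  have hKV0 : 0 < K ^ V := Nat.pow_pos (by omega)
  have hKV0r : (0 : ℝ) < (K : ℝ) ^ V := by positivity
  have hXr : (K : ℝ) ^ V * 4 ≤ X := by exact_mod_cast hX
  have hX0 : (0 : ℝ) < X := by linarith
  obtain ⟨D, hD⟩ : ∃ D, D = X / K ^ V + 1 := ⟨_, rfl⟩
  rw [← hD] at hnet
  have hD1 : 1 ≤ D := by rw [hD]; exact Nat.le_add_left 1 _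
  have hDle : (D : ℝ) ≤ 2 * (X / (K : ℝ) ^ V) := by
    have e1 : ((X / K ^ V : ℕ) : ℝ) ≤ (X : ℝ) / (K : ℝ) ^ V := by
      have := @Nat.cast_div_le ℝ _ _ _ X (K ^ V)
      push_cast at this
      exact this
    have e2 : (1 : ℝ) ≤ X / (K : ℝ) ^ V := by
      rw [le_div_iff₀ hKV0r]
      linarith
    rw [hD]
    push_cast
    linarith
  have hDgt : (X : ℝ) / (K : ℝ) ^ V < D := by
    rw [div_lt_iff₀ hKV0r]
    have := Nat.lt_mul_div_succ X hKV0
    have h2 : (X : ℝ) < ((K ^ V * (X / K ^ V + 1) : ℕ) : ℝ) := by exact_mod_cast this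
    rw [← hD] at h2
    push_cast at h2
    linarith
  have hN1r : (X : ℝ) ≤ B₁ * N := by exact_mod_cast hN1
  have hN2r : (N : ℝ) ≤ B₁ * X := by exact_mod_cast hN2
  have hnn : (n₁ + n₂ + 4 * B₁ + 4 : ℕ) ≤ N := hlarge N (by nlinarith [Nat.mul_le_mul_right N (show B₁ ≤ 2 * B₁ by omega)])
  have hDX : 2 * (B₁ : ℝ) * D ≤ X := by
    have e1 : 4 * (B₁ : ℝ) ≤ (K : ℝ) ^ V := by
      have : (4 * B₁ : ℝ) ≤ K := by exact_mod_cast (by omega : 4 * B₁ ≤ K)
      linarith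
    calc 2 * (B₁ : ℝ) * D ≤ 2 * B₁ * (2 * (X / (K : ℝ) ^ V)) := mul_le_mul_of_nonneg_left hDle (by positivity)
      _ = (4 * B₁) * X / (K : ℝ) ^ V := by ring
      _ ≤ (K : ℝ) ^ V * X / (K : ℝ) ^ V := by
          apply div_le_div_of_nonneg_right _ hKV0r.le
          exact mul_le_mul_of_nonneg_right e1 hX0.le
      _ = X := by field_simp
  obtain ⟨j, hj⟩ : ∃ j, j = N / D := ⟨_, rfl⟩
  have hjD : j * D ≤ N := by rw [hj]; exact Nat.div_mul_le_self N D
  have hjD2 : N < (j + 1) * D := by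
    rw [hj]
    have := Nat.lt_mul_div_succ N (show 0 < D by omega)
    rw [mul_comm] at this
    exact this
  have hjDr : (j : ℝ) * D ≤ N := by exact_mod_cast hjD
  have hjD2r : (N : ℝ) < ((j : ℝ) + 1) * D := by exact_mod_cast hjD2
  have hD0r : (0 : ℝ) < D := by exact_mod_cast hD1
  have hX2 : (X : ℝ) ≤ 2 * B₁ * (j * D) := by
    have e1 : (N : ℝ) ≤ j * D + D := by linarith
    have e2 : (B₁ : ℝ) * N ≤ B₁ * (j * D + D) := mul_le_mul_of_nonneg_left e1 (by positivity)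
    linarith
  have hX2n : X ≤ 2 * B₁ * (j * D) := by exact_mod_cast hX2
  have hX3 : ((j : ℝ) + 1) * D ≤ 2 * B₁ * X := by
    have e1 : (D : ℝ) ≤ X := by nlinarith
    nlinarith
  have hX3n : (j + 1) * D ≤ 2 * B₁ * X := by exact_mod_cast hX3
  have hj1 : 1 ≤ j := by
    by_contra hcon
    have : j = 0 := by omega
    rw [this] at hX2
    simp at hX2
    linarith
  have hjle : (j : ℝ) ≤ B₁ * (K : ℝ) ^ V := by
    have e1 : (j : ℝ) * D ≤ B₁ * X := hjDr.trans hN2r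
    have e2 : (X : ℝ) ≤ (K : ℝ) ^ V * D := by
      rw [div_lt_iff₀ hKV0r] at hDgt
      linarith
    have e3 : (j : ℝ) * D ≤ (B₁ * (K : ℝ) ^ V) * D := by
      calc (j : ℝ) * D ≤ B₁ * X := e1
        _ ≤ B₁ * ((K : ℝ) ^ V * D) := mul_le_mul_of_nonneg_left e2 (by positivity)
        _ = _ := by ring
    exact le_of_mul_le_mul_right e3 hD0r
  have hjlen : j ≤ B₁ * K ^ V := by exact_mod_cast hjle
  have hj2 : j + 1 ≤ 2 * B₁ * K ^ V := by
    have : 1 ≤ B₁ * K ^ V := Nat.mul_pos hB₁ hKV0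
    have e2 : 2 * B₁ * K ^ V = B₁ * K ^ V + B₁ * K ^ V := by ring
    omega
  have hN₁3 : n₁ + n₂ + 4 * B₁ + 4 ≤ j * D := hlarge _ hX2n
  have hH1 := hnet j (mem_Icc.2 ⟨hj1, by omega⟩) hX2n (by
    refine le_trans ?_ hX3n
    exact Nat.mul_le_mul_right _ (by omega))
  have hH2 := hnet (j + 1) (mem_Icc.2 ⟨by omega, hj2⟩) (hX2n.trans (Nat.mul_le_mul_left _ (Nat.mul_le_mul_right _ (by omega)))) hX3n
  have hH1' := HLs_mono hUp (by omega) hH1
  have hH2' := HLs_mono hUp (by omega) hH2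
  have hb3 : 8 ≤ b ^ 3 := by
    have : 2 ^ 3 ≤ b ^ 3 := Nat.pow_le_pow_left hb 3
    omega
  have hNM : 8 * N ≤ b ^ K := by
    have e1 : N ≤ 2 * B₁ * X := by nlinarith
    exact (Nat.mul_le_mul hb3 e1).trans hXb
  have haM : ∀ i, 8 * a i ≤ b ^ K := fun i => (Nat.mul_le_mul_right _ hb3).trans (ha i)
  -- logarithms
  have hNr : (4 : ℝ) ≤ N := by exact_mod_cast (by omega : 4 ≤ N)
  have hn₁N : (n₁ : ℝ) ≤ N := by exact_mod_cast (by omega : n₁ ≤ N)
  have hlogN : (2 : ℝ) ^ (U + 2) + 4 ≤ Real.log N := by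
    rw [Real.le_log_iff_exp_le (by linarith)]
    linarith
  have h2U : (0 : ℝ) < (2 : ℝ) ^ (U + 2) := by positivity
  have hlN0 : 0 < Real.log (N : ℝ) := by linarith
  have hlogNK : Real.log (N : ℝ) ≤ K * Real.log b := by
    rw [← Real.log_pow]
    apply Real.log_le_log (by linarith)
    exact_mod_cast (by omega : N ≤ b ^ K)
  have hn₂K : (n₂ : ℝ) ≤ K := by exact_mod_cast (by omega : n₂ ≤ K)
  have hcoef1 : (Real.log b ^ (s + 1) + 1) * (4 * B₁) * Real.log b ^ U ≤ K := by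
    have : 0 ≤ 4 * (B₁ : ℝ) / δ := by positivity
    linarith
  have hcoef2 : 4 * (B₁ : ℝ) / δ ≤ K := by
    have : 0 ≤ (Real.log b ^ (s + 1) + 1) * (4 * B₁) * Real.log b ^ U := by positivity
    linarith
  have hdiff : (((j + 1) * D : ℕ) : ℝ) - ((j * D : ℕ) : ℝ) = D := by push_cast; ring
  apply interp ε δ hδ hδ1 hδε U a (j * D) N ((j + 1) * D) (b ^ K) hjD hjD2.le (by omega) hH1' hH2' (by omega)
    (fun i => by have := haM i; omega)
  · -- c1
    have e1 : (D : ℝ) ≤ δ * (j * D) := by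
      have f1 : (D : ℝ) ≤ 2 * (X / (K : ℝ) ^ V) := hDle
      have f2 : (X : ℝ) / (K : ℝ) ^ V ≤ X / K := div_le_div_of_nonneg_left hX0.le hK0 hKV1
      have f3 : 4 * (B₁ : ℝ) ≤ δ * K := by
        rw [div_le_iff₀ hδ] at hcoef2
        linarith
      have f4 : 2 * ((X : ℝ) / K) ≤ δ * (j * D) := by
        rw [mul_div_assoc', div_le_iff₀ hK0]
        calc 2 * (X : ℝ) ≤ 2 * (2 * B₁ * (j * D)) := by linarith
          _ = (4 * B₁) * (j * D) := by ring
          _ ≤ (δ * K) * (j * D) := mul_le_mul_of_nonneg_right f3 (by positivity)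
          _ = _ := by ring
      linarith
    push_cast
    linarith
  · -- c2
    rw [hdiff]
    have e0 : Real.log ((b ^ K : ℕ) : ℝ) = K * Real.log b := by push_cast; rw [Real.log_pow]
    rw [e0]
    have e1 : (K * Real.log b) ^ (s + 1) + 1 ≤ (Real.log b ^ (s + 1) + 1) * (K : ℝ) ^ (s + 1) := by
      rw [mul_pow, add_mul, one_mul]
      have : (1 : ℝ) ≤ (K : ℝ) ^ (s + 1) := one_le_pow₀ hK1
      linarith
    have e2 : (D : ℝ) ≤ 2 * (B₁ * N) / (K : ℝ) ^ V := by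
      refine hDle.trans ?_
      rw [mul_div_assoc]
      apply mul_le_mul_of_nonneg_left _ (by norm_num)
      exact div_le_div_of_nonneg_right hN1r hKV0r.le
    have e3 : Real.log (N : ℝ) ^ U ≤ (K : ℝ) ^ U * Real.log b ^ U := by
      rw [← mul_pow]
      exact pow_le_pow_left₀ hlN0.le hlogNK U
    have e4 : (K : ℝ) ^ (s + 1) * (K : ℝ) ^ U * K ≤ (K : ℝ) ^ V := by
      rw [← pow_add, ← pow_succ]
      exact pow_le_pow_right₀ hK1 (by omega)
    calc ((K * Real.log b) ^ (s + 1) + 1) * D ≤ ((Real.log b ^ (s + 1) + 1) * (K : ℝ) ^ (s + 1)) * (2 * (B₁ * N) / (K : ℝ) ^ V) :=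
          mul_le_mul e1 e2 hD0r.le (by positivity)
      _ ≤ 1 / 2 * (N / Real.log N ^ U) := by
          rw [mul_div_assoc', mul_div_assoc', div_le_div_iff₀ hKV0r (by positivity)]
          calc (Real.log b ^ (s + 1) + 1) * (K : ℝ) ^ (s + 1) * (2 * (B₁ * N)) * Real.log N ^ U ≤
              (Real.log b ^ (s + 1) + 1) * (K : ℝ) ^ (s + 1) * (2 * (B₁ * N)) * ((K : ℝ) ^ U * Real.log b ^ U) :=
                mul_le_mul_of_nonneg_left e3 (by positivity)
            _ = (1 / 2 * N) * (((Real.log b ^ (s + 1) + 1) * (4 * B₁) * Real.log b ^ U) * ((K : ℝ) ^ (s + 1) * (K : ℝ) ^ U)) := by ring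
            _ ≤ (1 / 2 * N) * (K * ((K : ℝ) ^ (s + 1) * (K : ℝ) ^ U)) := by
                apply mul_le_mul_of_nonneg_left _ (by positivity)
                exact mul_le_mul_of_nonneg_right hcoef1 (by positivity)
            _ = (1 / 2 * N) * ((K : ℝ) ^ (s + 1) * (K : ℝ) ^ U * K) := by ring
            _ ≤ 1 / 2 * N * (K : ℝ) ^ V := mul_le_mul_of_nonneg_left e4 (by positivity)
  · -- c3
    have e1 : (((j + 1) * D : ℕ) : ℝ) ≤ 2 * N := by
      push_cast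
      have : (1 : ℝ) ≤ j := by exact_mod_cast hj1
      nlinarith
    have e2 : Real.log (N : ℝ) ≤ Real.log (((j + 1) * D : ℕ) : ℝ) := by
      apply Real.log_le_log (by linarith)
      exact_mod_cast hjD2.le
    calc (((j + 1) * D : ℕ) : ℝ) / Real.log (((j + 1) * D : ℕ) : ℝ) ^ (U + 1) ≤ (2 * N) / Real.log N ^ (U + 1) :=
          div_le_div₀ (by positivity) e1 (by positivity) (pow_le_pow_left₀ hlN0.le e2 _)
      _ = (N / Real.log N ^ U) * (2 / Real.log N) := by rw [pow_succ]; field_simp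
      _ ≤ (N / Real.log N ^ U) * (1 / 2) := by
          apply mul_le_mul_of_nonneg_left _ (by positivity)
          rw [div_le_div_iff₀ hlN0 (by norm_num)]
          linarith
      _ = _ := by ring
  · -- c4
    have e1 : ((j * D : ℕ) : ℝ) ≤ N := by exact_mod_cast hjD
    have e0 : (N : ℝ) / 2 ≤ ((j * D : ℕ) : ℝ) := by
      push_cast
      have : (1 : ℝ) ≤ j := by exact_mod_cast hj1
      nlinarith
    have hhalf : Real.log (N : ℝ) / 2 ≤ Real.log ((j * D : ℕ) : ℝ) := by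
      have f1 : Real.log ((N : ℝ) / 2) ≤ Real.log ((j * D : ℕ) : ℝ) := Real.log_le_log (by linarith) e0
      rw [Real.log_div (by linarith) (by norm_num)] at f1
      have f2 := Real.log_two_lt_d9
      linarith
    have e2 : (Real.log (N : ℝ) / 2) ^ (U + 1) ≤ Real.log ((j * D : ℕ) : ℝ) ^ (U + 1) :=
      pow_le_pow_left₀ (by linarith) hhalf _
    calc ((j * D : ℕ) : ℝ) / Real.log ((j * D : ℕ) : ℝ) ^ (U + 1) ≤ N / (Real.log N / 2) ^ (U + 1) :=
          div_le_div₀ (by positivity) e1 (by positivity) e2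
      _ = (N / Real.log N ^ U) * (2 ^ (U + 1) / Real.log N) := by
          rw [div_pow, pow_succ (Real.log (N : ℝ))]
          field_simp
      _ ≤ (N / Real.log N ^ U) * (1 / 2) := by
          apply mul_le_mul_of_nonneg_left _ (by positivity)
          rw [div_le_div_iff₀ hlN0 (by norm_num)]
          have : (2 : ℝ) ^ (U + 2) = 2 ^ (U + 1) * 2 := by rw [pow_succ]
          linarith
      _ = _ := by ring

end Pool.Agent.Q259.AS
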