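import Pool.Agent.Q259.AS.Tup2

set_option autoImplicit false

/-! Prime tuples with typical shifts: the exceptional sets are rarely met. -/

namespace Pool.Agent.Q259.AS

open Finset MeasureTheory Filter
open Pool.Agent.Y885 (TLaw tl_tuples HLs_mono)
open Pool.Agent.W93.TD (HLs)

theorem eng_tuples (s B₁ U : ℕ) (hs : 1 ≤ s) (hB₁ : 1 ≤ B₁) (ε : ℝ) (hε : 0 < ε) :
    EngT s ℕ (fun X => 2 * B₁ * X) (fun X => {h | (∀ i, 0 ≤ h i) ∧
      ¬ ∀ N : ℕ, X ≤ B₁ * N → N ≤ B₁ * X → HLs ε U N (fun i => (h i).toNat)}) := by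
  classical
  intro b E hb hE c k₀ B U₁
  obtain ⟨δ, hδ⟩ : ∃ δ, δ = min (ε / 4) (1 / 4) := ⟨_, rfl⟩
  have hδ0 : 0 < δ := by rw [hδ]; positivity
  have hδ1 : 4 * δ ≤ 1 := by
    have := min_le_right (ε / 4) (1 / 4)
    rw [← hδ] at this
    linarith
  have hδε : 4 * δ ≤ ε := by
    have := min_le_left (ε / 4) (1 / 4)
    rw [← hδ] at this
    linarith
  obtain ⟨V, hV⟩ : ∃ V, V = s + U + 2 := ⟨_, rfl⟩
  obtain ⟨Up, hUp⟩ : ∃ Up, Up = U₁ + V + U + 2 := ⟨_, rfl⟩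
  obtain ⟨K₀, h0⟩ := tl_tuples s b E (c (2 * (2 * Up + 5 + s + 2) + 6)) (B * (2 * B₁) * (2 * B₁)) Up hs hb hE δ hδ0
  obtain ⟨K₂, h2⟩ := net_all s B₁ U V hB₁ hV.ge ε δ hδ0 hδ1 hδε b hb Up (by omega)
  obtain ⟨K₃, h3⟩ := pow_ev (V + 1) b hb
  refine ⟨K₀ + K₂ + K₃ + k₀ (2 * (2 * Up + 5 + s + 2) + 6) + B * (2 * B₁) * (2 * B₁) * (K₂ + 4) + 4 * B₁ + 4,
    fun K hK S w hw hS X hX1 hX2 => ?_⟩
  simp only at hX1 hX2
  have hKb : K < b ^ K := Nat.lt_pow_self (by omega)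
  have hb3 : 8 ≤ b ^ 3 := by
    have : 2 ^ 3 ≤ b ^ 3 := Nat.pow_le_pow_left hb 3
    omega
  have hb8 : (8 : ℤ) ≤ (b : ℤ) ^ 3 := by exact_mod_cast hb3
  have hK1 : (1 : ℝ) ≤ K := by exact_mod_cast (by omega : 1 ≤ K)
  have hK0 : (0 : ℝ) < K := by linarith
  have hKV0 : 0 < K ^ V := Nat.pow_pos (by omega)
  -- large
  have hXlarge : K ^ V * 4 ≤ X := by
    have e1 := h3 K (by omega)
    have e2 : 4 * b ^ 3 * K ^ (V + 1) ≤ B * (2 * B₁) * X := by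
      calc 4 * b ^ 3 * K ^ (V + 1) ≤ b ^ K := e1
        _ ≤ B * (2 * B₁ * X) := hX1
        _ = _ := by ring
    have e3 : B * (2 * B₁) ≤ K := by
      have : B * (2 * B₁) ≤ B * (2 * B₁) * (2 * B₁) * (K₂ + 4) := by
        rw [mul_assoc (B * (2 * B₁))]
        exact Nat.le_mul_of_pos_right _ (Nat.mul_pos (by omega) (by omega))
      omega
    have e4 : 4 * b ^ 3 * K ^ (V + 1) ≤ K * X := e2.trans (Nat.mul_le_mul_right _ e3)
    have e5 : K * (K ^ V * 4) ≤ K * X := by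
      calc K * (K ^ V * 4) = 4 * 1 * K ^ (V + 1) := by rw [pow_succ]; ring
        _ ≤ 4 * b ^ 3 * K ^ (V + 1) := Nat.mul_le_mul_right _ (Nat.mul_le_mul_left _ (by omega))
        _ ≤ K * X := e4
    exact Nat.le_of_mul_le_mul_left e5 (by omega)
  have hNlarge : ∀ N : ℕ, X ≤ 2 * B₁ * N → K₂ ≤ N := by
    intro N hN
    by_contra hcon
    push Not at hcon
    have e1 : B * (2 * B₁ * X) ≤ B * (2 * B₁ * (2 * B₁ * K₂)) :=
      Nat.mul_le_mul_left _ (Nat.mul_le_mul_left _ (hN.trans (Nat.mul_le_mul_left _ hcon.le)))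
    have e2 : B * (2 * B₁ * (2 * B₁ * K₂)) ≤ B * (2 * B₁) * (2 * B₁) * (K₂ + 4) := by
      calc B * (2 * B₁ * (2 * B₁ * K₂)) = B * (2 * B₁) * (2 * B₁) * K₂ := by ring
        _ ≤ _ := Nat.mul_le_mul_left _ (by omega)
    omega
  -- the events
  have hone : ∀ j ∈ Icc 1 (2 * B₁ * K ^ V), ∑ h ∈ Fintype.piFinset S,
      (if (∀ i, 0 ≤ h i) ∧ X ≤ 2 * B₁ * (j * (X / K ^ V + 1)) ∧ j * (X / K ^ V + 1) ≤ 2 * B₁ * X ∧
        ¬ HLs δ Up (j * (X / K ^ V + 1)) (fun i => (h i).toNat) then ∏ i, w i (h i) else 0) ≤ 1 / (K : ℝ) ^ Up := by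
    intro j _
    by_cases hj : X ≤ 2 * B₁ * (j * (X / K ^ V + 1)) ∧ j * (X / K ^ V + 1) ≤ 2 * B₁ * X
    · obtain ⟨N, hN⟩ : ∃ N, N = j * (X / K ^ V + 1) := ⟨_, rfl⟩
      rw [← hN] at hj ⊢
      refine le_trans (le_of_eq (sum_congr rfl fun h _ => ite_inst _ _ _ _)) (h0 K (by omega) ℤ inferInstance S w
        (fun _ n => n) (fun i => (hw i).law _ (by omega)) (fun i => (hw i).sum) N
        ?_ ?_ ?_ (fun h => (∀ i, 0 ≤ h i) ∧ X ≤ 2 * B₁ * N ∧ N ≤ 2 * B₁ * X ∧ ¬ HLs δ Up N (fun i => (h i).toNat))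
        (fun _ => Classical.propDecidable _) (fun h _ hh => ⟨hh.1, hh.2.2.2⟩))
      · calc b ^ K ≤ B * (2 * B₁ * X) := hX1
          _ ≤ B * (2 * B₁ * (2 * B₁ * N)) := Nat.mul_le_mul_left _ (Nat.mul_le_mul_left _ hj.1)
          _ = _ := by ring
      · calc N ≤ 2 * B₁ * X := hj.2
          _ ≤ b ^ 3 * (2 * B₁ * X) := Nat.le_mul_of_pos_left _ (by omega)
          _ ≤ b ^ K := hX2
      · intro i v hv
        have e1 := hS i v hv
        have e2 : 8 * |v| ≤ (b : ℤ) ^ K := (mul_le_mul_of_nonneg_right hb8 (abs_nonneg _)).trans e1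
        have e3 : 8 * N ≤ b ^ K := (Nat.mul_le_mul hb3 hj.2).trans hX2
        have e4 : 8 * (N : ℤ) ≤ (b : ℤ) ^ K := by exact_mod_cast e3
        have e5 := neg_abs_le v
        have e6 := le_abs_self v
        have e7 : (0 : ℤ) < (b : ℤ) ^ K := by positivity
        constructor <;> linarith
    · refine le_trans (le_of_eq (sum_eq_zero fun h _ => ?_)) (by positivity)
      rw [if_neg]
      rintro ⟨_, h1, h2, _⟩
      exact hj ⟨h1, h2⟩
  have hwnn : ∀ h ∈ Fintype.piFinset S, 0 ≤ ∏ j, w j (h j) := by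
    intro h hh
    exact prod_nonneg fun j _ => (hw j).nonneg _ (Fintype.mem_piFinset.1 hh j)
  have hpt : ∀ h ∈ Fintype.piFinset S, ∀ d : Decidable ((∀ i, 0 ≤ h i) ∧
      ¬ ∀ N : ℕ, X ≤ B₁ * N → N ≤ B₁ * X → HLs ε U N (fun i => (h i).toNat)), @ite ℝ _ d (∏ i, w i (h i)) 0 ≤
      ∑ j ∈ Icc 1 (2 * B₁ * K ^ V), (if (∀ i, 0 ≤ h i) ∧ X ≤ 2 * B₁ * (j * (X / K ^ V + 1)) ∧
        j * (X / K ^ V + 1) ≤ 2 * B₁ * X ∧ ¬ HLs δ Up (j * (X / K ^ V + 1)) (fun i => (h i).toNat) then ∏ i, w i (h i) else 0) := by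
    intro h hh d
    split_ifs with hbad
    · obtain ⟨hb0, hb1⟩ := hbad
      by_contra hcon
      push Not at hcon
      apply hb1
      have hnn : ∀ j ∈ Icc 1 (2 * B₁ * K ^ V), 0 ≤ (if (∀ i, 0 ≤ h i) ∧ X ≤ 2 * B₁ * (j * (X / K ^ V + 1)) ∧
        j * (X / K ^ V + 1) ≤ 2 * B₁ * X ∧ ¬ HLs δ Up (j * (X / K ^ V + 1)) (fun i => (h i).toNat) then ∏ i, w i (h i) else 0) := by
        intro j _
        split_ifs
        · exact hwnn h hh
        · exact le_rfl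
      apply h2 K X (by omega) hXlarge hNlarge hX2 (fun i => (h i).toNat)
      · intro i
        have e1 := hS i (h i) (Fintype.mem_piFinset.1 hh i)
        rw [abs_of_nonneg (hb0 i)] at e1
        have e2 : ((b ^ 3 * (h i).toNat : ℕ) : ℤ) ≤ ((b ^ K : ℕ) : ℤ) := by
          push_cast
          rw [Int.toNat_of_nonneg (hb0 i)] at *
          exact e1
        exact_mod_cast e2
      · intro j hj hj1 hj2
        by_contra hHL
        have h5 := single_le_sum hnn hj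
        rw [if_pos ⟨hb0, hj1, hj2, hHL⟩] at h5
        linarith
    · apply sum_nonneg
      intro j _
      split_ifs
      · exact hwnn h hh
      · exact le_rfl
  refine (sum_le_sum fun h hh => hpt h hh _).trans ?_
  rw [sum_comm]
  refine (sum_le_sum hone).trans ?_
  rw [sum_const, Nat.card_Icc, Nat.add_sub_cancel, nsmul_eq_mul]
  push_cast
  have e1 : (2 * B₁ : ℝ) ≤ K := by exact_mod_cast (by omega : 2 * B₁ ≤ K)
  calc 2 * (B₁ : ℝ) * (K : ℝ) ^ V * (1 / (K : ℝ) ^ Up) ≤ K * (K : ℝ) ^ V * (1 / (K : ℝ) ^ Up) :=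
        mul_le_mul_of_nonneg_right (mul_le_mul_of_nonneg_right e1 (by positivity)) (by positivity)
    _ = (K : ℝ) ^ (V + 1) / (K : ℝ) ^ Up := by rw [pow_succ]; ring
    _ ≤ 1 / (K : ℝ) ^ U₁ := by
        rw [div_le_div_iff₀ (by positivity) (by positivity), one_mul, ← pow_add]
        exact pow_le_pow_right₀ hK1 (by omega)

end Pool.Agent.Q259.AS
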