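import Pool.Agent.Q259.AS.Tup3
import Pool.Agent.Q259.AS.FnA

set_option autoImplicit false

/-! Prime tuples with typical shifts: the almost sure statement. -/

namespace Pool.Agent.Q259.AS

open Finset MeasureTheory Filter
open Pool.Agent.W93.TD (HLs)

theorem as_tuples (s B T : ℕ) (hs : 1 ≤ s) (μ : Fin s → Measure ℝ) [∀ i, IsProbabilityMeasure (μ i)]
    (hμ : ∀ i, SelfSim (μ i) ∨ FourLp (μ i)) (a : ℕ → ℝ) (ρ : ℝ) (hρ : 0 < ρ)
    (ha : ∀ᶠ k : ℕ in atTop, 0 < a k ∧ (k : ℝ) ^ ρ ≤ Real.log (a k))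
    (Y : ℕ → Finset (Fin s → ℝ)) (hY : ∀ᶠ k : ℕ in atTop, (Y k).card ≤ k ^ T ∧ ∀ y ∈ Y k, ∀ i, |y i| ≤ B * a k) :
    ∀ᵐ x ∂(Measure.pi μ), ∀ m A U B₁ : ℕ, ∀ᶠ k : ℕ in atTop, ∀ y ∈ Y k, ∀ h : Fin s → ℕ,
      (∀ i, |(h i : ℝ) - (a k * x i + y i)| ≤ Real.log (a k) ^ A) →
      ∀ N : ℕ, a k ≤ B₁ * N → (N : ℝ) ≤ B₁ * a k → HLs (1 / ((m : ℝ) + 1)) U N h := by
  classical
  have h1 : ∀ m A U B₁ : ℕ, ∀ᵐ x ∂(Measure.pi μ), ∀ᶠ k : ℕ in atTop, ∀ y ∈ Y k, ∀ n ∈ {h : Fin s → ℤ | (∀ i, 0 ≤ h i) ∧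
      ¬ ∀ N : ℕ, ⌈a k⌉₊ ≤ (2 * B₁ + 2) * N → N ≤ (2 * B₁ + 2) * ⌈a k⌉₊ →
        Pool.Agent.W93.TD.HLs (1 / ((m : ℝ) + 1)) U N (fun i => (h i).toNat)},
      ∃ i, Real.log (a k) ^ A < |(n i : ℝ) - (a k * x i + y i)| := by
    intro m A U B₁
    refine as_of μ (rare_of (eng_tuples s (2 * B₁ + 2) U hs (by omega) (1 / ((m : ℝ) + 1)) (by positivity)) μ
      (fun i => niceM_of (μ i) (hμ i))) a ρ hρ
      (ha.mono fun k h => h.2) (ha.mono fun k h => h.1) T A (B + 4 * (2 * B₁ + 2)) Y (hY.mono fun k h => h.1)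
      (fun _ y => y) ?_ (fun k _ => ⌈a k⌉₊) ?_
    · filter_upwards [hY, ha] with k h h2 y hy i
      refine (h.2 y hy i).trans (mul_le_mul_of_nonneg_right ?_ h2.1.le)
      push_cast
      have : (0 : ℝ) ≤ B₁ := Nat.cast_nonneg _
      linarith
    · filter_upwards [sizes_ev a ρ hρ ha 1] with k h y _
      have h3 := Nat.le_ceil (a k)
      have ha0 : 0 < a k := by linarith [h.2.2]
      have h4 := Nat.ceil_lt_add_one ha0.le
      have h5 : (0 : ℝ) ≤ B := Nat.cast_nonneg B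
      have h6 : (0 : ℝ) ≤ B₁ := Nat.cast_nonneg B₁
      push_cast
      constructor
      · have e1 : (⌈a k⌉₊ : ℝ) ≤ (B + 4 * (2 * B₁ + 2)) * (2 * (2 * B₁ + 2) * ⌈a k⌉₊) := by
          have f1 : (1 : ℝ) ≤ (B + 4 * (2 * B₁ + 2)) * (2 * (2 * B₁ + 2)) := by nlinarith
          have f2 : (0 : ℝ) ≤ ⌈a k⌉₊ := Nat.cast_nonneg _
          nlinarith
        linarith
      · have e1 : (⌈a k⌉₊ : ℝ) ≤ 2 * a k := by linarith [h.2.2]
        calc 2 * (2 * (B₁ : ℝ) + 2) * ⌈a k⌉₊ ≤ 2 * (2 * (B₁ : ℝ) + 2) * (2 * a k) :=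
              mul_le_mul_of_nonneg_left e1 (by positivity)
          _ = (4 * (2 * B₁ + 2)) * a k := by ring
          _ ≤ (B + 4 * (2 * B₁ + 2)) * a k := mul_le_mul_of_nonneg_right (by linarith) ha0.le
  have h2 := ae_all_iff.2 (fun m => ae_all_iff.2 (fun A => ae_all_iff.2 (fun U => ae_all_iff.2 (h1 m A U))))
  filter_upwards [h2] with x hx m A U B₁
  filter_upwards [hx m A U B₁, sizes_ev a ρ hρ ha 1] with k hk hsz y hy h hnear N hN1 hN2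
  have ha0 : 0 < a k := by linarith [hsz.2.2]
  have h3 := Nat.le_ceil (a k)
  have h4 := Nat.ceil_lt_add_one ha0.le
  by_contra hcon
  obtain ⟨i, hi⟩ := hk y hy (fun i => (h i : ℤ)) (by
    refine ⟨fun i => Int.natCast_nonneg _, fun hall => hcon ?_⟩
    have h5 := hall N (by
      have e1 : ((⌈a k⌉₊ : ℕ) : ℝ) ≤ (((2 * B₁ + 2) * N : ℕ) : ℝ) := by
        push_cast
        have : (0 : ℝ) ≤ N := Nat.cast_nonneg _
        have : (1 : ℝ) < a k := hsz.2.2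
        nlinarith
      exact_mod_cast e1) (by
      have e1 : ((N : ℕ) : ℝ) ≤ (((2 * B₁ + 2) * ⌈a k⌉₊ : ℕ) : ℝ) := by
        push_cast
        have f1 : (0 : ℝ) ≤ B₁ := Nat.cast_nonneg _
        nlinarith
      exact_mod_cast e1)
    simpa using h5)
  have h6 := hnear i
  push_cast at hi
  linarith

end Pool.Agent.Q259.AS
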