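import Pool.Agent.Q259.AS.One
import Pool.Agent.Q259.AS.FnA
import Pool.Agent.Y885.WI2

set_option autoImplicit false

/-! Goldbach pairs in windows near typical points. -/

namespace Pool.Agent.Q259.AS

open Finset MeasureTheory Filter
open Pool.Agent.Y885 (TLaw tl_windows)
open Pool.Agent.W93.PG (WinP)

theorem eng_windows (ε : ℝ) (hε : 0 < ε) (A m₀ : ℕ) :
    Eng1 ℕ id (fun _ => {n : ℤ | 0 < n ∧ 2 ∣ n ∧ ¬ (m₀ ≤ n.toNat ∧ WinP ε A n.toNat)}) := by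
  classical
  intro b E hb hE c k₀ B U
  obtain ⟨V, hV⟩ := tl_windows b hb E (c (U + 1 + 3)) A (U + 1) m₀ hE ε hε (fun m => m₀ ≤ m ∧ WinP ε A m)
    (fun m hm _ h => ⟨hm, h⟩)
  obtain ⟨K₀, hK₀⟩ := hV (c V)
  obtain ⟨P2, hP2⟩ : ∃ P2 : ℕ, P2 = 2 ^ (U + 2) := ⟨_, rfl⟩
  refine ⟨K₀ + k₀ (U + 1 + 3) + k₀ V + P2 + 4, fun K hK S w hw hS q hq1 hq2 => ?_⟩
  obtain ⟨K', rfl⟩ : ∃ K', K = K' + 2 := ⟨K - 2, by omega⟩
  have h1 := hK₀ K' (by omega) ℤ S w (fun n => n) (hw.law (U + 1 + 3) (by omega)) (hw.law V (by omega)) (fun n hn => ?_)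
    (fun n => n ∈ {n : ℤ | 0 < n ∧ 2 ∣ n ∧ ¬ (m₀ ≤ n.toNat ∧ WinP ε A n.toNat)}) (Classical.decPred _) (fun n _ h => h)
  · refine le_trans (le_of_eq ?_) (h1.trans ?_)
    · apply sum_congr rfl
      intro n _
      exact ite_inst _ _ _ _
    · have e1 : (2 : ℝ) ^ (U + 2) ≤ K' := by
        have : 2 ^ (U + 2) ≤ K' := by rw [← hP2]; omega
        exact_mod_cast this
      have e0 : (4 : ℝ) ≤ K' := by
        refine le_trans ?_ e1
        calc (4 : ℝ) = 2 ^ 2 := by norm_num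
          _ ≤ 2 ^ (U + 2) := pow_le_pow_right₀ (by norm_num) (by omega)
      have e2 : (((K' + 2 : ℕ) : ℝ)) ^ U ≤ (K' : ℝ) ^ (U + 1) := by
        calc (((K' + 2 : ℕ) : ℝ)) ^ U ≤ (2 * (K' : ℝ)) ^ U := by
              apply pow_le_pow_left₀ (by positivity)
              push_cast
              linarith
          _ = 2 ^ U * (K' : ℝ) ^ U := mul_pow _ _ _
          _ ≤ K' * (K' : ℝ) ^ U := by
              apply mul_le_mul_of_nonneg_right _ (by positivity)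
              refine le_trans ?_ e1
              exact pow_le_pow_right₀ (by norm_num) (by omega)
          _ = _ := by rw [pow_succ]; ring
      exact one_div_le_one_div_of_le (by positivity) e2
  · have h2 := hS n hn
    have hb1 : (1 : ℤ) ≤ b := by exact_mod_cast (by omega : 1 ≤ b)
    have h3 : (b : ℤ) ^ 2 * |n| ≤ (b : ℤ) ^ 3 * |n| :=
      mul_le_mul_of_nonneg_right (pow_le_pow_right₀ hb1 (by norm_num)) (abs_nonneg _)
    have h4 : (b : ℤ) ^ 2 * |n| ≤ (b : ℤ) ^ 2 * (b : ℤ) ^ K' := by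
      rw [← pow_add, add_comm 2 K']
      exact h3.trans h2
    exact le_of_mul_le_mul_left h4 (by positivity)

/-- **Goldbach pairs in windows near typical points.** -/
theorem as_windows (μ : Measure ℝ) [IsProbabilityMeasure μ] (hμ : SelfSim μ ∨ FourLp μ) (a : ℕ → ℝ) (ρ : ℝ) (hρ : 0 < ρ)
    (ha : ∀ᶠ k : ℕ in atTop, 0 < a k ∧ (k : ℝ) ^ ρ ≤ Real.log (a k)) (B T : ℕ) (Y : ℕ → Finset ℝ)
    (hY : ∀ᶠ k : ℕ in atTop, (Y k).card ≤ k ^ T ∧ ∀ y ∈ Y k, |y| ≤ B * a k) :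
    ∀ᵐ x ∂μ, ∀ ε : ℝ, 0 < ε → ∀ A A' m₀ : ℕ, ∀ᶠ k : ℕ in atTop, ∀ y ∈ Y k, ∀ n : ℕ, 0 < n → 2 ∣ n →
      |(n : ℝ) - (a k * x + y)| ≤ Real.log (a k) ^ A' → m₀ ≤ n ∧ WinP ε A n := by
  have h1 : ∀ m A A' m₀ : ℕ, ∀ᵐ x ∂μ, ∀ᶠ k : ℕ in atTop, ∀ y ∈ Y k, ∀ n ∈ {n : ℤ | 0 < n ∧ 2 ∣ n ∧
      ¬ (m₀ ≤ n.toNat ∧ WinP (1 / ((m : ℝ) + 1)) A n.toNat)}, Real.log (a k) ^ A' < |(n : ℝ) - (a k * x + y)| := by
    intro m A A' m₀
    exact as_one (eng_windows (1 / ((m : ℝ) + 1)) (by positivity) A m₀) μ (niceM_of μ hμ) a ρ hρ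
      (ha.mono fun k h => h.2) (ha.mono fun k h => h.1) T A' (B + 2) Y (hY.mono fun k h => h.1) (fun _ y => y)
      (by
        filter_upwards [hY, ha] with k h h2 y hy
        refine (h.2 y hy).trans (mul_le_mul_of_nonneg_right ?_ h2.1.le)
        push_cast
        linarith)
      (fun k _ => ⌈a k⌉₊)
      (by
        filter_upwards [ha, eventually_ge_atTop 1] with k h hk y _
        have h0 : 0 < Real.log (a k) :=
          lt_of_lt_of_le (Real.rpow_pos_of_pos (by exact_mod_cast hk) ρ) h.2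
        have h1 : 1 < a k := (Real.log_pos_iff h.1.le).1 h0
        have h3 := Nat.le_ceil (a k)
        have h4 := Nat.ceil_lt_add_one h.1.le
        have h5 : (0 : ℝ) ≤ B := Nat.cast_nonneg B
        simp only [id]
        push_cast
        constructor
        · nlinarith
        · nlinarith)
  have h2 := ae_all_iff.2 (fun m => ae_all_iff.2 (fun A => ae_all_iff.2 (fun A' => ae_all_iff.2 (h1 m A A'))))
  filter_upwards [h2] with x hx ε hε A A' m₀
  obtain ⟨m, hm⟩ := exists_nat_one_div_lt hε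
  filter_upwards [hx m A A' m₀] with k hk y hy n hn he hdist
  by_contra hcon
  have h3 := hk y hy (n : ℤ) ?_
  · push_cast at h3
    linarith
  · refine ⟨by exact_mod_cast hn, by exact_mod_cast he, fun h => hcon ?_⟩
    rw [Int.toNat_natCast] at h
    refine ⟨h.1, ?_⟩
    intro y₁ y₂ h4 h5 h6
    have h7 := h.2 y₁ y₂ h4 h5 h6
    refine h7.trans (mul_le_mul_of_nonneg_right hm.le ?_)
    have h8 : (0 : ℝ) ≤ (y₂ : ℝ) - y₁ := by
      have : (y₁ : ℝ) < y₂ := by exact_mod_cast h4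
      linarith
    have h9 := Pool.Agent.W93.GB.one_le_sing n
    have h10 : 0 ≤ Pool.Agent.H560R3.GB.sing n := by linarith
    positivity

end Pool.Agent.Q259.AS
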